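import Pool.Agent.Work.MP_9de0a1_al.X.XBddCore
import Pool.Agent.Work.MP_9de0a1_al.Bdd

/-!
# XBdd : all groups of order `2^a b`, `3 ≤ b ≤ D` odd
-/

open Subgroup

namespace Pool.Agent.EnumG

/-- the relation used to count over `R` -/
def BddRelG (b i j : ℕ) (K : Type) [Group K] (G : Type) [Group G] : Prop :=
  Nat.card G = 2 ^ (i + j) * b ∧
    ∃ f : K →* G, Function.Injective f ∧ f.range.Normal

theorem bddRelG_iso {b i j : ℕ} {K K' : Type} [Group K] [Group K'] {G : Type} [Group G]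
    (e : Nonempty (K ≃* K')) (h : BddRelG b i j K G) : BddRelG b i j K' G := by
  obtain ⟨e⟩ := e
  obtain ⟨h1, f, hf, hn⟩ := h
  refine ⟨h1, f.comp e.symm.toMonoidHom, hf.comp e.symm.injective, ?_⟩
  have : (f.comp e.symm.toMonoidHom).range = f.range := by
    ext y
    constructor
    · rintro ⟨n, rfl⟩
      exact ⟨_, rfl⟩
    · rintro ⟨n, rfl⟩
      exact ⟨e n, by simp⟩
  rw [this]
  exact hn

/-- one value of `j`, good and bad `R` together -/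
theorem bddG_step {D1 A : ℕ} {α η δ : ℝ} (hα : 0 ≤ α) (hη : 0 ≤ η) (hη1 : η ≤ 1 / 6)
    (hA : ∀ (i j b : ℕ), Odd b → 3 ≤ b → 2 ^ j * b ≤ D1 →
      ∀ (R : Type) [Group R] [Finite R], Nat.card R = 2 ^ i →
        NumLe (fun G _ => BddRelG b i j R G)
          (2 ^ (A * (i + 1)) * (Nat.card (AV R) : ℝ) ^ b * 
            (Nat.card (MulAut R) : ℝ) ^ (j + Nat.log 2 b - 1)))
    {i j b r : ℕ} (hr : r = j + Nat.log 2 b - 1) (hb : Odd b) (hb3 : 3 ≤ b) (hj : 2 ^ j * b ≤ D1)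
    (hd1 : NumLe (fun Q _ => Nat.card Q = 2 ^ i ∧ ∃ φ : MulAut Q, (2 : ℝ) ^ (α * i) ≤ disp φ)
      ((2 : ℝ) ^ ((2 / 27 - δ) * (i : ℝ) ^ 3)))
    (hd2 : NumLe (fun Q _ => Nat.card Q = 2 ^ i ∧
        (Nat.card (Q ⧸ sq Q) : ℝ) < 2 ^ ((2 / 3 - η) * (i : ℝ)))
      ((2 : ℝ) ^ ((2 / 27 - δ) * (i : ℝ) ^ 3))) :
    NumLe (fun G _ => Nat.card G = 2 ^ (i + j) * b ∧
        ∃ R : Subgroup G, R.Normal ∧ Nat.card R = 2 ^ i)
      (gc (2 ^ i) * 2 ^ ((A : ℝ) * (i + 1) + 2 * (i : ℝ) * (α * i + 1) * (b + r) +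
          (2 / 9 + η) * (i : ℝ) ^ 2 * r) +
        2 * (2 : ℝ) ^ ((2 / 27 - δ) * (i : ℝ) ^ 3) *
          2 ^ ((A : ℝ) * (i + 1) + (i : ℝ) ^ 2 * (b + r))) := by
  have hi0 : (0 : ℝ) ≤ i := Nat.cast_nonneg i
  -- good
  have hgood : NumLe (fun G _ => Nat.card G = 2 ^ (i + j) * b ∧
      ∃ R : Subgroup G, R.Normal ∧ Nat.card R = 2 ^ i ∧
        (∀ φ : MulAut R, (disp φ : ℝ) < 2 ^ (α * i)) ∧
        (2 : ℝ) ^ ((2 / 3 - η) * (i : ℝ)) ≤ Nat.card (R ⧸ sq R))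
      (gc (2 ^ i) * 2 ^ ((A : ℝ) * (i + 1) + 2 * (i : ℝ) * (α * i + 1) * (b + r) +
          (2 / 9 + η) * (i : ℝ) ^ 2 * r)) := by
    refine NumLe.fib (Q := fun K _ => Nat.card K = 2 ^ i ∧
        (∀ φ : MulAut K, (disp φ : ℝ) < 2 ^ (α * i)) ∧
        (2 : ℝ) ^ ((2 / 3 - η) * (i : ℝ)) ≤ Nat.card (K ⧸ sq K))
      (R := fun K _ G _ => BddRelG b i j K G) ?_ (by positivity) ?_ ?_ ?_
    · exact (numLe_gc (by positivity)).mono le_rfl (fun G _ h => h.1)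
    · rintro K _ ⟨hK, h1, h2⟩
      have : Finite K := Nat.finite_of_card_ne_zero (by rw [hK]; positivity)
      obtain ⟨h3, h4⟩ := bdd_good K hK hα hη hη1 h1 h2
      refine (hr ▸ hA i j b hb hb3 hj K hK).mono ?_ (fun G _ h => h)
      have e1 : (2 : ℝ) ^ (A * (i + 1)) = 2 ^ ((A : ℝ) * (i + 1)) := by
        rw [← Real.rpow_natCast]; push_cast; rfl
      have e2 : (Nat.card (AV K) : ℝ) ^ b ≤ 2 ^ (2 * (i : ℝ) * (α * i + 1) * b) := by
        rw [Real.rpow_mul (by norm_num), Real.rpow_natCast]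
        exact pow_le_pow_left₀ (by positivity) h3 b
      have e3 : (Nat.card (MulAut K) : ℝ) ^ r ≤
          2 ^ ((2 * (i : ℝ) * (α * i + 1) + (2 / 9 + η) * (i : ℝ) ^ 2) * r) := by
        rw [Real.rpow_mul (by norm_num), Real.rpow_natCast]
        exact pow_le_pow_left₀ (by positivity) h4 r
      rw [e1]
      calc (2 : ℝ) ^ ((A : ℝ) * (i + 1)) * (Nat.card (AV K) : ℝ) ^ b * (Nat.card (MulAut K) : ℝ) ^ r
          ≤ (2 : ℝ) ^ ((A : ℝ) * (i + 1)) * 2 ^ (2 * (i : ℝ) * (α * i + 1) * b) *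
            2 ^ ((2 * (i : ℝ) * (α * i + 1) + (2 / 9 + η) * (i : ℝ) ^ 2) * r) := by
            gcongr
        _ = _ := by
            rw [← Real.rpow_add (by norm_num), ← Real.rpow_add (by norm_num)]
            congr 1
            ring
    · rintro G _ ⟨h1, R, h3, h4, h5, h6⟩
      exact ⟨R, inferInstance, ⟨h4, h5, h6⟩, h1, R.subtype, R.subtype_injective,
        by rw [Subgroup.range_subtype]; exact h3⟩
    · intro K K' _ _ G _ e h
      exact bddRelG_iso e h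
  have hbadK : ∀ (K : Type) [Group K], Nat.card K = 2 ^ i →
      NumLe (fun G _ => BddRelG b i j K G) (2 ^ ((A : ℝ) * (i + 1) + (i : ℝ) ^ 2 * (b + r))) := by
    intro K _ hK
    have : Finite K := Nat.finite_of_card_ne_zero (by rw [hK]; positivity)
    refine (hr ▸ hA i j b hb hb3 hj K hK).mono ?_ (fun G _ h => h)
    have e0 : (Nat.card (MulAut K) : ℝ) ≤ 2 ^ ((i : ℝ) ^ 2) := by
      have h1 : (Nat.card (MulAut K) : ℝ) ≤ ((2 ^ (i ^ 2) : ℕ) : ℝ) := by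
        exact_mod_cast card_mulAut_le_two_pow hK.le
      refine h1.trans (le_of_eq ?_)
      push_cast
      rw [← Real.rpow_natCast]
      push_cast
      rfl
    have e0' : (Nat.card (AV K) : ℝ) ≤ 2 ^ ((i : ℝ) ^ 2) := by
      refine le_trans ?_ e0
      exact_mod_cast Nat.card_le_card_of_surjective (toV K).rangeRestrict
        (toV K).rangeRestrict_surjective
    have e1 : (2 : ℝ) ^ (A * (i + 1)) = 2 ^ ((A : ℝ) * (i + 1)) := by
      rw [← Real.rpow_natCast]; push_cast; rfl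
    have e2 : (Nat.card (AV K) : ℝ) ^ b ≤ 2 ^ ((i : ℝ) ^ 2 * b) := by
      rw [Real.rpow_mul (by norm_num), Real.rpow_natCast]
      exact pow_le_pow_left₀ (by positivity) e0' b
    have e3 : (Nat.card (MulAut K) : ℝ) ^ r ≤ 2 ^ ((i : ℝ) ^ 2 * r) := by
      rw [Real.rpow_mul (by norm_num), Real.rpow_natCast]
      exact pow_le_pow_left₀ (by positivity) e0 r
    rw [e1]
    calc (2 : ℝ) ^ ((A : ℝ) * (i + 1)) * (Nat.card (AV K) : ℝ) ^ b * (Nat.card (MulAut K) : ℝ) ^ r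
        ≤ (2 : ℝ) ^ ((A : ℝ) * (i + 1)) * 2 ^ ((i : ℝ) ^ 2 * b) * 2 ^ ((i : ℝ) ^ 2 * r) := by
          gcongr
      _ = _ := by
          rw [← Real.rpow_add (by norm_num), ← Real.rpow_add (by norm_num)]
          congr 1
          ring
  have hbad1 : NumLe (fun G _ => Nat.card G = 2 ^ (i + j) * b ∧
      ∃ R : Subgroup G, R.Normal ∧ Nat.card R = 2 ^ i ∧
        ∃ φ : MulAut R, (2 : ℝ) ^ (α * i) ≤ disp φ)
      ((2 : ℝ) ^ ((2 / 27 - δ) * (i : ℝ) ^ 3) *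
          2 ^ ((A : ℝ) * (i + 1) + (i : ℝ) ^ 2 * (b + r))) := by
    refine NumLe.fib (R := fun K _ G _ => BddRelG b i j K G) hd1 (by positivity) ?_ ?_ ?_
    · rintro K _ ⟨hK, -⟩
      exact hbadK K hK
    · rintro G _ ⟨h1, R, h3, h4, h5⟩
      exact ⟨R, inferInstance, ⟨h4, h5⟩, h1, R.subtype, R.subtype_injective,
        by rw [Subgroup.range_subtype]; exact h3⟩
    · intro K K' _ _ G _ e h
      exact bddRelG_iso e h
  have hbad2 : NumLe (fun G _ => Nat.card G = 2 ^ (i + j) * b ∧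
      ∃ R : Subgroup G, R.Normal ∧ Nat.card R = 2 ^ i ∧
        (Nat.card (R ⧸ sq R) : ℝ) < 2 ^ ((2 / 3 - η) * (i : ℝ)))
      ((2 : ℝ) ^ ((2 / 27 - δ) * (i : ℝ) ^ 3) *
          2 ^ ((A : ℝ) * (i + 1) + (i : ℝ) ^ 2 * (b + r))) := by
    refine NumLe.fib (R := fun K _ G _ => BddRelG b i j K G) hd2 (by positivity) ?_ ?_ ?_
    · rintro K _ ⟨hK, -⟩
      exact hbadK K hK
    · rintro G _ ⟨h1, R, h3, h4, h5⟩
      exact ⟨R, inferInstance, ⟨h4, h5⟩, h1, R.subtype, R.subtype_injective,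
        by rw [Subgroup.range_subtype]; exact h3⟩
    · intro K K' _ _ G _ e h
      exact bddRelG_iso e h
  refine (hgood.or (hbad1.or hbad2)).mono (le_of_eq (by ring)) ?_
  rintro G _ ⟨h1, R, h3, h4⟩
  by_cases hc1 : ∀ φ : MulAut R, (disp φ : ℝ) < 2 ^ (α * i)
  · by_cases hc2 : (2 : ℝ) ^ ((2 / 3 - η) * (i : ℝ)) ≤ Nat.card (R ⧸ sq R)
    · exact Or.inl ⟨h1, R, h3, h4, hc1, hc2⟩
    · exact Or.inr (Or.inr ⟨h1, R, h3, h4, not_le.1 hc2⟩)
  · push Not at hc1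
    exact Or.inr (Or.inl ⟨h1, R, h3, h4, hc1⟩)

theorem bddG (D : ℕ) : ∃ k0 : ℕ, ∀ k : ℕ, k0 ≤ k → ∀ a b : ℕ, Odd b → 3 ≤ b → b ≤ D → k ≤ 2 * a →
    2 ^ a * b < 2 ^ (k + 1) →
    (gc (2 ^ a * b) : ℝ) ≤ 2 ^ (-((k : ℝ) ^ 2 / 20)) * gc (2 ^ k) := by
  set E : ℕ := D.factorial with hE
  have hE1 : 1 ≤ E := Nat.factorial_pos D
  obtain ⟨A, hA⟩ := bddG_core E
  have hER : (1 : ℝ) ≤ E := by exact_mod_cast hE1
  set α : ℝ := 1 / (4000 * E) with hαd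
  set η : ℝ := 1 / (3000 * E) with hηd
  have hα : 0 < α := by positivity
  have hη : 0 < η := by positivity
  have hαE : α * E = 1 / 4000 := by rw [hαd]; field_simp
  have hηE : η * E = 1 / 3000 := by rw [hηd]; field_simp
  have hη1 : η ≤ 1 / 3000 := by nlinarith
  obtain ⟨δ1, hδ1, k1, hk1⟩ := disp_exc α hα
  obtain ⟨δ2, hδ2, k2, hk2⟩ := d_exc η hη
  obtain ⟨k3, hk3⟩ := ratio_iter η hη (by linarith)
  set δ : ℝ := min (min δ1 δ2) (1 / 27) with hδd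
  have hδ : 0 < δ := lt_min (lt_min hδ1 hδ2) (by norm_num)
  have hδ1' : δ ≤ δ1 := (min_le_left _ _).trans (min_le_left _ _)
  have hδ2' : δ ≤ δ2 := (min_le_left _ _).trans (min_le_right _ _)
  have hδ3 : δ ≤ 1 / 27 := min_le_right _ _
  set L : ℝ := 2 * A + 6 * E + 10 with hL
  refine ⟨2 * (k1 + k2 + k3 + E) + 1 + ⌈200 * L⌉₊ + ⌈L / δ⌉₊, ?_⟩
  intro k hk a b hb hb3 hbD hka hab
  have hkL1 : 200 * L ≤ k := by
    have h1 : 200 * L ≤ ⌈200 * L⌉₊ := Nat.le_ceil _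
    have h2 : ⌈200 * L⌉₊ ≤ k := by omega
    have h3 : ((⌈200 * L⌉₊ : ℕ) : ℝ) ≤ k := by exact_mod_cast h2
    linarith
  have hkL2 : L ≤ δ * k := by
    have h1 : L / δ ≤ ⌈L / δ⌉₊ := Nat.le_ceil _
    have h2 : ⌈L / δ⌉₊ ≤ k := by omega
    have h3 : ((⌈L / δ⌉₊ : ℕ) : ℝ) ≤ k := by exact_mod_cast h2
    have h4 : L / δ ≤ k := h1.trans h3
    rw [div_le_iff₀ hδ] at h4
    linarith
  have hA0 : (0 : ℝ) ≤ A := Nat.cast_nonneg A
  have hL10 : 10 ≤ L := by rw [hL]; nlinarith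
  have hk1R : (1 : ℝ) ≤ k := by linarith
  have hak : a < k := by
    by_contra h
    push Not at h
    have h1 : 2 ^ k ≤ 2 ^ a := Nat.pow_le_pow_right (by norm_num) h
    have h2 : 2 ^ a * 3 ≤ 2 ^ a * b := Nat.mul_le_mul_left _ hb3
    have h3 : 2 ^ (k + 1) = 2 * 2 ^ k := by ring
    omega
  set g : ℝ := (gc (2 ^ k) : ℝ) with hg
  have hg0 : 0 ≤ g := Nat.cast_nonneg _
  set Bd : ℝ := g * 2 ^ (-((k : ℝ) ^ 2 / 20)) * 2 ^ (-((E : ℝ) + 1)) with hBd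
  have hBd0 : 0 ≤ Bd := by positivity
  have hj : ∀ j : Fin (E + 1), NumLe (fun G _ => Nat.card G = 2 ^ a * b ∧
      (j : ℕ) ≤ a ∧ 2 ^ (j : ℕ) * b ≤ E ∧
      ∃ R : Subgroup G, R.Normal ∧ Nat.card R = 2 ^ (a - j)) Bd := by
    intro j
    by_cases hc : (j : ℕ) ≤ a ∧ 2 ^ (j : ℕ) * b ≤ E
    swap
    · refine NumLe.of_data (X := Empty) (fun _ => Unit) (by simpa using hBd0) ?_
      rintro G _ ⟨-, h1, h2, -⟩
      exact absurd ⟨h1, h2⟩ hc
    obtain ⟨hja, hjE⟩ := hc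
    set i : ℕ := a - j with hi
    have hij : i + j = a := by omega
    have hjE' : (j : ℕ) ≤ E := by omega
    obtain ⟨r, hr⟩ : ∃ r : ℕ, r = (j : ℕ) + Nat.log 2 b - 1 := ⟨_, rfl⟩
    have hs1 : 1 ≤ Nat.log 2 b := Nat.log_pos (by norm_num) (by omega)
    have hs2 : 2 ^ Nat.log 2 b ≤ b := Nat.pow_log_le_self 2 (by omega)
    have hrE : r ≤ E := by
      have h1 : 2 ^ ((j : ℕ) + Nat.log 2 b) ≤ E := by
        rw [pow_add]
        exact (Nat.mul_le_mul_left _ hs2).trans hjE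
      have h2 : (j : ℕ) + Nat.log 2 b < 2 ^ ((j : ℕ) + Nat.log 2 b) := Nat.lt_two_pow_self
      omega
    have hak2 : a + Nat.log 2 b < k + 1 := by
      have h1 : 2 ^ (a + Nat.log 2 b) < 2 ^ (k + 1) := by
        rw [pow_add]
        exact (Nat.mul_le_mul_left _ hs2).trans_lt hab
      exact (Nat.pow_lt_pow_iff_right (by norm_num)).1 h1
    have hbE : b ≤ E := by
      have : 1 ≤ 2 ^ (j : ℕ) := Nat.one_le_two_pow
      nlinarith
    have hik1 : k1 ≤ i := by omega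
    have hik2 : k2 ≤ i := by omega
    have hik3 : k3 ≤ i := by omega
    have hd1 := (hk1 i hik1).mono (bdd_two_rpow_le (mul_le_mul_of_nonneg_right
      (sub_le_sub_left hδ1' (2 / 27)) (by positivity : (0 : ℝ) ≤ (i : ℝ) ^ 3))) (fun G _ h => h)
    have hd2 := (hk2 i hik2).mono (bdd_two_rpow_le (mul_le_mul_of_nonneg_right
      (sub_le_sub_left hδ2' (2 / 27)) (by positivity : (0 : ℝ) ≤ (i : ℝ) ^ 3))) (fun G _ h => h)
    have hstep := bddG_step hα.le hη.le (by linarith) hA hr hb hb3 hjE hd1 hd2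
    rw [hij] at hstep
    refine hstep.mono ?_ (fun G _ h => ⟨h.1, h.2.2.2⟩)
    -- numbers
    have hiR : (0 : ℝ) ≤ i := Nat.cast_nonneg i
    have hjR : (0 : ℝ) ≤ (r : ℕ) := Nat.cast_nonneg _
    have hbR : (0 : ℝ) ≤ b := Nat.cast_nonneg b
    have hjER : ((r : ℕ) : ℝ) ≤ E := by exact_mod_cast hrE
    have hbER : (b : ℝ) ≤ E := by exact_mod_cast hbE
    have hik : (i : ℝ) ≤ k := by exact_mod_cast (by omega : i ≤ k)
    have hki : 1 + ((r : ℕ) : ℝ) ≤ k - i := by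
      have h1 : i + (1 + r) ≤ k := by omega
      have h2 : (i : ℝ) + (1 + ((r : ℕ) : ℝ)) ≤ k := by exact_mod_cast h1
      linarith
    have hik' : (k : ℝ) / 2 - E ≤ i := by
      have h1 : k ≤ 2 * (i + E) := by omega
      have h2 : (k : ℝ) ≤ 2 * (i + E) := by exact_mod_cast h1
      linarith
    have hi2 : (k : ℝ) ^ 2 / 4 - E * k ≤ (i : ℝ) ^ 2 := by
      by_cases h1 : 0 ≤ (k : ℝ) / 2 - E
      · have h2 : ((k : ℝ) / 2 - E) ^ 2 ≤ (i : ℝ) ^ 2 := pow_le_pow_left₀ h1 hik' 2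
        nlinarith
      · push Not at h1
        nlinarith
    have hkk : L * k ≤ (k : ℝ) ^ 2 / 200 := by nlinarith
    have hgood : (gc (2 ^ i) : ℝ) * 2 ^ ((A : ℝ) * (i + 1) + 2 * (i : ℝ) * (α * i + 1) * (b + (r : ℕ)) +
        (2 / 9 + η) * (i : ℝ) ^ 2 * (r : ℕ)) ≤
        g * 2 ^ (-((k : ℝ) ^ 2 / 20)) * 2 ^ (-((E : ℝ) + 2)) := by
      have h1 := hk3 i k hik3 (by omega)
      have h2 : (gc (2 ^ i) : ℝ) ≤ g * 2 ^ (-((2 / 9 - η) * (i : ℝ) ^ 2 * ((k : ℝ) - i))) := by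
        rw [Real.rpow_neg (by norm_num), ← div_eq_mul_inv, le_div_iff₀ (by positivity), mul_comm]
        exact h1
      calc _ ≤ g * 2 ^ (-((2 / 9 - η) * (i : ℝ) ^ 2 * ((k : ℝ) - i))) *
            2 ^ ((A : ℝ) * (i + 1) + 2 * (i : ℝ) * (α * i + 1) * (b + (r : ℕ)) +
              (2 / 9 + η) * (i : ℝ) ^ 2 * (r : ℕ)) := by gcongr
        _ = g * 2 ^ (-((2 / 9 - η) * (i : ℝ) ^ 2 * ((k : ℝ) - i)) +
            ((A : ℝ) * (i + 1) + 2 * (i : ℝ) * (α * i + 1) * (b + (r : ℕ)) +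
              (2 / 9 + η) * (i : ℝ) ^ 2 * (r : ℕ))) := by
            rw [mul_assoc, ← Real.rpow_add (by norm_num)]
        _ ≤ g * 2 ^ (-((k : ℝ) ^ 2 / 20) + (-((E : ℝ) + 2))) := by
            apply mul_le_mul_of_nonneg_left _ hg0
            apply bdd_two_rpow_le
            have e1 : (2 / 9 - η) * (i : ℝ) ^ 2 * (1 + ((r : ℕ) : ℝ)) ≤
                (2 / 9 - η) * (i : ℝ) ^ 2 * ((k : ℝ) - i) :=
              mul_le_mul_of_nonneg_left hki (mul_nonneg (by linarith) (by positivity))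
            have e2 : α * ((b : ℝ) + (r : ℕ)) ≤ 1 / 2000 := by nlinarith
            have e3 : η * ((r : ℕ) : ℝ) ≤ 1 / 3000 := by nlinarith
            have e4 : (i : ℝ) ^ 2 * (α * ((b : ℝ) + (r : ℕ))) ≤ (i : ℝ) ^ 2 * (1 / 2000) :=
              mul_le_mul_of_nonneg_left e2 (by positivity)
            have e5 : (i : ℝ) ^ 2 * (η * ((r : ℕ) : ℝ)) ≤ (i : ℝ) ^ 2 * (1 / 3000) :=
              mul_le_mul_of_nonneg_left e3 (by positivity)
            have e6 : (i : ℝ) ^ 2 * η ≤ (i : ℝ) ^ 2 * (1 / 3000) :=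
              mul_le_mul_of_nonneg_left hη1 (by positivity)
            have e7 : (i : ℝ) * ((b : ℝ) + (r : ℕ)) ≤ k * (2 * E) :=
              mul_le_mul hik (by linarith) (by positivity) (by positivity)
            have e8 : (A : ℝ) * (i + 1) ≤ A * (2 * k) :=
              mul_le_mul_of_nonneg_left (by linarith) hA0
            have e9 : (E : ℝ) ≤ E * k := by nlinarith
            have e10 : L * k = 2 * A * k + 6 * (E * k) + 10 * k := by rw [hL]; ring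
            nlinarith
        _ = _ := by rw [Real.rpow_add (by norm_num)]; ring
    have hbad : 2 * (2 : ℝ) ^ ((2 / 27 - δ) * (i : ℝ) ^ 3) *
        2 ^ ((A : ℝ) * (i + 1) + (i : ℝ) ^ 2 * (b + (r : ℕ))) ≤
        g * 2 ^ (-((k : ℝ) ^ 2 / 20)) * 2 ^ (-((E : ℝ) + 2)) := by
      have h1 : (2 : ℝ) ^ (2 / 27 * (k : ℝ) ^ 3 - 3 * (k : ℝ) ^ 2) ≤ g := higman k
      calc _ = (2 : ℝ) ^ (1 + (2 / 27 - δ) * (i : ℝ) ^ 3 +
            ((A : ℝ) * (i + 1) + (i : ℝ) ^ 2 * (b + (r : ℕ)))) := by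
            rw [Real.rpow_add (by norm_num) (1 + (2 / 27 - δ) * (i : ℝ) ^ 3),
              Real.rpow_add (by norm_num) 1, Real.rpow_one]
        _ ≤ (2 : ℝ) ^ (2 / 27 * (k : ℝ) ^ 3 - 3 * (k : ℝ) ^ 2 + -((k : ℝ) ^ 2 / 20) +
            -((E : ℝ) + 2)) := by
            apply bdd_two_rpow_le
            have e1 : (i : ℝ) ^ 3 ≤ (k : ℝ) ^ 3 := pow_le_pow_left₀ hiR hik 3
            have e2 : (2 / 27 - δ) * (i : ℝ) ^ 3 ≤ (2 / 27 - δ) * (k : ℝ) ^ 3 :=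
              mul_le_mul_of_nonneg_left e1 (by linarith)
            have e3 : (i : ℝ) ^ 2 ≤ (k : ℝ) ^ 2 := pow_le_pow_left₀ hiR hik 2
            have e4 : (i : ℝ) ^ 2 * (b + (r : ℕ)) ≤ (k : ℝ) ^ 2 * (2 * E) :=
              mul_le_mul e3 (by linarith) (by positivity) (by positivity)
            have e8 : (A : ℝ) * (i + 1) ≤ A * (2 * k) :=
              mul_le_mul_of_nonneg_left (by linarith) hA0
            have e5 : L * (k : ℝ) ^ 2 ≤ δ * (k : ℝ) ^ 3 := by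
              have := mul_le_mul_of_nonneg_right hkL2 (by positivity : (0 : ℝ) ≤ (k : ℝ) ^ 2)
              nlinarith
            have e6 : L * (k : ℝ) ^ 2 = 2 * A * (k : ℝ) ^ 2 + 6 * (E * (k : ℝ) ^ 2) +
              10 * (k : ℝ) ^ 2 := by rw [hL]; ring
            have e7 : (k : ℝ) ≤ (k : ℝ) ^ 2 := by nlinarith
            have e9 : A * (k : ℝ) ≤ A * (k : ℝ) ^ 2 := mul_le_mul_of_nonneg_left e7 hA0
            have e10 : (E : ℝ) ≤ E * (k : ℝ) ^ 2 := by nlinarith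
            nlinarith
        _ = (2 : ℝ) ^ (2 / 27 * (k : ℝ) ^ 3 - 3 * (k : ℝ) ^ 2) * 2 ^ (-((k : ℝ) ^ 2 / 20)) *
            2 ^ (-((E : ℝ) + 2)) := by
            rw [Real.rpow_add (by norm_num), Real.rpow_add (by norm_num)]
        _ ≤ _ := by gcongr
    have hfin : Bd = g * 2 ^ (-((k : ℝ) ^ 2 / 20)) * 2 ^ (-((E : ℝ) + 2)) +
        g * 2 ^ (-((k : ℝ) ^ 2 / 20)) * 2 ^ (-((E : ℝ) + 2)) := by
      have h1 : (2 : ℝ) ^ (-((E : ℝ) + 1)) = 2 ^ (-((E : ℝ) + 2)) * 2 := by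
        have h2 : -((E : ℝ) + 1) = -((E : ℝ) + 2) + 1 := by ring
        rw [h2, Real.rpow_add (by norm_num), Real.rpow_one]
      rw [hBd, h1]
      ring
    rw [hfin]
    exact add_le_add hgood hbad
  apply gc_le
  refine (NumLe.ex hj).mono ?_ ?_
  · rw [hBd, Nat.card_eq_fintype_card, Fintype.card_fin]
    have h1 : ((E + 1 : ℕ) : ℝ) * 2 ^ (-((E : ℝ) + 1)) ≤ 1 := by
      have h2 : ((E + 1 : ℕ) : ℝ) ≤ 2 ^ ((E : ℝ) + 1) := by
        have h3 : E + 1 ≤ 2 ^ (E + 1) := Nat.lt_two_pow_self.le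
        have h4 : ((E + 1 : ℕ) : ℝ) ≤ ((2 ^ (E + 1) : ℕ) : ℝ) := by exact_mod_cast h3
        refine h4.trans (le_of_eq ?_)
        push_cast
        rw [← Real.rpow_natCast]
        push_cast
        rfl
      rw [Real.rpow_neg (by norm_num), ← div_eq_mul_inv, div_le_one (by positivity)]
      exact h2
    have h5 : (0 : ℝ) ≤ 2 ^ (-((k : ℝ) ^ 2 / 20)) * g := by positivity
    calc ((E + 1 : ℕ) : ℝ) * (g * 2 ^ (-((k : ℝ) ^ 2 / 20)) * 2 ^ (-((E : ℝ) + 1)))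
        = (((E + 1 : ℕ) : ℝ) * 2 ^ (-((E : ℝ) + 1))) * (2 ^ (-((k : ℝ) ^ 2 / 20)) * g) := by ring
      _ ≤ 1 * (2 ^ (-((k : ℝ) ^ 2 / 20)) * g) := mul_le_mul_of_nonneg_right h1 h5
      _ = _ := one_mul _
  · intro G _ hG
    obtain ⟨i, j, R, hRn, hR, hij, hjb⟩ := exists_core b hb a G hG
    have hjE : 2 ^ j * b ≤ E := hjb.trans (Nat.factorial_le hbD)
    have hjlt : j < E + 1 := by
      have h1 : j < 2 ^ j := Nat.lt_two_pow_self
      nlinarith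
    refine ⟨⟨j, hjlt⟩, hG, by simp only; omega, hjE, R, hRn, ?_⟩
    rw [hR]
    congr 1
    simp only
    omega

end Pool.Agent.EnumG
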