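import Pool.Agent.Work.MP_9de0a1_al.BddCore

/-!
# XBddCore : groups (solvable or not) of order `2^a b`, `b` odd and bounded, with given `R`

HINTS. Copy of `bc_one`/`bdd_core` with the 2-complement replaced by a subgroup `B` of prime order `q | b`
(Cauchy); `q ≤ b` is part of the data, `|AV R|^q ≤ |AV R|^b`. `G` is generated by `f.range`, `B` and at most
`j + Ω(b) - 1 ≤ j + log₂ b - 1` further elements: `exists_gens_Omega` with `H = f.range ⊔ B`, whose index divides
`2^j (b/q)` (`card_sup`: coprime orders), and `Ω(2^j (b/q)) = j + Ω(b) - 1`, `3^Ω(b) ≤ b`.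
`exists_gens_Omega`: add elements one at a time; the index of the subgroup changes to a proper divisor, so
`Ω` drops.
-/

open Subgroup

namespace Pool.Agent.EnumG

theorem xb_cardFactors_le {m n : ℕ} (h : m ∣ n) (hn : n ≠ 0) :
    ArithmeticFunction.cardFactors m ≤ ArithmeticFunction.cardFactors n := by
  obtain ⟨k, rfl⟩ := h
  rw [ArithmeticFunction.cardFactors_mul (left_ne_zero_of_mul hn) (right_ne_zero_of_mul hn)]
  exact Nat.le_add_right _ _

theorem xb_cardFactors_lt {m n : ℕ} (h : m ∣ n) (hn : n ≠ 0) (hmn : m ≠ n) :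
    ArithmeticFunction.cardFactors m < ArithmeticFunction.cardFactors n := by
  obtain ⟨k, rfl⟩ := h
  rw [ArithmeticFunction.cardFactors_mul (left_ne_zero_of_mul hn) (right_ne_zero_of_mul hn)]
  have hk : 1 < k := by
    rcases Nat.lt_trichotomy k 1 with h | h | h
    · have : k = 0 := by omega
      subst this; simp at hn
    · subst h; simp at hmn
    · exact h
  have := ArithmeticFunction.cardFactors_pos_iff_one_lt.2 hk
  omega

theorem exists_gens_Omega {G : Type} [Group G] [Finite G] (H : Subgroup G) {r : ℕ}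
    (h : ArithmeticFunction.cardFactors H.index ≤ r) :
    ∃ g : Fin r → G, H ⊔ closure (Set.range g) = ⊤ := by
  induction r generalizing H with
  | zero =>
    refine ⟨Fin.elim0, ?_⟩
    have h1 : ArithmeticFunction.cardFactors H.index = 0 := Nat.le_zero.1 h
    have h2 : H.index ≠ 0 := Subgroup.index_ne_zero_of_finite
    have h3 : H.index = 1 := by
      by_contra h4
      have := ArithmeticFunction.cardFactors_pos_iff_one_lt.2 (show 1 < H.index by omega)
      omega
    rw [Subgroup.index_eq_one] at h3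
    simp [h3]
  | succ r ih =>
    by_cases hH : H = ⊤
    · exact ⟨fun _ => 1, by simp [hH]⟩
    · obtain ⟨x, hx⟩ : ∃ x, x ∉ H := by
        by_contra h1
        push Not at h1
        exact hH (eq_top_iff.2 fun x _ => h1 x)
      have h2 : H.index ≠ 0 := Subgroup.index_ne_zero_of_finite
      have hlt : H < H ⊔ zpowers x := by
        refine lt_of_le_of_ne le_sup_left fun h1 => hx ?_
        rw [h1]
        exact mem_sup_right (mem_zpowers x)
      have h3 : (H ⊔ zpowers x).index ∣ H.index := Subgroup.index_dvd_of_le le_sup_left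
      have h4 : (H ⊔ zpowers x).index ≠ H.index := by
        intro h5
        have h6 := (H ⊔ zpowers x).card_mul_index
        have h7 := H.card_mul_index
        rw [h5] at h6
        have h8 : Nat.card (H ⊔ zpowers x : Subgroup G) = Nat.card H :=
          Nat.eq_of_mul_eq_mul_right (Nat.pos_of_ne_zero h2) (h6.trans h7.symm)
        have h9 := Subgroup.eq_of_le_of_card_ge le_sup_left (h8.le)
        exact hlt.ne h9
      have h5 := xb_cardFactors_lt h3 h2 h4
      obtain ⟨g, hg⟩ := ih (H ⊔ zpowers x) (by omega)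
      refine ⟨Fin.cons x g, ?_⟩
      rw [eq_top_iff, ← hg]
      refine sup_le (sup_le le_sup_left ?_) ?_
      · rw [zpowers_le]
        exact mem_sup_right (subset_closure ⟨0, by simp⟩)
      · refine le_trans (Subgroup.closure_mono ?_) le_sup_right
        rintro _ ⟨l, rfl⟩
        exact ⟨l.succ, by simp⟩

theorem xb_cardFactors_log {b : ℕ} (hb : b ≠ 0) :
    ArithmeticFunction.cardFactors b ≤ Nat.log 2 b := by
  apply Nat.le_log_of_pow_le (by norm_num)
  rw [ArithmeticFunction.cardFactors_apply]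
  calc 2 ^ b.primeFactorsList.length ≤ b.primeFactorsList.prod :=
        List.pow_card_le_prod _ _ fun p hp => (Nat.prime_of_mem_primeFactorsList hp).two_le
    _ = b := Nat.prod_primeFactorsList hb

theorem xb_cardFactors_core {b j q : ℕ} (hb : b ≠ 0) (hq : q.Prime) (hqb : q ∣ b) :
    ArithmeticFunction.cardFactors (2 ^ j * (b / q)) ≤ j + Nat.log 2 b - 1 := by
  have h5 : q * (b / q) = b := Nat.mul_div_cancel' hqb
  have h6 : b / q ≠ 0 := by rintro h; rw [h] at h5; omega
  rw [ArithmeticFunction.cardFactors_mul (by positivity) h6,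
    ArithmeticFunction.cardFactors_pow, ArithmeticFunction.cardFactors_apply_prime Nat.prime_two]
  have h7 := xb_cardFactors_log hb
  have h8 : ArithmeticFunction.cardFactors b = 1 + ArithmeticFunction.cardFactors (b / q) := by
    conv_lhs => rw [← h5]
    rw [ArithmeticFunction.cardFactors_mul hq.ne_zero h6,
      ArithmeticFunction.cardFactors_apply_prime hq]
  omega

theorem xb_one (D b j q r : ℕ) (hb : Odd b) (hq : q.Prime) (hqb : q ∣ b)
    (hr : ArithmeticFunction.cardFactors (2 ^ j * (b / q)) ≤ r) (hD : 2 ^ j * b ≤ D) : ∃ A : ℕ, ∀ i : ℕ,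
    ∀ (R : Type) [Group R] [Finite R], Nat.card R = 2 ^ i →
      NumLe (fun G _ => Nat.card G = 2 ^ (i + j) * b ∧
        ∃ f : R →* G, Function.Injective f ∧ f.range.Normal)
        (2 ^ (A * (i + 1)) * (Nat.card (AV R) : ℝ) ^ q * (Nat.card (MulAut R) : ℝ) ^ r) := by
  obtain ⟨hfin, A0, hA0⟩ := finite_index_gens (Fin q ⊕ Fin r) D
  set SS : Set (Subgroup (FreeGroup (Fin q ⊕ Fin r))) :=
    {S | S.Normal ∧ S.index ≠ 0 ∧ S.index ≤ D} with hSS
  have : Finite SS := hfin
  have hY : ∀ S : SS, ∃ Y : Fin A0 → FreeGroup (Fin q ⊕ Fin r),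
      (S : Subgroup _) = normalClosure (Set.range Y) := fun S =>
    hA0 S.1 S.2.1 S.2.2.1 S.2.2.2
  choose Y hYS using hY
  set c : ℕ := Nat.card ((Fin q → Fin q → Fin q) × SS) with hc
  refine ⟨A0 + c, fun i R _ _ hR => ?_⟩
  have hRp : IsPGroup 2 R := IsPGroup.of_card hR
  let X : Type := ((Fin q → Fin q → Fin q) × SS) × (Fin q → AV R) × (Fin r → MulAut R) ×
    (Fin A0 → R)
  refine NumLe.of_data (X := X)
    (fun x => ExtG R (Sum.elim (bcLift x.1.1 x.2.1) x.2.2.1) (Y x.1.2) x.2.2.2) ?_ ?_
  · have h1 : Nat.card X = c * (Nat.card (AV R) ^ q * (Nat.card (MulAut R) ^ r * (2 ^ i) ^ A0)) := by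
      simp only [X, Nat.card_prod, Nat.card_fun, Nat.card_eq_fintype_card, Fintype.card_fin,
        ← hR, hc]
    rw [h1]
    push_cast
    have h2 : (c : ℝ) ≤ 2 ^ c := by exact_mod_cast Nat.lt_two_pow_self.le
    have h3 : (2 : ℝ) ^ ((A0 + c) * (i + 1)) = 2 ^ (A0 + c * i) * (2 ^ c * (2 ^ i) ^ A0) := by
      rw [← pow_mul, ← pow_add, ← pow_add]
      congr 1
      ring
    rw [h3]
    have h4 : (1 : ℝ) ≤ 2 ^ (A0 + c * i) := one_le_pow₀ (by norm_num)
    have h5 : (0 : ℝ) ≤ (Nat.card (AV R) : ℝ) ^ q * (Nat.card (MulAut R) : ℝ) ^ r := by positivity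
    have h6 : (0 : ℝ) ≤ (2 ^ i) ^ A0 := by positivity
    calc (c : ℝ) * ((Nat.card (AV R) : ℝ) ^ q * ((Nat.card (MulAut R) : ℝ) ^ r * (2 ^ i) ^ A0))
        = 1 * (c * (2 ^ i) ^ A0) * ((Nat.card (AV R) : ℝ) ^ q * (Nat.card (MulAut R) : ℝ) ^ r) := by
          ring
      _ ≤ (2 ^ (A0 + c * i) * (2 ^ c * (2 ^ i) ^ A0)) *
          ((Nat.card (AV R) : ℝ) ^ q * (Nat.card (MulAut R) : ℝ) ^ r) := by
          gcongr
      _ = _ := by ring
  · rintro G _ ⟨hG, f, hf, hn⟩
    have hb0 : 0 < b := hb.pos
    have : Finite G := Nat.finite_of_card_ne_zero (by rw [hG]; positivity)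
    have hqo : Odd q := hb.of_dvd_nat hqb
    have hqG : q ∣ Nat.card G := by rw [hG]; exact hqb.mul_left _
    have : Fact q.Prime := ⟨hq⟩
    obtain ⟨z, hz⟩ := exists_prime_orderOf_dvd_card' (G := G) q hqG
    obtain ⟨B, hB⟩ : ∃ B : Subgroup G, Nat.card B = q := ⟨zpowers z, by rw [Nat.card_zpowers, hz]⟩
    -- the enumeration of `B`
    let β : Fin q ≃ B := (Finite.equivFinOfCardEq hB).symm
    let m : Fin q → Fin q → Fin q := fun x y => β.symm (β x * β y)
    let ρ₁ : B →* MulAut R := (bcConj f hf hn).comp B.subtype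
    let T : Fin q → AV R := fun x => ⟨toV R (ρ₁ (β x)), ⟨_, rfl⟩⟩
    have hP : ∃ ρ : Fin q → MulAut R, BcP m T ρ := by
      refine ⟨fun x => ρ₁ (β x), fun x y => ?_, fun x => rfl⟩
      simp only [m, Equiv.apply_symm_apply, map_mul]
    have hL := bcLift_spec m T hP
    let ρ₂ : B →* MulAut R := MonoidHom.mk' (fun y => bcLift m T (β.symm y)) (fun y z => by
      have := hL.1 (β.symm y) (β.symm z)
      simpa [m] using this)
    have hcop := cop_conj (toV R).ker (hA2 := ?_) (B := B) ?_ ρ₁ ρ₂ ?_
    · obtain ⟨a, ha, hab⟩ := hcop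
      -- the corrected embedding
      let e : R →* G := f.comp (a⁻¹ : MulAut R).toMonoidHom
      have he : Function.Injective e := hf.comp (a⁻¹ : MulAut R).injective
      have her : e.range = f.range := by
        ext y
        constructor
        · rintro ⟨n, rfl⟩
          exact ⟨_, rfl⟩
        · rintro ⟨n, rfl⟩
          exact ⟨a n, by simp [e]⟩
      have hen : e.range.Normal := her ▸ hn
      have hact : ∀ (y : B) (n : R), (y : G) * e n * (y : G)⁻¹ = e (ρ₂ y n) := by
        intro y n
        rw [hab y]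
        have := bcConj_spec f hf hn (y : G) ((a⁻¹ : MulAut R) n)
        simp only [e, MonoidHom.comp_apply, MulEquiv.coe_toMonoidHom, MulAut.mul_apply,
          MulAut.inv_apply_self] at this ⊢
        exact this.symm
      -- generators
      have hidx0 : ArithmeticFunction.cardFactors (f.range ⊔ B : Subgroup G).index ≤ r := by
        have h1 : Nat.card f.range = 2 ^ i := by
          rw [← hR]
          exact (Nat.card_congr (MonoidHom.ofInjective hf).toEquiv).symm
        have h2 : (2 ^ i).Coprime q := Nat.Coprime.pow_left _ (Nat.coprime_two_left.2 hqo)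
        have h3 : 2 ^ i * q ∣ Nat.card (f.range ⊔ B : Subgroup G) := by
          apply Nat.Coprime.mul_dvd_of_dvd_of_dvd h2
          · rw [← h1]; exact Subgroup.card_dvd_of_le le_sup_left
          · rw [← hB]; exact Subgroup.card_dvd_of_le le_sup_right
        obtain ⟨k, hk⟩ := h3
        have h4 := (f.range ⊔ B : Subgroup G).card_mul_index
        have h5 : q * (b / q) = b := Nat.mul_div_cancel' hqb
        have h6 : k * (f.range ⊔ B : Subgroup G).index = 2 ^ j * (b / q) := by
          have h7 : (2 ^ i * q) * (k * (f.range ⊔ B : Subgroup G).index)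
              = (2 ^ i * q) * (2 ^ j * (b / q)) := by
            rw [← mul_assoc, ← hk, h4, hG, pow_add]
            calc 2 ^ i * 2 ^ j * b = 2 ^ i * 2 ^ j * (q * (b / q)) := by rw [h5]
              _ = _ := by ring
          exact Nat.eq_of_mul_eq_mul_left (Nat.mul_pos (by positivity) hq.pos) h7
        exact (xb_cardFactors_le (h6 ▸ dvd_mul_left _ _) (by
          have : b / q ≠ 0 := by rintro h; rw [h] at h5; omega
          positivity)).trans hr
      obtain ⟨h, hh⟩ := exists_gens_Omega (f.range ⊔ B) hidx0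
      let g : Fin q ⊕ Fin r → G := Sum.elim (fun x => (β x : G)) h
      have hgen : e.range ⊔ closure (Set.range g) = ⊤ := by
        rw [eq_top_iff, ← hh, her]
        refine sup_le (sup_le le_sup_left ?_) ?_
        · intro y hy
          refine mem_sup_right (subset_closure ⟨Sum.inl (β.symm ⟨y, hy⟩), ?_⟩)
          simp [g]
        · refine (Subgroup.closure_mono ?_).trans le_sup_right
          rintro _ ⟨l, rfl⟩
          exact ⟨Sum.inr l, rfl⟩
      -- the kernel
      have := hen
      let π : FreeGroup (Fin q ⊕ Fin r) →* G ⧸ e.range :=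
        (QuotientGroup.mk' e.range).comp (FreeGroup.lift g)
      have hπ : Function.Surjective π := by
        have hle : e.range ⊔ closure (Set.range g) ≤
            π.range.comap (QuotientGroup.mk' e.range) := by
          refine sup_le ?_ ?_
          · intro y hy
            have h1 : (QuotientGroup.mk' e.range) y = 1 := by simpa using hy
            rw [Subgroup.mem_comap, h1]
            exact one_mem _
          · rw [closure_le]
            rintro _ ⟨l, rfl⟩
            exact ⟨FreeGroup.of l, by simp [π]⟩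
        intro x
        induction x using QuotientGroup.induction_on with
        | H x =>
          have hx : x ∈ e.range ⊔ closure (Set.range g) := by rw [hgen]; trivial
          exact hle hx
      have hidx : π.ker.index = 2 ^ j * b := by
        rw [Subgroup.index_ker, MonoidHom.range_eq_top.2 hπ, Subgroup.card_top,
          ← Subgroup.index_eq_card]
        have h1 : Nat.card e.range = 2 ^ i := by
          rw [← hR]
          exact (Nat.card_congr (MonoidHom.ofInjective he).toEquiv).symm
        have h2 := e.range.card_mul_index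
        rw [h1, hG, pow_add, mul_assoc] at h2
        exact Nat.eq_of_mul_eq_mul_left (by positivity) h2
      have hmem : π.ker ∈ SS := ⟨inferInstance, by rw [hidx]; positivity, by rw [hidx]; exact hD⟩
      have hrel : ∀ w, FreeGroup.lift g w ∈ e.range ↔ w ∈ π.ker := by
        intro w
        rw [MonoidHom.mem_ker]
        simp [π]
      have hν : ∀ l, ∃ n : R, e n = FreeGroup.lift g (Y ⟨_, hmem⟩ l) := by
        intro l
        have h1 : π.ker = normalClosure (Set.range (Y ⟨_, hmem⟩)) := hYS ⟨_, hmem⟩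
        have h2 : Y ⟨_, hmem⟩ l ∈ normalClosure (Set.range (Y ⟨_, hmem⟩)) :=
          subset_normalClosure ⟨l, rfl⟩
        exact (hrel _).2 ((SetLike.ext_iff.1 h1 _).2 h2)
      choose ν hν using hν
      refine ⟨((m, ⟨_, hmem⟩), T, fun l => bcConj e he hen (h l), ν), ?_⟩
      refine ecl e he hen g _ _ _ ?_ ?_ hgen ?_
      · rintro (x | l) n
        · have := hact (β x) n
          simpa [g, ρ₂] using this
        · simp only [g, Sum.elim_inr]
          rw [bcConj_spec]
      · intro l
        exact (hν l).symm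
      · intro w hw
        have h1 : π.ker = normalClosure (Set.range (Y ⟨_, hmem⟩)) := hYS ⟨_, hmem⟩
        exact (SetLike.ext_iff.1 h1 _).1 ((hrel w).1 hw)
    · exact ker_toV hRp
    · rw [hB]; exact hqo
    · intro y
      rw [QuotientGroup.eq, MonoidHom.mem_ker, map_mul, map_inv, inv_mul_eq_one]
      have := hL.2 (β.symm y)
      simp only [T, Equiv.apply_symm_apply] at this
      exact this.symm

theorem bddG_core (D : ℕ) : ∃ A : ℕ, ∀ (i j b : ℕ), Odd b → 3 ≤ b → 2 ^ j * b ≤ D →
    ∀ (R : Type) [Group R] [Finite R], Nat.card R = 2 ^ i →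
      NumLe (fun G _ => Nat.card G = 2 ^ (i + j) * b ∧
        ∃ f : R →* G, Function.Injective f ∧ f.range.Normal)
        (2 ^ (A * (i + 1)) * (Nat.card (AV R) : ℝ) ^ b *
          (Nat.card (MulAut R) : ℝ) ^ (j + Nat.log 2 b - 1)) := by
  have key : ∀ b j : ℕ, ∃ A : ℕ, Odd b → 3 ≤ b → 2 ^ j * b ≤ D → ∀ i : ℕ,
    ∀ (R : Type) [Group R] [Finite R], Nat.card R = 2 ^ i →
      NumLe (fun G _ => Nat.card G = 2 ^ (i + j) * b ∧
        ∃ f : R →* G, Function.Injective f ∧ f.range.Normal)
        (2 ^ (A * (i + 1)) * (Nat.card (AV R) : ℝ) ^ b *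
          (Nat.card (MulAut R) : ℝ) ^ (j + Nat.log 2 b - 1)) := by
    intro b j
    by_cases h : Odd b ∧ 3 ≤ b ∧ 2 ^ j * b ≤ D
    · have hq : b.minFac.Prime := Nat.minFac_prime (by omega)
      obtain ⟨A, hA⟩ := xb_one D b j b.minFac (j + Nat.log 2 b - 1) h.1 hq (Nat.minFac_dvd b)
        (xb_cardFactors_core (by omega) hq (Nat.minFac_dvd b)) h.2.2
      refine ⟨A, fun _ _ _ i R _ _ hR => (hA i R hR).mono ?_ (fun G _ h => h)⟩
      have h1 : (1 : ℝ) ≤ Nat.card (AV R) := by
        exact_mod_cast Nat.one_le_iff_ne_zero.2 Nat.card_pos.ne'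
      have h2 : (Nat.card (AV R) : ℝ) ^ b.minFac ≤ (Nat.card (AV R) : ℝ) ^ b :=
        pow_le_pow_right₀ h1 (Nat.minFac_le (by omega))
      gcongr
    · exact ⟨0, fun h1 h2 h3 => absurd ⟨h1, h2, h3⟩ h⟩
  choose A hA using key
  refine ⟨∑ b ∈ Finset.range (D + 1), ∑ j ∈ Finset.range (D + 1), A b j, ?_⟩
  intro i j b hb hb3 hD R _ _ hR
  have hbD : b < D + 1 := by
    have : 1 ≤ 2 ^ j := Nat.one_le_two_pow
    nlinarith
  have hjD : j < D + 1 := by
    have h1 : j < 2 ^ j := Nat.lt_two_pow_self
    have h2 := hb.pos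
    nlinarith
  have hle : A b j ≤ ∑ b ∈ Finset.range (D + 1), ∑ j ∈ Finset.range (D + 1), A b j :=
    (Finset.single_le_sum (f := fun j => A b j) (fun _ _ => Nat.zero_le _)
      (Finset.mem_range.2 hjD)).trans
      (Finset.single_le_sum (f := fun b => ∑ j ∈ Finset.range (D + 1), A b j)
        (fun _ _ => Nat.zero_le _) (Finset.mem_range.2 hbD))
  refine (hA b j hb hb3 hD i R hR).mono ?_ (fun G _ h => h)
  have : (2 : ℝ) ^ (A b j * (i + 1)) ≤
      2 ^ ((∑ b ∈ Finset.range (D + 1), ∑ j ∈ Finset.range (D + 1), A b j) * (i + 1)) :=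
    pow_le_pow_right₀ (by norm_num) (Nat.mul_le_mul_right _ hle)
  gcongr

end Pool.Agent.EnumG
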