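import Pool.Agent.Work.MP_9de0a1_al.X.XDefs

/-!
# XClass : closure properties of the class `CF S`, the counting function `xc`
-/

open Subgroup

namespace Pool.Agent.EnumG

variable {S P : ∀ (T : Type) [Group T], Prop}

theorem Comm.of_equiv {G G' : Type} [Group G] [Group G'] (e : G ≃* G') (h : Comm G) : Comm G' := by
  intro a b
  obtain ⟨a, rfl⟩ := e.surjective a
  obtain ⟨b, rfl⟩ := e.surjective b
  rw [← map_mul, ← map_mul, h a b]

theorem CF.surj {G G' : Type} [Group G] [Group G'] (f : G →* G') (hf : Function.Surjective f)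
    (hS : ∀ (T T' : Type) [Group T] [Group T'], Nonempty (T ≃* T') → S T → S T')
    (h : CF S G) : CF S G' := by
  intro K' hK' H' hH' hs
  let g : K'.comap f →* K' ⧸ H' := (QuotientGroup.mk' H').comp (f.subgroupComap K')
  have hg : Function.Surjective g :=
    (QuotientGroup.mk'_surjective H').comp (f.subgroupComap_surjective_of_surjective K' hf)
  let e : (K'.comap f) ⧸ g.ker ≃* K' ⧸ H' := QuotientGroup.quotientKerEquivOfSurjective g hg
  have hs' : IsSimpleGroup ((K'.comap f) ⧸ g.ker) := e.isSimpleGroup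
  rcases h (K'.comap f) (hK'.comap f) g.ker hs' with h1 | h1
  · exact Or.inl (h1.of_equiv e)
  · exact Or.inr (hS _ _ ⟨e⟩ h1)

theorem CF.iso' {G G' : Type} [Group G] [Group G'] (e : G ≃* G')
    (hS : ∀ (T T' : Type) [Group T] [Group T'], Nonempty (T ≃* T') → S T → S T')
    (h : CF S G) : CF S G' := CF.surj e.toMonoidHom e.surjective hS h

theorem CF.quot {G : Type} [Group G] (V : Subgroup G) [V.Normal]
    (hS : ∀ (T T' : Type) [Group T] [Group T'], Nonempty (T ≃* T') → S T → S T')
    (h : CF S G) : CF S (G ⧸ V) :=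
  CF.surj (QuotientGroup.mk' V) (QuotientGroup.mk'_surjective V) hS h

theorem CF.subnormal_simple {G : Type} [Group G] (h : CF S G)
    (hS : ∀ (T T' : Type) [Group T] [Group T'], Nonempty (T ≃* T') → S T → S T')
    (T : Subgroup G) (hT : T.IsSubnormal) (hs : IsSimpleGroup T) (hc : ¬ Comm T) : S T := by
  let e : T ⧸ (⊥ : Subgroup T) ≃* T := QuotientGroup.quotientBot
  have hs' : IsSimpleGroup (T ⧸ (⊥ : Subgroup T)) := e.isSimpleGroup
  rcases h T hT ⊥ hs' with h1 | h1
  · exact absurd (h1.of_equiv e) hc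
  · exact hS _ _ ⟨e⟩ h1

/-- simple solvable groups are commutative -/
theorem comm_of_solvable {T : Type} [Group T] (hs : IsSimpleGroup T) (h : Group.IsSolvable T) :
    Comm T := IsSimpleGroup.comm_iff_isSolvable.2 h

/-- solvable groups are exactly the groups with all composition factors abelian -/
theorem CF.of_solvable {G : Type} [Group G] [Group.IsSolvable G] : CF S G := by
  intro K _ H hH hs
  exact Or.inl (comm_of_solvable hs inferInstance)

theorem CF.two_pow {G : Type} [Group G] {k : ℕ} (h : Nat.card G = 2 ^ k) : CF S G := by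
  have : Fact (Nat.Prime 2) := ⟨Nat.prime_two⟩
  have hf : Finite G := Nat.finite_of_card_ne_zero (by rw [h]; positivity)
  have h1 : IsPGroup 2 G := IsPGroup.of_card (n := k) h
  have := h1.isNilpotent
  have : Group.IsSolvable G := inferInstance
  exact CF.of_solvable

theorem xc_le {m : ℕ} {B : ℝ} (h : NumLe (fun G _ => Nat.card G = m ∧ P G) B) :
    (xc P m : ℝ) ≤ B := by
  obtain ⟨X, i1, Γ, i2, h1, h2⟩ := h
  set Q := Quot fun G1 G2 : {G : Group (Fin m) // @P (Fin m) G} => GIso G1.1 G2.1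
  have h3 : ∀ q : Q, ∃ x, Nonempty (@MulEquiv (Fin m) (Γ x)
      (@Semigroup.toMul _ (@Monoid.toSemigroup _ (@DivInvMonoid.toMonoid _
        (@Group.toDivInvMonoid _ q.out.1)))) _) := fun q =>
    @h2 (Fin m) q.out.1 ⟨Nat.card_fin m, q.out.2⟩
  choose x hx using h3
  have h4 : Function.Injective x := by
    intro q q' hq
    have e := hx q
    have e' := hx q'
    rw [hq] at e
    have h5 : GIso q.out.1 q'.out.1 := cnt_trans e (cnt_symm e')
    rw [← Quot.out_eq q, ← Quot.out_eq q']
    exact Quot.sound h5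
  exact (by exact_mod_cast Nat.card_le_card_of_injective x h4 : (xc P m : ℝ) ≤ Nat.card X).trans h1

theorem numLe_xc {m : ℕ} (hm : m ≠ 0)
    (hP : ∀ (T T' : Type) [Group T] [Group T'], Nonempty (T ≃* T') → P T → P T') :
    NumLe (fun G _ => Nat.card G = m ∧ P G) (xc P m) := by
  refine ⟨Quot fun G1 G2 : {G : Group (Fin m) // @P (Fin m) G} => GIso G1.1 G2.1,
    inferInstance, fun _ => Fin m, fun q => q.out.1, le_rfl, ?_⟩
  intro G _ hG
  obtain ⟨H, e⟩ := cnt_exists_fin hm G hG.1
  have hH : @P (Fin m) H := @hP G (Fin m) _ H e hG.2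
  let q : Quot fun G1 G2 : {G : Group (Fin m) // @P (Fin m) G} => GIso G1.1 G2.1 :=
    Quot.mk _ ⟨H, hH⟩
  refine ⟨q, ?_⟩
  have h1 : GIso q.out.1 H := by
    have h2 : Quot.mk (fun G1 G2 : {G : Group (Fin m) // @P (Fin m) G} => GIso G1.1 G2.1) q.out =
        Quot.mk _ ⟨H, hH⟩ := Quot.out_eq q
    rw [Quot.eq, Equivalence.eqvGen_iff] at h2
    · exact h2
    · exact ⟨fun G => (GIso.equivalence m).refl G.1, fun h => (GIso.equivalence m).symm h,
        fun h h' => (GIso.equivalence m).trans h h'⟩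
  exact cnt_trans e (cnt_symm h1)

theorem xc_le_gc (m : ℕ) : xc P m ≤ gc m := by
  let F : (Quot fun G1 G2 : {G : Group (Fin m) // @P (Fin m) G} => GIso G1.1 G2.1) → Cls m :=
    fun q => Quot.mk _ q.out.1
  refine Nat.card_le_card_of_injective F ?_
  intro q q' h
  have h1 : GIso q.out.1 q'.out.1 := cnt_cls_sound.1 h
  rw [← Quot.out_eq q, ← Quot.out_eq q']
  exact Quot.sound h1

theorem xc_two_pow (k : ℕ) : xc (CF S) (2 ^ k) = gc (2 ^ k) := by
  have hs : ∀ G : Group (Fin (2 ^ k)), @CF S (Fin (2 ^ k)) G := by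
    intro G
    exact @CF.two_pow S (Fin (2 ^ k)) G k (Nat.card_fin _)
  unfold xc gc
  apply Nat.card_congr
  exact Quot.congr (Equiv.subtypeUnivEquiv hs) fun _ _ => Iff.rfl

/-- the class of all groups of order at most `B` is admissible -/
theorem adm_bounded (B : ℕ) : ∃ C : ℕ, Adm (fun T _ => Nat.card T ≤ B ∧ Finite T) C := by
  refine ⟨(∑ N ∈ Finset.range (B + 1), gc N) + B, ⟨?_, ?_, ?_⟩⟩
  · rintro T T' _ _ ⟨e⟩ ⟨h1, h2⟩
    exact ⟨by rw [← Nat.card_congr e.toEquiv]; exact h1, Finite.of_equiv T e.toEquiv⟩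
  · intro N
    by_cases hN : 2 ≤ N ∧ N ≤ B
    · have h1 : gc N ≤ ∑ N ∈ Finset.range (B + 1), gc N :=
        Finset.single_le_sum (f := fun N => gc N) (fun _ _ => Nat.zero_le _)
          (Finset.mem_range.2 (by omega))
      have h2 : 1 ≤ Nat.log 2 N := Nat.log_pos (by norm_num) hN.1
      calc _ ≤ gc N := xc_le_gc N
        _ ≤ (∑ N ∈ Finset.range (B + 1), gc N) + B := h1.trans (Nat.le_add_right _ _)
        _ ≤ 2 ^ ((∑ N ∈ Finset.range (B + 1), gc N) + B) := Nat.lt_two_pow_self.le
        _ ≤ N ^ ((∑ N ∈ Finset.range (B + 1), gc N) + B) := Nat.pow_le_pow_left hN.1 _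
        _ ≤ N ^ (((∑ N ∈ Finset.range (B + 1), gc N) + B) * Nat.log 2 N) :=
          Nat.pow_le_pow_right (by omega) (Nat.le_mul_of_pos_right _ h2)
    · have h0 : xc (fun T _ => IsSimpleGroup T ∧ ¬ Comm T ∧ Nat.card T ≤ B ∧ Finite T) N = 0 := by
        have : IsEmpty {G : Group (Fin N) // IsSimpleGroup (Fin N) ∧ ¬ Comm (Fin N) ∧
            Nat.card (Fin N) ≤ B ∧ Finite (Fin N)} := by
          constructor
          rintro ⟨G, h1, h2, h3, -⟩
          rw [Nat.card_fin] at h3
          apply hN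
          refine ⟨?_, h3⟩
          have h4 : Nontrivial (Fin N) := h1.toNontrivial
          have h5 := Finite.one_lt_card (α := Fin N)
          rw [Nat.card_fin] at h5
          omega
        unfold xc
        rw [Nat.card_eq_zero]
        left
        constructor
        intro q
        exact this.elim q.out
      rw [h0]
      exact Nat.zero_le _
  · rintro T _ hf hs hc ⟨h1, -⟩
    have : Nontrivial T := hs.toNontrivial
    have h2 : 2 ≤ Nat.card T := Finite.one_lt_card
    calc Nat.card (MulAut T) ≤ Nat.card (Equiv.Perm T) :=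
          Nat.card_le_card_of_injective (fun e : MulAut T => e.toEquiv)
            fun a b h => MulEquiv.toEquiv_injective h
      _ = (Nat.card T).factorial := Nat.card_perm
      _ ≤ Nat.card T ^ Nat.card T := Nat.factorial_le_pow _
      _ ≤ Nat.card T ^ ((∑ N ∈ Finset.range (B + 1), gc N) + B) :=
          Nat.pow_le_pow_right (by omega) (h1.trans (Nat.le_add_left _ _))

end Pool.Agent.EnumG
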