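import Pool.Agent.Work.MP_9de0a1_al.Cnt

/-!
# XDefs : groups with restricted composition factors (no sorry)
-/

open Subgroup

namespace Pool.Agent.EnumG

/-- `G` is commutative -/
def Comm (G : Type) [Group G] : Prop := ∀ a b : G, a * b = b * a

/-- every composition factor of `G` is abelian or has the property `S` -/
def CF (S : ∀ (T : Type) [Group T], Prop) (G : Type) [Group G] : Prop :=
  ∀ K : Subgroup G, K.IsSubnormal → ∀ (H : Subgroup K) [H.Normal], IsSimpleGroup (K ⧸ H) →
    Comm (K ⧸ H) ∨ S (K ⧸ H)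

/-- number of groups of order `m` with property `P`, up to isomorphism -/
noncomputable def xc (P : ∀ (T : Type) [Group T], Prop) (m : ℕ) : ℕ :=
  Nat.card (Quot fun G1 G2 : {G : Group (Fin m) // @P (Fin m) G} => GIso G1.1 G2.1)

/-- the hypotheses on the class `S` of simple groups -/
structure Adm (S : ∀ (T : Type) [Group T], Prop) (C : ℕ) : Prop where
  iso : ∀ (T T' : Type) [Group T] [Group T'], Nonempty (T ≃* T') → S T → S T'
  count : ∀ N : ℕ, xc (fun T _ => IsSimpleGroup T ∧ ¬ Comm T ∧ S T) N ≤ N ^ (C * Nat.log 2 N)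
  aut : ∀ (T : Type) [Group T], Finite T → IsSimpleGroup T → ¬ Comm T → S T →
    Nat.card (MulAut T) ≤ Nat.card T ^ C

end Pool.Agent.EnumG
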