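import Pool.Agent.Work.MP_9de0a1_al.X.XDefs

/-!
# XMin : nonabelian minimal normal subgroups; automorphisms of `T^k`
-/

open Subgroup

namespace Pool.Agent.EnumG

theorem xm_center (T : Type) [Group T] (hs : IsSimpleGroup T) (hna : ¬ Comm T) :
    center T = ⊥ := by
  rcases (inferInstance : (center T).Normal).eq_bot_or_eq_top with h | h
  · exact h
  · refine absurd (fun a b => ?_) hna
    have : a ∈ center T := by rw [h]; trivial
    exact (mem_center_iff.1 this b).symm

/-! ### automorphisms of a power of a simple group -/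

section Pow

variable {T : Type} [Group T] {k : ℕ}

theorem xm_key (hs : IsSimpleGroup T) (hna : ¬ Comm T) (M : Subgroup (Fin k → T)) [M.Normal]
    {x : Fin k → T} (hx : x ∈ M) {j : Fin k} (hj : x j ≠ 1) (t : T) : Pi.mulSingle j t ∈ M := by
  have hc : x j ∉ center T := by
    rw [xm_center T hs hna, mem_bot]
    exact hj
  rw [mem_center_iff] at hc
  push Not at hc
  obtain ⟨s, hs'⟩ := hc
  set A : Subgroup T := M.comap (MonoidHom.mulSingle (fun _ : Fin k => T) j) with hA
  have hAn : A.Normal := normal_comap _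
  have hmem : x j * s * (x j)⁻¹ * s⁻¹ ∈ A := by
    rw [hA, mem_comap]
    have h1 : (MonoidHom.mulSingle (fun _ : Fin k => T) j) (x j * s * (x j)⁻¹ * s⁻¹) =
        x * ((Pi.mulSingle j s) * x⁻¹ * (Pi.mulSingle j s)⁻¹) := by
      funext i
      by_cases h : i = j
      · subst h
        simp [mul_assoc]
      · simp [Pi.mulSingle_eq_of_ne h]
    rw [h1]
    exact M.mul_mem hx ((inferInstance : M.Normal).conj_mem _ (M.inv_mem hx) _)
  have hne : x j * s * (x j)⁻¹ * s⁻¹ ≠ 1 := by
    intro h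
    apply hs'
    have h2 : x j * s = s * x j := by
      calc x j * s = (x j * s * (x j)⁻¹ * s⁻¹) * (s * x j) := by group
        _ = s * x j := by rw [h, one_mul]
    exact h2.symm
  rcases hAn.eq_bot_or_eq_top with h | h
  · rw [h, mem_bot] at hmem
    exact absurd hmem hne
  · have : t ∈ A := by rw [h]; trivial
    exact this

theorem xm_range_normal (i : Fin k) :
    (MonoidHom.mulSingle (fun _ : Fin k => T) i).range.Normal := by
  refine ⟨?_⟩
  rintro _ ⟨t, rfl⟩ g
  refine ⟨g i * t * (g i)⁻¹, ?_⟩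
  funext l
  by_cases h : l = i
  · subst h
    simp
  · simp [Pi.mulSingle_eq_of_ne h]

theorem xm_exists [Finite T] (hs : IsSimpleGroup T) (hna : ¬ Comm T)
    (α : MulAut (Fin k → T)) (i : Fin k) :
    ∃ j : Fin k, ∀ t : T, ∃ s : T, α (Pi.mulSingle i t) = Pi.mulSingle j s := by
  have hnt : Nontrivial T := hs.toNontrivial
  obtain ⟨t₀, ht₀⟩ := exists_ne (1 : T)
  set N : Fin k → Subgroup (Fin k → T) := fun i =>
    (MonoidHom.mulSingle (fun _ : Fin k => T) i).range with hN
  have hcard : ∀ i, Nat.card (N i) = Nat.card T := fun i =>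
    (Nat.card_congr (MonoidHom.ofInjective
      (f := MonoidHom.mulSingle (fun _ : Fin k => T) i)
      (fun a b h => by simpa using congrFun h i)).toEquiv).symm
  have hNn : (N i).Normal := xm_range_normal i
  set M : Subgroup (Fin k → T) := (N i).map α.toMonoidHom with hM
  have hMn : M.Normal := hNn.map _ α.surjective
  have hMc : Nat.card M = Nat.card T := by
    rw [← hcard i]
    exact (Nat.card_congr (equivMapOfInjective (N i) α.toMonoidHom α.injective).toEquiv).symm
  have hne : α (Pi.mulSingle i t₀) ≠ 1 := by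
    intro h
    have h1 : (Pi.mulSingle i t₀ : Fin k → T) = 1 := by
      apply α.injective
      rw [h, map_one]
    exact ht₀ (by simpa using congrFun h1 i)
  obtain ⟨j, hj⟩ : ∃ j, α (Pi.mulSingle i t₀) j ≠ 1 := by
    by_contra h
    push Not at h
    exact hne (funext h)
  have hmem : ∀ t, α (Pi.mulSingle i t) ∈ M := fun t => ⟨Pi.mulSingle i t, ⟨t, rfl⟩, rfl⟩
  have hle : N j ≤ M := by
    rintro _ ⟨t, rfl⟩
    exact xm_key hs hna M (hmem t₀) hj t
  have heq : N j = M := eq_of_le_of_card_ge hle (by rw [hcard, hMc])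
  refine ⟨j, fun t => ?_⟩
  have h1 := hmem t
  rw [← heq] at h1
  obtain ⟨s, hs⟩ := h1
  exact ⟨s, hs.symm⟩

end Pow

section Pow2

variable {T : Type} [Group T] [Finite T] {k : ℕ}

/-- the permutation of the factors -/
noncomputable def xmS (hs : IsSimpleGroup T) (hna : ¬ Comm T)
    (α : MulAut (Fin k → T)) (i : Fin k) : Fin k := (xm_exists hs hna α i).choose

/-- the maps between the factors -/
noncomputable def xmF (hs : IsSimpleGroup T) (hna : ¬ Comm T)
    (α : MulAut (Fin k → T)) (i : Fin k) : T →* T :=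
  (Pi.evalMonoidHom (fun _ : Fin k => T) (xmS hs hna α i)).comp
    (α.toMonoidHom.comp (MonoidHom.mulSingle (fun _ : Fin k => T) i))

theorem xmF_spec (hs : IsSimpleGroup T) (hna : ¬ Comm T)
    (α : MulAut (Fin k → T)) (i : Fin k) (t : T) :
    α (Pi.mulSingle i t) = Pi.mulSingle (xmS hs hna α i) (xmF hs hna α i t) := by
  obtain ⟨s, h⟩ := (xm_exists hs hna α i).choose_spec t
  have h1 : xmF hs hna α i t = s := by
    show (α (Pi.mulSingle i t)) (xmS hs hna α i) = s
    rw [h]
    exact Pi.mulSingle_eq_same _ _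
  rw [h1]
  exact h

theorem xmF_inj (hs : IsSimpleGroup T) (hna : ¬ Comm T)
    (α : MulAut (Fin k → T)) (i : Fin k) : Function.Injective (xmF hs hna α i) := by
  rw [injective_iff_map_eq_one]
  intro t ht
  have h1 := xmF_spec hs hna α i t
  rw [ht, Pi.mulSingle_one] at h1
  have h2 : (Pi.mulSingle i t : Fin k → T) = 1 := by
    apply α.injective
    rw [h1, map_one]
  simpa using congrFun h2 i

theorem xmS_inj (hs : IsSimpleGroup T) (hna : ¬ Comm T)
    (α : MulAut (Fin k → T)) : Function.Injective (xmS hs hna α) := by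
  intro i i' h
  by_contra hne
  have hnt : Nontrivial T := hs.toNontrivial
  obtain ⟨s, hs0⟩ := exists_ne (1 : T)
  obtain ⟨t, ht⟩ := (Finite.injective_iff_surjective.1 (xmF_inj hs hna α i)) s
  obtain ⟨t', ht'⟩ := (Finite.injective_iff_surjective.1 (xmF_inj hs hna α i')) s
  have h1 := xmF_spec hs hna α i t
  have h2 := xmF_spec hs hna α i' t'
  rw [ht] at h1
  rw [ht', ← h, ← h1] at h2
  have h3 := congrFun (α.injective h2) i'
  rw [Pi.mulSingle_eq_same, Pi.mulSingle_eq_of_ne (Ne.symm hne)] at h3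
  rw [h3, map_one] at ht'
  exact hs0 ht'.symm

/-- the data of an automorphism -/
noncomputable def xmD (hs : IsSimpleGroup T) (hna : ¬ Comm T)
    (α : MulAut (Fin k → T)) : Equiv.Perm (Fin k) × (Fin k → MulAut T) :=
  (Equiv.ofBijective _ (Finite.injective_iff_bijective.1 (xmS_inj hs hna α)),
    fun i => MulEquiv.ofBijective (xmF hs hna α i)
      (Finite.injective_iff_bijective.1 (xmF_inj hs hna α i)))

theorem xmD_inj (hs : IsSimpleGroup T) (hna : ¬ Comm T) :
    Function.Injective (xmD (k := k) hs hna) := by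
  intro α β h
  have h1 : ∀ i, xmS hs hna α i = xmS hs hna β i := fun i => by
    have := congrArg (fun p => p.1 i) h
    exact this
  have h2 : ∀ i t, xmF hs hna α i t = xmF hs hna β i t := fun i t => by
    have := congrArg (fun p => p.2 i t) h
    exact this
  have h3 : ∀ i t, α (Pi.mulSingle i t) = β (Pi.mulSingle i t) := by
    intro i t
    rw [xmF_spec hs hna, xmF_spec hs hna, h1, h2]
  refine MulEquiv.ext fun x => ?_
  have h4 : x ∈ MonoidHom.eqLocus α.toMonoidHom β.toMonoidHom :=
    pi_mem_of_mulSingle_mem x fun i => h3 i (x i)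
  exact h4

end Pow2

theorem card_mulAut_pow (T : Type) [Group T] [Finite T] (hs : IsSimpleGroup T) (hna : ¬ Comm T)
    (k : ℕ) : Nat.card (MulAut (Fin k → T)) ≤ k.factorial * Nat.card (MulAut T) ^ k := by
  have hf : Finite (MulAut T) :=
    Finite.of_injective (fun α : MulAut T => (α : T → T)) fun α β h => MulEquiv.ext (congrFun h)
  refine (Nat.card_le_card_of_injective _ (xmD_inj (k := k) hs hna)).trans (le_of_eq ?_)
  rw [Nat.card_prod, Nat.card_perm, Nat.card_fun, Nat.card_eq_fintype_card, Fintype.card_fin]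

theorem center_pow (T : Type) [Group T] (hs : IsSimpleGroup T) (hna : ¬ Comm T)
    (k : ℕ) : center (Fin k → T) = ⊥ := by
  rw [eq_bot_iff]
  intro z hz
  rw [mem_bot]
  funext i
  have h1 : z i ∈ center T := by
    rw [mem_center_iff]
    intro g
    have h2 := congrFun (mem_center_iff.1 hz (Pi.mulSingle i g)) i
    simpa using h2
  rw [xm_center T hs hna, mem_bot] at h1
  exact h1

/-- the odd part of the order of a nonabelian simple group is at least 3 -/
theorem odd_part (T : Type) [Group T] [Finite T] (hs : IsSimpleGroup T) (hna : ¬ Comm T) :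
    3 ≤ Nat.card T / 2 ^ (Nat.card T).factorization 2 := by
  have hT : Nat.card T ≠ 0 := Nat.card_pos.ne'
  set m := Nat.card T / 2 ^ (Nat.card T).factorization 2 with hm
  have h0 : 0 < m := Nat.ordCompl_pos 2 hT
  have hodd : ¬ 2 ∣ m := Nat.not_dvd_ordCompl Nat.prime_two hT
  have h1 : m ≠ 1 := by
    intro h
    have h2 : Nat.card T = 2 ^ (Nat.card T).factorization 2 := by
      have := Nat.ordProj_mul_ordCompl_eq_self (Nat.card T) 2
      rw [← hm, h, mul_one] at this
      exact this.symm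
    have hnt : Nontrivial T := hs.toNontrivial
    have h3 : IsPGroup 2 T := IsPGroup.of_card h2
    have hp : Fact (Nat.Prime 2) := ⟨Nat.prime_two⟩
    have h4 : Nontrivial (center T) := h3.center_nontrivial
    rw [xm_center T hs hna] at h4
    exact not_nontrivial _ h4
  by_contra hlt
  push Not at hlt
  have : m = 2 := by omega
  exact hodd (by rw [this])

/-! ### nonabelian minimal normal subgroups -/

section Min

variable {G : Type} [Group G]

/-- `A` is normalised by `V` -/
def xmN (V A : Subgroup G) : Prop := ∀ v ∈ V, ∀ a ∈ A, v * a * v⁻¹ ∈ A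

/-- the conjugate -/
def cj (g : G) (T : Subgroup G) : Subgroup G := T.map (MulAut.conj g).toMonoidHom

theorem mem_cj {g x : G} {T : Subgroup G} : x ∈ cj g T ↔ g⁻¹ * x * g ∈ T := by
  constructor
  · rintro ⟨t, ht, rfl⟩
    show g⁻¹ * (g * t * g⁻¹) * g ∈ T
    have : g⁻¹ * (g * t * g⁻¹) * g = t := by group
    rw [this]
    exact ht
  · intro h
    refine ⟨_, h, ?_⟩
    show g * (g⁻¹ * x * g) * g⁻¹ = x
    group

theorem cj_le {V T : Subgroup G} (hVn : V.Normal) (hT : T ≤ V) (g : G) : cj g T ≤ V := by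
  rintro _ ⟨t, ht, rfl⟩
  exact hVn.conj_mem _ (hT ht) g

theorem cj_xmN {V T : Subgroup G} (hVn : V.Normal) (hT : xmN V T) (g : G) : xmN V (cj g T) := by
  intro v hv a ha
  rw [mem_cj] at ha ⊢
  have h1 : g⁻¹ * v * g ∈ V := by
    have := hVn.conj_mem v hv g⁻¹
    simpa using this
  have h2 := hT _ h1 _ ha
  have : g⁻¹ * (v * a * v⁻¹) * g = g⁻¹ * v * g * (g⁻¹ * a * g) * (g⁻¹ * v * g)⁻¹ := by group
  rw [this]
  exact h2

theorem cj_ne_bot {T : Subgroup G} (hT : T ≠ ⊥) (g : G) : cj g T ≠ ⊥ := by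
  intro h
  apply hT
  rw [eq_bot_iff]
  intro t ht
  have h1 : g * t * g⁻¹ ∈ cj g T := ⟨t, ht, rfl⟩
  rw [h, mem_bot] at h1
  rw [mem_bot]
  calc t = g⁻¹ * (g * t * g⁻¹) * g := by group
    _ = 1 := by rw [h1]; group

theorem xm_commute {V A B : Subgroup G} (hA : A ≤ V) (hB : B ≤ V) (hAn : xmN V A)
    (hBn : xmN V B) (h : A ⊓ B = ⊥) {a b : G} (ha : a ∈ A) (hb : b ∈ B) : a * b = b * a := by
  have h1 : a * b * a⁻¹ * b⁻¹ ∈ A ⊓ B := by
    refine ⟨?_, ?_⟩
    · have : a * b * a⁻¹ * b⁻¹ = a * (b * a⁻¹ * b⁻¹) := by group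
      rw [this]
      exact A.mul_mem ha (hAn b (hB hb) _ (A.inv_mem ha))
    · exact B.mul_mem (hBn a (hA ha) b hb) (B.inv_mem hb)
  rw [h, mem_bot] at h1
  calc a * b = (a * b * a⁻¹ * b⁻¹) * (b * a) := by group
    _ = b * a := by rw [h1, one_mul]

theorem xmN_iSup {ι : Sort*} {V : Subgroup G} {A : ι → Subgroup G} (h : ∀ i, xmN V (A i)) :
    xmN V (⨆ i, A i) := by
  intro v hv a ha
  have h1 : (⨆ i, A i).map (MulAut.conj v).toMonoidHom ≤ ⨆ i, A i := by
    rw [Subgroup.map_iSup]
    refine iSup_mono fun i => ?_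
    rintro _ ⟨x, hx, rfl⟩
    exact h i v hv x hx
  exact h1 ⟨a, ha, rfl⟩

theorem min_nonab [Finite G] (V : Subgroup G) (hVn : V.Normal) (hV : V ≠ ⊥)
    (hmin : ∀ N : Subgroup G, N.Normal → N ≤ V → N = ⊥ ∨ N = V)
    (hna : ¬ ∀ a ∈ V, ∀ b ∈ V, a * b = b * a) :
    ∃ (T : Subgroup G) (k : ℕ), T ≤ V ∧ IsSimpleGroup T ∧ ¬ Comm T ∧ T.IsSubnormal ∧ k ≠ 0 ∧
      Nonempty (V ≃* (Fin k → T)) := by
  classical
  set 𝒯 : Set (Subgroup G) := {T | T ≠ ⊥ ∧ T ≤ V ∧ xmN V T} with h𝒯
  have hV𝒯 : V ∈ 𝒯 := ⟨hV, le_rfl, fun v hv a ha => V.mul_mem (V.mul_mem hv ha) (V.inv_mem hv)⟩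
  obtain ⟨T, hT⟩ := (Set.toFinite 𝒯).exists_minimal ⟨V, hV𝒯⟩
  obtain ⟨hT0, hTV, hTn⟩ := hT.1
  -- minimality of the conjugates
  have L2 : ∀ g (A : Subgroup G), A ∈ 𝒯 → A ≤ cj g T → A = cj g T := by
    intro g A hA hle
    have h1 : cj g⁻¹ A ∈ 𝒯 := ⟨cj_ne_bot hA.1 _, cj_le hVn hA.2.1 _, cj_xmN hVn hA.2.2 _⟩
    have h2 : cj g⁻¹ A ≤ T := by
      intro x hx
      rw [mem_cj, inv_inv] at hx
      have h3 := mem_cj.1 (hle hx)
      have : g⁻¹ * (g * x * g⁻¹) * g = x := by group
      rwa [this] at h3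
    have h3 := hT.2 h1 h2
    refine le_antisymm hle fun x hx => ?_
    have h4 := h3 (mem_cj.1 hx)
    rw [mem_cj, inv_inv] at h4
    have : g * (g⁻¹ * x * g) * g⁻¹ = x := by group
    rwa [this] at h4
  have L3 : ∀ g (A : Subgroup G), A ≤ V → xmN V A → cj g T ≤ A ∨ cj g T ⊓ A = ⊥ := by
    intro g A hA hAn
    by_cases h : cj g T ⊓ A = ⊥
    · exact Or.inr h
    · left
      have h1 : cj g T ⊓ A ∈ 𝒯 := by
        refine ⟨h, inf_le_right.trans hA, fun v hv a ha => ?_⟩
        exact ⟨cj_xmN hVn hTn g v hv a ha.1, hAn v hv a ha.2⟩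
      have h2 := L2 g _ h1 inf_le_left
      exact inf_eq_left.1 h2
  have hcjV : ∀ g, cj g T ≤ V := cj_le hVn hTV
  have hcjN : ∀ g, xmN V (cj g T) := cj_xmN hVn hTn
  have hcj𝒯 : ∀ g, cj g T ∈ 𝒯 := fun g => ⟨cj_ne_bot hT0 g, hcjV g, hcjN g⟩
  have L4 : ∀ g h, cj g T ≠ cj h T → ∀ a ∈ cj g T, ∀ b ∈ cj h T, a * b = b * a := by
    intro g h hne a ha b hb
    rcases L3 g (cj h T) (hcjV h) (hcjN h) with h1 | h1
    · exact absurd (L2 h _ (hcj𝒯 g) h1) hne
    · exact xm_commute (hcjV g) (hcjV h) (hcjN g) (hcjN h) h1 ha hb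
  have hone : cj 1 T = T := by
    ext x
    rw [mem_cj]
    simp
  have L5 : ⨆ g, cj g T = V := by
    have hn : (⨆ g, cj g T).Normal := by
      refine ⟨fun a ha g => ?_⟩
      have h1 : (⨆ h, cj h T).map (MulAut.conj g).toMonoidHom ≤ ⨆ h, cj h T := by
        rw [Subgroup.map_iSup]
        refine iSup_le fun h => ?_
        refine le_trans ?_ (le_iSup (fun h => cj h T) (g * h))
        rintro _ ⟨x, hx, rfl⟩
        show g * x * g⁻¹ ∈ cj (g * h) T
        rw [SetLike.mem_coe, mem_cj] at hx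
        rw [mem_cj]
        have : (g * h)⁻¹ * (g * x * g⁻¹) * (g * h) = h⁻¹ * x * h := by group
        rw [this]
        exact hx
      exact h1 ⟨a, ha, rfl⟩
    rcases hmin _ hn (iSup_le hcjV) with h | h
    · exfalso
      apply hT0
      rw [← hone, eq_bot_iff, ← h]
      exact le_iSup (fun g => cj g T) 1
    · exact h
  have L6 : ¬ ∀ a ∈ T, ∀ b ∈ T, a * b = b * a := by
    intro hc
    apply hna
    have hcomm : ∀ g h, ∀ a ∈ cj g T, ∀ b ∈ cj h T, a * b = b * a := by
      intro g h a ha b hb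
      by_cases hgh : cj g T = cj h T
      · rw [← hgh] at hb
        rw [mem_cj] at ha hb
        have h1 := hc _ ha _ hb
        calc a * b = g * (g⁻¹ * a * g * (g⁻¹ * b * g)) * g⁻¹ := by group
          _ = g * (g⁻¹ * b * g * (g⁻¹ * a * g)) * g⁻¹ := by rw [h1]
          _ = b * a := by group
      · exact L4 g h hgh a ha b hb
    have h1 : ∀ g, V ≤ centralizer (cj g T : Set G) := by
      intro g
      rw [← L5]
      refine iSup_le fun h => ?_
      intro a ha
      rw [mem_centralizer_iff]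
      intro b hb
      exact (hcomm h g a ha b hb).symm
    have h2 : V ≤ centralizer (V : Set G) := by
      conv_lhs => rw [← L5]
      refine iSup_le fun g => ?_
      intro a ha
      rw [mem_centralizer_iff]
      intro b hb
      exact (mem_centralizer_iff.1 (h1 g hb) a ha).symm
    intro a ha b hb
    exact (mem_centralizer_iff.1 (h2 ha) b hb).symm
  have L6' : ¬ Comm T := by
    intro h
    apply L6
    intro a ha b hb
    exact congrArg Subtype.val (h ⟨a, ha⟩ ⟨b, hb⟩)
  have L7 : IsSimpleGroup T := by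
    have hnt : Nontrivial T := (nontrivial_iff_ne_bot T).2 hT0
    refine ⟨fun N hN => ?_⟩
    set N' : Subgroup G := N.map T.subtype with hN'
    have hN'T : N' ≤ T := map_subtype_le N
    have hN'n : xmN V N' := by
      -- the subgroup of the elements which normalise `N'`
      have h1 : V ≤ normalizer (N' : Set G) := by
        rw [← L5]
        refine iSup_le fun g => ?_
        intro v hv
        have hstep : ∀ v ∈ cj g T, ∀ a ∈ N', v * a * v⁻¹ ∈ N' := by
          intro v hv a ha
          by_cases hg : cj g T = T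
          · rw [hg] at hv
            obtain ⟨a', ha', rfl⟩ := ha
            have := hN.conj_mem a' ha' ⟨v, hv⟩
            exact ⟨_, this, rfl⟩
          · have h2 := L4 g 1 (by rw [hone]; exact hg) v hv a (by rw [hone]; exact hN'T ha)
            rw [h2, mul_inv_cancel_right]
            exact ha
        rw [mem_normalizer_iff]
        intro a
        refine ⟨fun ha => hstep v hv a ha, fun ha => ?_⟩
        have h3 := hstep v⁻¹ ((cj g T).inv_mem hv) _ ha
        have : v⁻¹ * (v * a * v⁻¹) * v⁻¹⁻¹ = a := by group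
        rwa [this] at h3
      intro v hv a ha
      exact (mem_normalizer_iff.1 (h1 hv) a).1 ha
    by_cases h0 : N' = ⊥
    · left
      rw [hN', map_eq_bot_iff_of_injective _ T.subtype_injective] at h0
      exact h0
    · right
      have h2 := hT.2 ⟨h0, hN'T.trans hTV, hN'n⟩ hN'T
      rw [eq_top_iff]
      intro t _
      obtain ⟨n, hn, hnt'⟩ := h2 t.2
      have : n = t := Subtype.ext hnt'
      rw [← this]
      exact hn
  -- the family of the conjugates
  set ι : Type := {A : Subgroup G // ∃ g, A = cj g T} with hι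
  have hfin : Fintype ι := Fintype.ofFinite ι
  let H : ι → Subgroup G := fun i => i.1
  have hcommH : Pairwise fun i j : ι => ∀ x y : G, x ∈ H i → y ∈ H j → Commute x y := by
    intro i j hij x y hx hy
    obtain ⟨g, hg⟩ := i.2
    obtain ⟨h, hh⟩ := j.2
    have hne : cj g T ≠ cj h T := by
      intro h1
      apply hij
      apply Subtype.ext
      rw [hg, hh, h1]
    have hx' : x ∈ cj g T := by rw [← hg]; exact hx
    have hy' : y ∈ cj h T := by rw [← hh]; exact hy
    exact L4 g h hne x hx' y hy'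
  have hsup : ⨆ i, H i = V := by
    rw [← L5]
    apply le_antisymm
    · refine iSup_le fun i => ?_
      obtain ⟨g, hg⟩ := i.2
      have : H i = cj g T := hg
      rw [this]
      exact le_iSup (fun g => cj g T) g
    · refine iSup_le fun g => ?_
      exact le_iSup H ⟨cj g T, g, rfl⟩
  have hHV : ∀ i, H i ≤ V := fun i => by
    rw [← hsup]
    exact le_iSup H i
  have hHN : ∀ i, xmN V (H i) := fun i => by
    obtain ⟨g, hg⟩ := i.2
    have : H i = cj g T := hg
    rw [this]
    exact hcjN g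
  have hind : iSupIndep H := by
    intro i
    rw [disjoint_iff]
    obtain ⟨g, hg⟩ := i.2
    have hHi : H i = cj g T := hg
    have hA1 : (⨆ (j) (_ : j ≠ i), H j) ≤ V := iSup₂_le fun j _ => hHV j
    have hA2 : xmN V (⨆ (j) (_ : j ≠ i), H j) := xmN_iSup fun j => xmN_iSup fun _ => hHN j
    rcases L3 g _ hA1 hA2 with h | h
    · exfalso
      have h1 : (⨆ (j) (_ : j ≠ i), H j) ≤ centralizer (H i : Set G) := by
        refine iSup₂_le fun j hj => ?_
        intro a ha
        rw [mem_centralizer_iff]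
        intro b hb
        exact (hcommH hj.symm b a hb ha).eq
      have h2 : ∀ a ∈ cj g T, ∀ b ∈ cj g T, a * b = b * a := by
        intro a ha b hb
        have h3 := h1 (h hb)
        rw [mem_centralizer_iff] at h3
        exact h3 a (by rw [hHi]; exact ha)
      apply L6
      intro a ha b hb
      have h3 := h2 (g * a * g⁻¹) ⟨a, ha, rfl⟩ (g * b * g⁻¹) ⟨b, hb, rfl⟩
      calc a * b = g⁻¹ * (g * a * g⁻¹ * (g * b * g⁻¹)) * g := by group
        _ = g⁻¹ * (g * b * g⁻¹ * (g * a * g⁻¹)) * g := by rw [h3]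
        _ = b * a := by group
    · rw [hHi]
      exact h
  have hinj : Function.Injective (noncommPiCoprod hcommH) :=
    Subgroup.injective_noncommPiCoprod_of_iSupIndep hind
  have e1 : (∀ i, H i) ≃* (noncommPiCoprod hcommH).range := MonoidHom.ofInjective hinj
  have hrange : (noncommPiCoprod hcommH).range = V := by
    rw [noncommPiCoprod_range, hsup]
  have e2 : (∀ i, H i) ≃* V := e1.trans (MulEquiv.subgroupCongr hrange)
  have e3 : ∀ i, Nonempty (H i ≃* T) := by
    intro i
    obtain ⟨g, hg⟩ := i.2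
    have h1 : H i = cj g T := hg
    exact ⟨(MulEquiv.subgroupCongr h1).trans
      (equivMapOfInjective T (MulAut.conj g).toMonoidHom (MulAut.conj g).injective).symm⟩
  have e4 : (∀ i, H i) ≃* (ι → T) := MulEquiv.piCongrRight fun i => (e3 i).some
  have e5 : (ι → T) ≃* (Fin (Fintype.card ι) → T) :=
    MulEquiv.arrowCongr (Fintype.equivFin ι) (MulEquiv.refl T)
  refine ⟨T, Fintype.card ι, hTV, L7, L6', ?_, ?_, ⟨(e2.symm.trans e4).trans e5⟩⟩
  · refine IsSubnormal.step T V hTV hVn.isSubnormal ⟨fun a ha v => ?_⟩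
    exact hTn v.1 v.2 a.1 ha
  · have : Nonempty ι := ⟨⟨cj 1 T, 1, rfl⟩⟩
    exact Fintype.card_ne_zero

end Min

end Pool.Agent.EnumG
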