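import Pool.Agent.Work.MP_9de0a1_al.X.XStepN
import Pool.Agent.Work.MP_9de0a1_al.X.XMin
import Pool.Agent.Work.MP_9de0a1_al.X.XClass

/-!
# XMarked : the number of groups with composition factors in `S` and with given Sylow subgroups
-/

open Subgroup

namespace Pool.Agent.EnumG

attribute [local instance] Mk.grp

/-! ### minimal normal subgroups -/

theorem xk_min (G : Type) [Group G] [Finite G] [Nontrivial G] :
    ∃ V : Subgroup G, V.Normal ∧ V ≠ ⊥ ∧
      (∀ N : Subgroup G, N.Normal → N ≤ V → N = ⊥ ∨ N = V) := by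
  classical
  obtain ⟨V, hV⟩ := (Set.toFinite {V : Subgroup G | V.Normal ∧ V ≠ ⊥}).exists_minimal
    ⟨⊤, inferInstance, top_ne_bot⟩
  have hVn : V.Normal := hV.prop.1
  have hVb : V ≠ ⊥ := hV.prop.2
  refine ⟨V, hVn, hVb, ?_⟩
  intro N hN hNV
  by_cases h : N = ⊥
  · exact Or.inl h
  · exact Or.inr (le_antisymm hNV (hV.le_of_le ⟨hN, h⟩ hNV))

theorem xk_pgroup {G : Type} [Group G] [Finite G] (V : Subgroup G) (hVn : V.Normal) (hVb : V ≠ ⊥)
    (hmin : ∀ N : Subgroup G, N.Normal → N ≤ V → N = ⊥ ∨ N = V)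
    (hab : ∀ a ∈ V, ∀ b ∈ V, a * b = b * a) : ∃ p : ℕ, p.Prime ∧ IsPGroup p V := by
  classical
  have hcard : Nat.card V ≠ 1 := by
    intro h
    exact hVb (Subgroup.card_eq_one.1 h)
  obtain ⟨p, hp, hpV⟩ := Nat.exists_prime_and_dvd hcard
  refine ⟨p, hp, ?_⟩
  haveI : Fact p.Prime := ⟨hp⟩
  let N : Subgroup G :=
    { carrier := {x | x ∈ V ∧ x ^ p = 1}
      one_mem' := ⟨V.one_mem, one_pow _⟩
      mul_mem' := by
        rintro a b ⟨ha, ha'⟩ ⟨hb, hb'⟩
        refine ⟨V.mul_mem ha hb, ?_⟩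
        rw [Commute.mul_pow (hab a ha b hb), ha', hb', one_mul]
      inv_mem' := by
        rintro a ⟨ha, ha'⟩
        exact ⟨V.inv_mem ha, by rw [inv_pow, ha', inv_one]⟩ }
  have hN : N.Normal := by
    constructor
    rintro a ⟨ha, ha'⟩ g
    refine ⟨hVn.conj_mem a ha g, ?_⟩
    show (g * a * g⁻¹) ^ p = 1
    rw [conj_pow, ha']
    simp
  obtain ⟨x, hx⟩ := exists_prime_orderOf_dvd_card' p hpV
  have hNV : N ≤ V := fun a ha => ha.1
  rcases hmin N hN hNV with h | h
  · exfalso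
    have h1 : (x : G) ∈ N := by
      refine ⟨x.2, ?_⟩
      have : x ^ p = 1 := by rw [← hx]; exact pow_orderOf_eq_one x
      exact congrArg Subtype.val this
    rw [h, Subgroup.mem_bot] at h1
    have h2 : x = 1 := Subtype.ext h1
    rw [h2, orderOf_one] at hx
    exact hp.one_lt.ne hx
  · intro v
    refine ⟨1, ?_⟩
    have h1 : (v : G) ∈ N := by rw [h]; exact v.2
    apply Subtype.ext
    rw [pow_one]
    exact h1.2

section MarkedX

variable {I : Type} {S : I → Type} [∀ i, Group (S i)] {W : ∀ i, Subgroup (S i)}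

theorem xk_exists_V [Fintype I] [DecidableEq I] [∀ i, Finite (S i)] (p a : I → ℕ)
    (hp : ∀ i, (p i).Prime) (hinj : Function.Injective p)
    (hS : ∀ i, Nat.card (S i) = p i ^ a i) (n : ℕ)
    (hn : n = ∏ i, (W i).index) (hn1 : 1 < n) (A : Mk S W) (hA : Nat.card A.G = n)
    (V : Subgroup A.G) (hVn : V.Normal) (hVb : V ≠ ⊥)
    (hmin : ∀ N : Subgroup A.G, N.Normal → N ≤ V → N = ⊥ ∨ N = V)
    (hab : ∀ a ∈ V, ∀ b ∈ V, a * b = b * a) :
    ∃ (i : I) (t : ℕ), t < a i ∧ ∃ V : Subgroup A.G, marked_V i (p i ^ (t + 1)) A V := by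
  haveI : Finite A.G := Nat.finite_of_card_ne_zero (by omega)
  haveI : Nontrivial A.G := by
    rw [← Finite.one_lt_card_iff_nontrivial, hA]
    exact hn1
  obtain ⟨q, hq, hqV⟩ := xk_pgroup V hVn hVb hmin hab
  haveI : Fact q.Prime := ⟨hq⟩
  obtain ⟨t, ht⟩ := IsPGroup.iff_card.1 hqV
  have ht0 : t ≠ 0 := by
    rintro rfl
    rw [pow_zero] at ht
    exact hVb (Subgroup.card_eq_one.1 ht)
  have hidx : ∀ k, (W k).index ∣ p k ^ a k := fun k => by
    rw [← hS k]
    exact (W k).index_dvd_card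
  have hqn : q ∣ ∏ i, (W i).index := by
    rw [← hn, ← hA]
    exact ((dvd_pow_self q ht0).trans (dvd_of_eq ht.symm)).trans (Subgroup.card_subgroup_dvd_card V)
  obtain ⟨i, -, hi⟩ := (Prime.dvd_finsetProd_iff hq.prime _).1 hqn
  have hqi : q = p i :=
    (Nat.prime_dvd_prime_iff_eq hq (hp i)).1 (hq.dvd_of_dvd_pow (hi.trans (hidx i)))
  subst hqi
  have hcop : ∀ k, k ≠ i → (p k ^ a k).Coprime (p i ^ t) := fun k hk =>
    Nat.Coprime.pow _ _ ((Nat.coprime_primes (hp k) (hp i)).2 fun h => hk (hinj h))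
  have hrange : Nat.card (A.ι i).range = (W i).index := by
    rw [← Subgroup.index_ker, A.ker i]
  have hindex : (A.ι i).range.index = ∏ k ∈ Finset.univ.erase i, (W k).index := by
    have h1 := Subgroup.card_mul_index (A.ι i).range
    rw [hrange, hA, hn, ← Finset.mul_prod_erase Finset.univ _ (Finset.mem_univ i)] at h1
    have h2 : 0 < (W i).index := Nat.pos_of_ne_zero (Subgroup.index_ne_zero_of_finite)
    exact Nat.eq_of_mul_eq_mul_left h2 h1
  have hcop2 : ((A.ι i).range.index).Coprime (p i ^ t) := by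
    rw [hindex]
    apply Nat.Coprime.prod_left
    intro k hk
    exact Nat.Coprime.coprime_dvd_left (hidx k) (hcop k (Finset.ne_of_mem_erase hk))
  have hpr : IsPGroup (p i) (A.ι i).range := by
    obtain ⟨b, hb⟩ := (Nat.dvd_prime_pow (hp i)).1 (hidx i)
    exact IsPGroup.of_card (n := b) (hrange.trans hb.2)
  have hnd : ¬ p i ∣ (A.ι i).range.index := by
    intro h
    have h1 : p i ∣ p i ^ t := dvd_pow_self _ ht0
    exact (hp i).one_lt.ne' (Nat.eq_one_of_dvd_coprimes hcop2 h h1)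
  have hle : V ≤ (A.ι i).range := hqV.le_sylow_of_normal (hpr.toSylow hnd)
  refine ⟨i, t - 1, ?_, V, hVn, hab, hle, by rw [ht]; exact hcop2, hmin, ?_, ?_⟩
  · have h1 : p i ^ t ∣ p i ^ a i := by
      rw [← ht]
      exact ((Subgroup.card_dvd_of_le hle).trans (dvd_of_eq hrange)).trans (hidx i)
    have h2 := (Nat.pow_dvd_pow_iff_le_right (hp i).one_lt).1 h1
    omega
  · rw [ht]
    congr 1
    omega
  · intro k hk
    rw [ht, hS k]
    exact hcop k hk

/-- groups of order one: every predicate -/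
theorem xk_triv (P : Mk S W → Prop) : marked_Le (fun A : Mk S W => Nat.card A.G = 1 ∧ P A) 1 := by
  have h := marked_Le_rel (P := fun A : Mk S W => Nat.card A.G = 1 ∧ P A)
    (D := Unit) (fun A _ => Nat.card A.G = 1) (fun A hA => ⟨(), hA.1⟩) (by
      intro A B _ hA hB
      haveI : Subsingleton A.G := (Nat.card_eq_one_iff_unique.1 hA).1
      haveI : Subsingleton B.G := (Nat.card_eq_one_iff_unique.1 hB).1
      refine ⟨{ toFun := fun _ => 1, invFun := fun _ => 1, left_inv := fun _ => Subsingleton.elim _ _,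
                right_inv := fun _ => Subsingleton.elim _ _,
                map_mul' := fun _ _ => Subsingleton.elim _ _ }, fun i s => Subsingleton.elim _ _⟩)
  simpa using h

end MarkedX

/-! ### the odd part -/

/-- odd part -/
def xk_od (n : ℕ) : ℕ := n / 2 ^ n.factorization 2

theorem xk_od_mul (a b : ℕ) : xk_od (a * b) = xk_od a * xk_od b :=
  Nat.ordCompl_mul a b 2

theorem xk_od_one : xk_od 1 = 1 := by simp [xk_od]

theorem xk_od_pow (a k : ℕ) : xk_od (a ^ k) = xk_od a ^ k := by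
  induction k with
  | zero => simp [xk_od_one]
  | succ k ih => rw [pow_succ, xk_od_mul, ih, pow_succ]

theorem xk_od_pos {n : ℕ} (h : n ≠ 0) : 0 < xk_od n := Nat.ordCompl_pos 2 h

/-- the arithmetic of the nonabelian step -/
theorem xk_fact {k L v : ℕ} (hk : k ≤ L) (hv : 3 ^ k ≤ xk_od v) :
    k.factorial ^ L ≤ xk_od v ^ (L * Nat.clog 2 L) := by
  calc k.factorial ^ L ≤ (k ^ k) ^ L := Nat.pow_le_pow_left (Nat.factorial_le_pow k) _
    _ ≤ (L ^ k) ^ L := Nat.pow_le_pow_left (Nat.pow_le_pow_left hk _) _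
    _ ≤ ((2 ^ Nat.clog 2 L) ^ k) ^ L :=
        Nat.pow_le_pow_left (Nat.pow_le_pow_left (Nat.le_pow_clog (by norm_num) L) _) _
    _ = (2 ^ k) ^ (L * Nat.clog 2 L) := by
        rw [← pow_mul, ← pow_mul, ← pow_mul]
        congr 1
        ring
    _ ≤ (3 ^ k) ^ (L * Nat.clog 2 L) :=
        Nat.pow_le_pow_left (Nat.pow_le_pow_left (by norm_num) _) _
    _ ≤ _ := Nat.pow_le_pow_left hv _

theorem xk_marked (Q : ∀ (T : Type) [Group T], Prop) (C : ℕ) (hQ : Adm Q C) {I : Type}
    [Fintype I] (S : I → Type) [∀ i, Group (S i)]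
    [∀ i, Finite (S i)] (p : I → ℕ) (hp : ∀ i, (p i).Prime) (hinj : Function.Injective p)
    (hS : ∀ i, IsPGroup (p i) (S i)) (hne : ∀ i, Nontrivial (S i)) (L : ℕ)
    (hL : ∏ i, Nat.card (S i) ≤ 2 ^ L) : ∀ n, ∀ W : ∀ i, Subgroup (S i), (∀ i, (W i).Normal) →
      n = ∏ i, (W i).index →
      marked_Le (fun A : Mk S W => Nat.card A.G = n ∧ CF Q A.G)
        (n ^ ((2 * C + 20) * L) * xk_od n ^ (L * Nat.clog 2 L)) := by
  classical
  have hcard : ∀ i, ∃ a, Nat.card (S i) = p i ^ a := fun i => by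
    haveI : Fact (p i).Prime := ⟨hp i⟩
    exact IsPGroup.iff_card.1 (hS i)
  choose a ha using hcard
  have hpos : ∀ i, 0 < Nat.card (S i) := fun i => Nat.card_pos
  have hi : ∀ i, Nat.card (S i) ≤ 2 ^ L := by
    intro i
    refine le_trans ?_ hL
    exact Finset.single_le_prod' (f := fun i => Nat.card (S i)) (fun k _ => hpos k) (Finset.mem_univ i)
  have ha1 : ∀ i, 1 ≤ a i := by
    intro i
    by_contra h
    have h1 : a i = 0 := by omega
    have h2 : 1 < Nat.card (S i) := Finite.one_lt_card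
    rw [ha i, h1, pow_zero] at h2
    exact lt_irrefl _ h2
  have hsum : ∑ i, a i ≤ L := by
    have h1 : 2 ^ (∑ i, a i) ≤ 2 ^ L := by
      rw [← Finset.prod_pow_eq_pow_sum]
      refine le_trans (Finset.prod_le_prod' fun i _ => ?_) hL
      rw [ha i]
      exact Nat.pow_le_pow_left (hp i).two_le _
    exact (Nat.pow_le_pow_iff_right (by norm_num)).1 h1
  have hI : Fintype.card I ≤ L := by
    refine le_trans ?_ hsum
    calc Fintype.card I = ∑ _i : I, 1 := by simp
      _ ≤ ∑ i, a i := Finset.sum_le_sum fun i _ => ha1 i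
  have hPr : ∀ (G : Type) [Group G] (V : Subgroup G) [V.Normal], CF Q G → CF Q (G ⧸ V) :=
    fun G _ V _ h => CF.quot V hQ.iso h
  -- the simple groups
  set Ps : ∀ (T : Type) [Group T], Prop := fun T _ => IsSimpleGroup T ∧ ¬ Comm T ∧ Q T with hPs
  have hPiso : ∀ (T T' : Type) [Group T] [Group T'], Nonempty (T ≃* T') → Ps T → Ps T' := by
    rintro T T' _ _ ⟨e⟩ ⟨h1, h2, h3⟩
    exact ⟨e.symm.isSimpleGroup, fun h => h2 (h.of_equiv e.symm), hQ.iso T T' ⟨e⟩ h3⟩
  intro n
  induction n using Nat.strong_induction_on with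
  | _ n ih =>
  intro W hW hn
  have hn0 : n ≠ 0 := by
    rw [hn]
    exact Finset.prod_ne_zero_iff.2 fun i _ => Subgroup.index_ne_zero_of_finite
  have hnL : n ≤ 2 ^ L := by
    rw [hn]
    refine le_trans (Finset.prod_le_prod' fun i _ => ?_) hL
    exact Nat.le_of_dvd (hpos i) (W i).index_dvd_card
  by_cases hn1 : n = 1
  · subst hn1
    exact marked_Le_mono (xk_triv (fun A => CF Q A.G)) (by simp [xk_od_one]) fun A hA => hA
  have hn2 : 1 < n := by omega
  have hL1 : 1 ≤ L := by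
    by_contra h
    have : L = 0 := by omega
    rw [this, pow_zero] at hnL
    omega
  -- arithmetic of the bound
  have harith : ∀ v w : ℕ, 2 ≤ v → v ∣ n → w ≤ xk_od v ^ (L * Nat.clog 2 L) →
      (v ^ ((2 * C + 12) * L) * ((n / v) ^ ((2 * C + 20) * L) *
        xk_od (n / v) ^ (L * Nat.clog 2 L)) * w) * 2 ^ (4 * L) ≤
      n ^ ((2 * C + 20) * L) * xk_od n ^ (L * Nat.clog 2 L) := by
    intro v w hv2 hvn hw
    have e1 : v * (n / v) = n := Nat.mul_div_cancel' hvn
    have e2 : xk_od n = xk_od v * xk_od (n / v) := by rw [← xk_od_mul, e1]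
    calc (v ^ ((2 * C + 12) * L) * ((n / v) ^ ((2 * C + 20) * L) *
        xk_od (n / v) ^ (L * Nat.clog 2 L)) * w) * 2 ^ (4 * L)
        ≤ (v ^ ((2 * C + 12) * L) * ((n / v) ^ ((2 * C + 20) * L) *
          xk_od (n / v) ^ (L * Nat.clog 2 L)) * xk_od v ^ (L * Nat.clog 2 L)) * v ^ (8 * L) := by
          refine Nat.mul_le_mul (Nat.mul_le_mul_left _ hw) ?_
          calc 2 ^ (4 * L) ≤ v ^ (4 * L) := Nat.pow_le_pow_left hv2 _
            _ ≤ v ^ (8 * L) := Nat.pow_le_pow_right (by omega) (by omega)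
      _ = (v ^ ((2 * C + 12) * L) * v ^ (8 * L)) * (n / v) ^ ((2 * C + 20) * L) *
          (xk_od v ^ (L * Nat.clog 2 L) * xk_od (n / v) ^ (L * Nat.clog 2 L)) := by ring
      _ = n ^ ((2 * C + 20) * L) * xk_od n ^ (L * Nat.clog 2 L) := by
          rw [← pow_add, ← mul_pow, ← e2]
          congr 1
          rw [show (2 * C + 12) * L + 8 * L = (2 * C + 20) * L by ring, ← mul_pow, e1]
  -- abelian pieces
  have keyA : ∀ d : (Σ i, Fin (a i)), marked_Le (fun A : Mk S W => Nat.card A.G = n ∧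
      CF Q A.G ∧ ∃ V : Subgroup A.G, marked_V d.1 (p d.1 ^ (d.2.1 + 1)) A V)
      (n ^ ((2 * C + 20) * L) * xk_od n ^ (L * Nat.clog 2 L) / 2 ^ (4 * L)) := by
    rintro ⟨i, t⟩
    generalize hv : p i ^ (t.1 + 1) = v
    have hv2 : 2 ≤ v := by
      rw [← hv]
      calc 2 ≤ p i := (hp i).two_le
        _ = p i ^ 1 := (pow_one _).symm
        _ ≤ p i ^ (t.1 + 1) := Nat.pow_le_pow_right (hp i).pos (by omega)
    by_cases hvn : v ∣ n
    swap
    · refine marked_Le_empty ?_
      rintro A ⟨hA, -, V, -, -, -, -, -, hV, -⟩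
      apply hvn
      rw [← hV, ← hA]
      exact Subgroup.card_subgroup_dvd_card V
    refine marked_Le_mono (stepA (fun G _ => CF Q G) hPr hW i L n v
      ((n / v) ^ ((2 * C + 20) * L) * xk_od (n / v) ^ (L * Nat.clog 2 L)) hn0 hnL hv2 (hi i) hI ?_)
      ?_ fun A hA => hA
    · intro W' hW' hle hc
      have h1 : n = v * ∏ k, (Function.update W i W' k).index := by
        rw [hn, ← Finset.mul_prod_erase Finset.univ _ (Finset.mem_univ i),
          ← Finset.mul_prod_erase Finset.univ (fun k => (Function.update W i W' k).index)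
            (Finset.mem_univ i), ← mul_assoc, Function.update_self]
        have h2 : (W i).index = v * W'.index := by
          have h3 := Subgroup.card_mul_index (W i)
          have h4 := Subgroup.card_mul_index W'
          rw [← h4, hc] at h3
          have h5 : 0 < Nat.card (W i) := Nat.card_pos
          apply Nat.eq_of_mul_eq_mul_left h5
          rw [h3]
          ring
        rw [h2]
        congr 1
        refine Finset.prod_congr rfl fun k hk => ?_
        rw [Function.update_of_ne (Finset.ne_of_mem_erase hk)]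
      have h2 : n / v = ∏ k, (Function.update W i W' k).index := by
        conv_lhs => rw [h1]
        exact Nat.mul_div_cancel_left _ (by omega)
      refine ih (n / v) (Nat.div_lt_self (by omega) (by omega)) _ ?_ h2
      intro k
      by_cases hk : k = i
      · subst hk
        rw [Function.update_self]
        exact hW'
      · rw [Function.update_of_ne hk]
        exact hW k
    · rw [Nat.le_div_iff_mul_le (by positivity)]
      refine le_trans (Nat.mul_le_mul_right _ ?_) (harith v 1 hv2 hvn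
        (Nat.one_le_pow _ _ (xk_od_pos (by omega))))
      rw [mul_one]
      calc v ^ (2 * L) * ((n / v) ^ ((2 * C + 20) * L) * xk_od (n / v) ^ (L * Nat.clog 2 L) *
            (v ^ (2 * L) * v ^ (2 * L)))
          = v ^ (2 * L + 2 * L + 2 * L) * ((n / v) ^ ((2 * C + 20) * L) *
            xk_od (n / v) ^ (L * Nat.clog 2 L)) := by
            rw [pow_add, pow_add]; ring
        _ ≤ _ := Nat.mul_le_mul_right _ (Nat.pow_le_pow_right (by omega) (by nlinarith))
  -- nonabelian pieces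
  have keyN : ∀ d : Fin (2 ^ L + 1) × Fin (L + 1), marked_Le (fun A : Mk S W => Nat.card A.G = n ∧
      CF Q A.G ∧ ∃ (V : Subgroup A.G) (T : Type) (_ : Group T), V.Normal ∧ V ≠ ⊥ ∧ Ps T ∧
        Nat.card T = d.1.1 ∧ Nonempty (V ≃* (Fin d.2.1 → T)))
      (n ^ ((2 * C + 20) * L) * xk_od n ^ (L * Nat.clog 2 L) / 2 ^ (4 * L)) := by
    rintro ⟨⟨t, ht⟩, ⟨k, hk⟩⟩
    simp only
    by_cases hgood : (2 ≤ t ∧ 1 ≤ k ∧ t ^ k ∣ n) ∧ ∃ (T : Type) (_ : Group T), Ps T ∧ Nat.card T = t
    swap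
    · refine marked_Le_empty ?_
      rintro A ⟨hA, -, V, T, hT, hVn, hVb, hPT, hTc, ⟨e⟩⟩
      have : Finite A.G := Nat.finite_of_card_ne_zero (by rw [hA]; exact hn0)
      have hnt : Nontrivial T := hPT.1.toNontrivial
      have hVc : Nat.card V = t ^ k := by
        rw [Nat.card_congr e.toEquiv, Nat.card_fun, hTc, Nat.card_eq_fintype_card,
          Fintype.card_fin]
      have hdvd : t ^ k ∣ n := by
        rw [← hVc, ← hA]
        exact Subgroup.card_subgroup_dvd_card V
      have hk1 : 1 ≤ k := by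
        by_contra h
        have h0 : k = 0 := by omega
        apply hVb
        apply Subgroup.card_eq_one.1
        rw [hVc, h0, pow_zero]
      have hTf : Finite T := by
        apply Nat.finite_of_card_ne_zero
        rw [hTc]
        rintro rfl
        rw [zero_pow (by omega)] at hdvd
        exact hn0 (Nat.eq_zero_of_zero_dvd hdvd)
      have ht2 : 2 ≤ t := by
        rw [← hTc]
        exact Finite.one_lt_card
      exact hgood ⟨⟨ht2, hk1, hdvd⟩, T, hT, hPT, hTc⟩
    obtain ⟨⟨ht2, hk1, hvn⟩, T0, hT0, hPT0, hT0c⟩ := hgood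
    have ht0 : t ≠ 0 := by omega
    have hod : 3 ^ k ≤ xk_od (t ^ k) := by
      have : Finite T0 := Nat.finite_of_card_ne_zero (by rw [hT0c]; exact ht0)
      rw [xk_od_pow]
      apply Nat.pow_le_pow_left
      have h := odd_part T0 hPT0.1 hPT0.2.1
      rw [hT0c] at h
      exact h
    have hv2 : 2 ≤ t ^ k := ht2.trans (Nat.le_self_pow (by omega) t)
    obtain ⟨X, hX, Γ, hΓ, hXc, hcov⟩ := numLe_xc (P := Ps) ht0 hPiso
    have key2 : ∀ x : {x : X // Nat.card (Γ x) = t ∧ Ps (Γ x)},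
        marked_Le (fun A : Mk S W => Nat.card A.G = n ∧ CF Q A.G ∧
          ∃ V : Subgroup A.G, V.Normal ∧ Nonempty (V ≃* (Fin k → Γ x.1)))
          ((t ^ k) ^ (8 * L) * (((n / t ^ k) ^ ((2 * C + 20) * L) *
            xk_od (n / t ^ k) ^ (L * Nat.clog 2 L)) *
            (k.factorial ^ L * (t ^ k) ^ (C * L)))) := by
      rintro ⟨x, hx1, hx2⟩
      have hfin : Finite (Γ x) := Nat.finite_of_card_ne_zero (by rw [hx1]; exact ht0)
      have hUc : Nat.card (Fin k → Γ x) = t ^ k := by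
        rw [Nat.card_fun, hx1, Nat.card_eq_fintype_card, Fintype.card_fin]
      refine marked_Le_mono (stepN p hp hinj hS (fun G _ => CF Q G) hPr hW L n (t ^ k)
        ((n / t ^ k) ^ ((2 * C + 20) * L) * xk_od (n / t ^ k) ^ (L * Nat.clog 2 L)) hn hL
        (Fin k → Γ x) hUc (center_pow (Γ x) hx2.1 hx2.2.1 k) ?_) ?_ fun A hA => hA
      · intro W' hW' h'
        exact ih (n / t ^ k) (Nat.div_lt_self (by omega) (by omega)) W' hW' h'
      · refine Nat.mul_le_mul_left _ (Nat.mul_le_mul_left _ ?_)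
        have h1 := card_mulAut_pow (Γ x) hx2.1 hx2.2.1 k
        have h2 : Nat.card (MulAut (Γ x)) ≤ t ^ C := by
          have := hQ.aut (Γ x) hfin hx2.1 hx2.2.1 hx2.2.2
          rwa [hx1] at this
        calc Nat.card (MulAut (Fin k → Γ x)) ^ L
            ≤ (k.factorial * (t ^ C) ^ k) ^ L :=
              Nat.pow_le_pow_left (h1.trans (Nat.mul_le_mul_left _ (Nat.pow_le_pow_left h2 _))) _
          _ = k.factorial ^ L * (t ^ k) ^ (C * L) := by
              rw [mul_pow, ← pow_mul, ← pow_mul, ← pow_mul]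
              congr 2
              ring
    have hlog : Nat.log 2 t ≤ L := by
      have h1 : t ≤ 2 ^ L := by omega
      calc Nat.log 2 t ≤ Nat.log 2 (2 ^ L) := Nat.log_mono_right h1
        _ = L := Nat.log_pow (by norm_num) L
    have hXc' : Nat.card {x : X // Nat.card (Γ x) = t ∧ Ps (Γ x)} ≤ (t ^ k) ^ (C * L) := by
      have h1 : Nat.card {x : X // Nat.card (Γ x) = t ∧ Ps (Γ x)} ≤ Nat.card X :=
        Nat.card_le_card_of_injective _ Subtype.val_injective
      have h2 : Nat.card X ≤ xc Ps t := by exact_mod_cast hXc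
      calc _ ≤ xc Ps t := h1.trans h2
        _ ≤ t ^ (C * Nat.log 2 t) := hQ.count t
        _ ≤ t ^ (C * L) := Nat.pow_le_pow_right (by omega) (Nat.mul_le_mul_left _ hlog)
        _ ≤ (t ^ k) ^ (C * L) := Nat.pow_le_pow_left (Nat.le_self_pow (by omega) t) _
    refine marked_Le_mono (marked_Le_ex key2) ?_ ?_
    · rw [Nat.le_div_iff_mul_le (by positivity)]
      refine le_trans (Nat.mul_le_mul_right _ ?_) (harith (t ^ k) (k.factorial ^ L) hv2 hvn
        (xk_fact (by omega) hod))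
      calc Nat.card {x : X // Nat.card (Γ x) = t ∧ Ps (Γ x)} *
            ((t ^ k) ^ (8 * L) * (((n / t ^ k) ^ ((2 * C + 20) * L) *
            xk_od (n / t ^ k) ^ (L * Nat.clog 2 L)) *
            (k.factorial ^ L * (t ^ k) ^ (C * L))))
          ≤ (t ^ k) ^ (C * L) * ((t ^ k) ^ (8 * L) * (((n / t ^ k) ^ ((2 * C + 20) * L) *
            xk_od (n / t ^ k) ^ (L * Nat.clog 2 L)) *
            (k.factorial ^ L * (t ^ k) ^ (C * L)))) := Nat.mul_le_mul_right _ hXc'
        _ = (t ^ k) ^ (C * L + 8 * L + C * L) * ((n / t ^ k) ^ ((2 * C + 20) * L) *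
            xk_od (n / t ^ k) ^ (L * Nat.clog 2 L)) * k.factorial ^ L := by
            rw [pow_add, pow_add]; ring
        _ ≤ _ := Nat.mul_le_mul_right _ (Nat.mul_le_mul_right _
            (Nat.pow_le_pow_right (by omega) (by nlinarith)))
    · rintro A ⟨hA, hCF, V, T, hT, hVn, hVb, hPT, hTc, ⟨e⟩⟩
      obtain ⟨x, ⟨f⟩⟩ := hcov T ⟨hTc, hPT⟩
      refine ⟨⟨x, ?_, hPiso T (Γ x) ⟨f⟩ hPT⟩, hA, hCF, V, hVn, ⟨?_⟩⟩
      · rw [← hTc]; exact (Nat.card_congr f.toEquiv).symm
      · exact e.trans (MulEquiv.piCongrRight fun _ => f)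
  -- conclusion
  have key : ∀ d : (Σ i, Fin (a i)) ⊕ (Fin (2 ^ L + 1) × Fin (L + 1)),
      marked_Le (fun A : Mk S W => Nat.card A.G = n ∧ CF Q A.G ∧
        Sum.elim (fun d => ∃ V : Subgroup A.G, marked_V d.1 (p d.1 ^ (d.2.1 + 1)) A V)
          (fun d => ∃ (V : Subgroup A.G) (T : Type) (_ : Group T), V.Normal ∧ V ≠ ⊥ ∧ Ps T ∧
            Nat.card T = d.1.1 ∧ Nonempty (V ≃* (Fin d.2.1 → T))) d)
        (n ^ ((2 * C + 20) * L) * xk_od n ^ (L * Nat.clog 2 L) / 2 ^ (4 * L)) := by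
    rintro (d | d)
    · exact keyA d
    · exact keyN d
  refine marked_Le_mono (marked_Le_ex key) ?_ ?_
  · have h1 : Nat.card ((Σ i, Fin (a i)) ⊕ (Fin (2 ^ L + 1) × Fin (L + 1))) ≤ 2 ^ (4 * L) := by
      rw [Nat.card_sum, Nat.card_sigma, Nat.card_prod]
      simp only [Nat.card_eq_fintype_card, Fintype.card_fin]
      have h2 : L + 1 ≤ 2 ^ L := Nat.lt_two_pow_self
      have h3 : 2 ^ L + 1 ≤ 2 ^ L * 2 ^ L := by nlinarith
      have h4 : 2 ≤ 2 ^ L := by omega
      have h5 : 2 ^ (4 * L) = 2 ^ L * (2 ^ L * (2 ^ L * 2 ^ L)) := by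
        rw [← pow_add, ← pow_add, ← pow_add]; congr 1; ring
      rw [h5]
      have h6 : (2 ^ L + 1) * (L + 1) ≤ (2 ^ L * 2 ^ L) * 2 ^ L := Nat.mul_le_mul h3 h2
      have h7 : L ≤ (2 ^ L * 2 ^ L) * 2 ^ L := by
        calc L ≤ 2 ^ L := by omega
          _ ≤ _ := Nat.le_mul_of_pos_left _ (by positivity)
      calc (∑ i, a i) + (2 ^ L + 1) * (L + 1) ≤ L + (2 ^ L + 1) * (L + 1) :=
            Nat.add_le_add_right hsum _
        _ ≤ 2 * ((2 ^ L * 2 ^ L) * 2 ^ L) := by omega
        _ ≤ 2 ^ L * ((2 ^ L * 2 ^ L) * 2 ^ L) := Nat.mul_le_mul_right _ h4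
        _ = _ := by ring
    calc _ ≤ 2 ^ (4 * L) * (n ^ ((2 * C + 20) * L) * xk_od n ^ (L * Nat.clog 2 L) / 2 ^ (4 * L)) :=
          Nat.mul_le_mul_right _ h1
      _ ≤ _ := Nat.mul_div_le _ _
  · rintro A ⟨hA, hCF⟩
    have : Finite A.G := Nat.finite_of_card_ne_zero (by rw [hA]; exact hn0)
    have : Nontrivial A.G := by
      rw [← Finite.one_lt_card_iff_nontrivial, hA]
      exact hn2
    obtain ⟨V, hVn, hVb, hmin⟩ := xk_min A.G
    by_cases hab : ∀ a ∈ V, ∀ b ∈ V, a * b = b * a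
    · obtain ⟨i, t, ht, V, hV⟩ := xk_exists_V p a hp hinj ha n hn hn2 A hA V hVn hVb hmin hab
      exact ⟨Sum.inl ⟨i, ⟨t, ht⟩⟩, hA, hCF, V, hV⟩
    · obtain ⟨T, k, hTV, hTs, hTna, hTsub, hk0, ⟨e⟩⟩ := min_nonab V hVn hVb hmin hab
      have hTnt : Nontrivial T := hTs.toNontrivial
      have hT2 : 2 ≤ Nat.card T := Finite.one_lt_card
      have hTn : Nat.card T ≤ 2 ^ L := (Subgroup.card_le_card_group T).trans (hA.le.trans hnL)
      have hVc : Nat.card V = Nat.card T ^ k := by
        rw [Nat.card_congr e.toEquiv, Nat.card_fun, Nat.card_eq_fintype_card (α := Fin k),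
          Fintype.card_fin]
      have hkL : k ≤ L := by
        have h1 : 2 ^ k ≤ 2 ^ L := by
          calc 2 ^ k ≤ Nat.card T ^ k := Nat.pow_le_pow_left hT2 _
            _ = Nat.card V := hVc.symm
            _ ≤ Nat.card A.G := Subgroup.card_le_card_group V
            _ ≤ 2 ^ L := hA.le.trans hnL
        exact (Nat.pow_le_pow_iff_right (by norm_num)).1 h1
      refine ⟨Sum.inr (⟨Nat.card T, by omega⟩, ⟨k, by omega⟩), hA, hCF, ?_⟩
      exact ⟨V, T, inferInstance, hVn, hVb, ⟨hTs, hTna, hCF.subnormal_simple hQ.iso T hTsub hTs hTna⟩,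
        rfl, ⟨e⟩⟩

theorem xcount (S : ∀ (T : Type) [Group T], Prop) (C : ℕ) (hS : Adm S C) :
    ∃ c : ℕ, ∀ L a b : ℕ, Odd b → 2 ^ a * b ≤ 2 ^ L →
      NumLe (fun G _ => Nat.card G = 2 ^ a * b ∧ CF S G)
        (2 ^ (c * L ^ 2) * (b : ℝ) ^ (L * Nat.clog 2 L) *
          ∏ p ∈ (2 ^ a * b).primeFactors, (gc (p ^ (2 ^ a * b).factorization p) : ℝ)) := by
  classical
  refine ⟨2 * C + 20, fun L a b hb hmL => ?_⟩
  have hb0 : b ≠ 0 := by
    rintro rfl
    exact absurd hb (by decide)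
  have hodb : xk_od (2 ^ a * b) = b := by
    rw [xk_od_mul]
    have h1 : xk_od (2 ^ a) = 1 := by
      rw [xk_od_pow]
      have : xk_od 2 = 1 := by
        unfold xk_od
        rw [Nat.Prime.factorization_self Nat.prime_two]
        norm_num
      rw [this, one_pow]
    have h2 : xk_od b = b := by
      unfold xk_od
      rw [Nat.factorization_eq_zero_of_not_dvd hb.not_two_dvd_nat, pow_zero, Nat.div_one]
    rw [h1, h2, one_mul]
  generalize hm : 2 ^ a * b = m at *
  have h0 : m ≠ 0 := by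
    rw [← hm]
    positivity
  have hpr : ∀ p : m.primeFactors, (p : ℕ).Prime := fun p => Nat.prime_of_mem_primeFactors p.2
  have hne : ∀ p : m.primeFactors, (p : ℕ) ^ m.factorization p ≠ 0 := fun p =>
    pow_ne_zero _ (hpr p).ne_zero
  have hnum := fun p : m.primeFactors => numLe_gc (hne p)
  choose X hX Γ hgrp hXc hΓ using hnum
  haveI := hX
  letI := hgrp
  let D : Type := ∀ p : m.primeFactors, {x : X p // Nat.card (Γ p x) = (p : ℕ) ^ m.factorization p}
  have key : ∀ d : D, NumLe (fun G _ => ∃ A : Mk (fun p => Γ p (d p).1) (fun _ => ⊥),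
      Nat.card A.G = m ∧ CF S A.G ∧ Nonempty (G ≃* A.G))
      (2 ^ ((2 * C + 20) * L ^ 2) * (b : ℝ) ^ (L * Nat.clog 2 L)) := by
    intro d
    have hfin : ∀ p, Finite (Γ p (d p).1) := fun p =>
      Nat.finite_of_card_ne_zero (by rw [(d p).2]; exact hne p)
    have hprod : ∏ p : m.primeFactors, Nat.card (Γ p (d p).1) = m := by
      rw [Finset.prod_congr rfl fun p _ => (d p).2, Finset.prod_coe_sort m.primeFactors
        (fun p => p ^ m.factorization p)]
      exact Nat.prod_factorization_pow_eq_self h0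
    obtain ⟨Y, hY, Δ, hYc, hΔ⟩ := xk_marked S C hS (fun p => Γ p (d p).1) (fun p => (p : ℕ)) hpr
      Subtype.val_injective (fun p => by
        haveI : Fact (p : ℕ).Prime := ⟨hpr p⟩
        exact IsPGroup.of_card (d p).2) (fun p => by
        rw [← Finite.one_lt_card_iff_nontrivial, (d p).2]
        exact Nat.one_lt_pow (by
          rw [← Nat.pos_iff_ne_zero]
          exact (hpr p).factorization_pos_of_dvd h0 (Nat.dvd_of_mem_primeFactors p.2))
          (hpr p).one_lt) L (by rw [hprod]; exact hmL) m (fun _ => ⊥) (fun _ => inferInstance) (by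
        exact hprod.symm.trans (Finset.prod_congr rfl fun p _ => by rw [Subgroup.index_bot]))
    refine ⟨Y, hY, fun y => (Δ y).G, fun y => (Δ y).grp, ?_, ?_⟩
    · have h1 : Nat.card Y ≤ 2 ^ ((2 * C + 20) * L ^ 2) * b ^ (L * Nat.clog 2 L) := by
        refine hYc.trans ?_
        rw [hodb]
        refine Nat.mul_le_mul_right _ ((Nat.pow_le_pow_left hmL _).trans_eq ?_)
        rw [← pow_mul]
        congr 1
        ring
      exact_mod_cast h1
    · rintro G _ ⟨A, hA1, hA2, ⟨e⟩⟩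
      obtain ⟨y, f, hf⟩ := hΔ A ⟨hA1, hA2⟩
      exact ⟨y, ⟨e.trans f⟩⟩
  refine NumLe.mono (NumLe.ex key) ?_ ?_
  · rw [mul_comm]
    refine mul_le_mul_of_nonneg_left ?_ (by positivity)
    rw [Nat.card_pi, Nat.cast_prod]
    refine (Finset.prod_le_prod (fun p _ => Nat.cast_nonneg _) (fun p _ => ?_)).trans_eq
      (Finset.prod_coe_sort m.primeFactors (fun p => (gc (p ^ m.factorization p) : ℝ)))
    refine le_trans ?_ (hXc p)
    exact_mod_cast Nat.card_le_card_of_injective _ Subtype.val_injective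
  · rintro G _ ⟨hG, hCF⟩
    have hfin : Finite G := Nat.finite_of_card_ne_zero (by rw [hG]; exact h0)
    have h1 : ∀ p : m.primeFactors, ∃ (P : Subgroup G) (x : X p),
        Nat.card P = (p : ℕ) ^ m.factorization p ∧ Nonempty (P ≃* Γ p x) := by
      intro p
      haveI : Fact (p : ℕ).Prime := ⟨hpr p⟩
      obtain ⟨P⟩ := (inferInstance : Nonempty (Sylow p G))
      have h2 : Nat.card (P : Subgroup G) = (p : ℕ) ^ m.factorization p := by
        have h3 := P.card_eq_multiplicity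
        rw [hG] at h3
        exact h3
      obtain ⟨x, hx⟩ := hΓ p (P : Subgroup G) h2
      exact ⟨P, x, h2, hx⟩
    choose P x hP he using h1
    refine ⟨fun p => ⟨x p, by rw [← hP p]; exact (Nat.card_congr (he p).some.toEquiv).symm⟩,
      { G := G
        grp := inferInstance
        ι := fun p => (P p).subtype.comp (he p).some.symm.toMonoidHom
        ker := fun p => ?_ }, hG, hCF, ⟨MulEquiv.refl G⟩⟩
    rw [MonoidHom.ker_eq_bot_iff]
    exact (P p).subtype_injective.comp (he p).some.symm.injective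

end Pool.Agent.EnumG
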