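import Pool.Agent.Work.MP_9de0a1_al.X.XBdd
import Pool.Agent.Work.MP_9de0a1_al.X.XMarked
import Pool.Agent.Work.MP_9de0a1_al.Final

/-!
# XFinal : almost all finite groups with nonabelian composition factors in `S` are 2-groups
-/

open Subgroup Filter Topology

namespace Pool.Agent.EnumG

namespace XFinal

theorem two_pow_ge (m : ℕ) (hm : 15 ≤ m) : 2000 * (m + 1) ≤ 2 ^ m := by
  induction m, hm using Nat.le_induction with
  | base => norm_num
  | succ m hm ih =>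
    rw [pow_succ]
    omega

theorem clog_le {k : ℕ} (hk : 30000 ≤ k) : 2000 * Nat.clog 2 (k + 1) ≤ k := by
  have h1 : 15 ≤ k / 2000 := by omega
  have h2 := two_pow_ge (k / 2000) h1
  have h3 : k + 1 ≤ 2 ^ (k / 2000) := by omega
  have h4 : Nat.clog 2 (k + 1) ≤ k / 2000 := Nat.clog_le_of_le_pow h3
  omega

theorem bound (S : ∀ (T : Type) [Group T], Prop) (C : ℕ) (hS : Adm S C) :
    ∃ c : ℕ, ∀ a b k : ℕ, Odd b → 2 ^ a * b < 2 ^ (k + 1) → a ≤ k + 1 → 30000 ≤ k →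
      (xc (CF S) (2 ^ a * b) : ℝ) ≤ 2 ^ ((c : ℝ) * ((k : ℝ) + 1) ^ 2 +
        ((k : ℝ) + 1 - a) * ((k : ℝ) + 1) * ((k : ℝ) / 2000)) * gc (2 ^ a) *
        2 ^ (24 / 361 * ((k : ℝ) + 1 - a) ^ 3) := by
  obtain ⟨c, hc⟩ := xcount S C hS
  refine ⟨c, fun a b k hb h ha hk => ?_⟩
  have hb0 : b ≠ 0 := by
    rintro rfl
    simp at hb
  have h1 := xc_le (hc (k + 1) a b hb h.le)
  have hbn : b < 2 ^ (k + 1 - a) := by
    have h2 : 2 ^ (k + 1) = 2 ^ a * 2 ^ (k + 1 - a) := by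
      rw [← pow_add]; congr 1; omega
    rw [h2] at h
    exact Nat.lt_of_mul_lt_mul_left h
  have h2 := Final.odd_prod hb hbn
  have h3 := Final.full_prod (a := a) hb
  have hcast : (((k + 1 - a : ℕ) : ℝ)) = (k : ℝ) + 1 - a := by
    rw [Nat.cast_sub ha]; push_cast; ring
  rw [hcast] at h2
  have hcl : (Nat.clog 2 (k + 1) : ℝ) ≤ (k : ℝ) / 2000 := by
    have h5 : ((2000 * Nat.clog 2 (k + 1) : ℕ) : ℝ) ≤ k := by exact_mod_cast clog_le hk
    push_cast at h5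
    linarith
  have h4 : (2 : ℝ) ^ (c * (k + 1) ^ 2) * (b : ℝ) ^ ((k + 1) * Nat.clog 2 (k + 1)) ≤
      2 ^ ((c : ℝ) * ((k : ℝ) + 1) ^ 2 +
        ((k : ℝ) + 1 - a) * ((k : ℝ) + 1) * ((k : ℝ) / 2000)) := by
    have hbR : (b : ℝ) ≤ (2 : ℝ) ^ ((k : ℝ) + 1 - a) := by
      rw [← hcast, Real.rpow_natCast]
      exact_mod_cast hbn.le
    have e1 : (2 : ℝ) ^ (c * (k + 1) ^ 2) = 2 ^ ((c : ℝ) * ((k : ℝ) + 1) ^ 2) := by
      rw [← Real.rpow_natCast]
      congr 1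
      push_cast
      ring
    have e0 : (0 : ℝ) ≤ (k : ℝ) + 1 - a := by
      rw [← hcast]
      exact Nat.cast_nonneg _
    have e2 : (b : ℝ) ^ ((k + 1) * Nat.clog 2 (k + 1)) ≤
        2 ^ (((k : ℝ) + 1 - a) * ((k : ℝ) + 1) * ((k : ℝ) / 2000)) := by
      calc (b : ℝ) ^ ((k + 1) * Nat.clog 2 (k + 1))
          ≤ ((2 : ℝ) ^ ((k : ℝ) + 1 - a)) ^ ((k + 1) * Nat.clog 2 (k + 1)) :=
            pow_le_pow_left₀ (Nat.cast_nonneg _) hbR _
        _ = 2 ^ (((k : ℝ) + 1 - a) * ((k : ℝ) + 1) * (Nat.clog 2 (k + 1) : ℝ)) := by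
            rw [← Real.rpow_natCast, ← Real.rpow_mul (by norm_num)]
            congr 1
            push_cast
            ring
        _ ≤ _ := by
            apply Real.rpow_le_rpow_of_exponent_le (by norm_num)
            exact mul_le_mul_of_nonneg_left hcl (by positivity)
    rw [e1, Real.rpow_add (by norm_num)]
    exact mul_le_mul_of_nonneg_left e2 (by positivity)
  calc (xc (CF S) (2 ^ a * b) : ℝ) ≤ _ := h1
    _ ≤ 2 ^ ((c : ℝ) * ((k : ℝ) + 1) ^ 2 +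
        ((k : ℝ) + 1 - a) * ((k : ℝ) + 1) * ((k : ℝ) / 2000)) *
          (gc (2 ^ a) * 2 ^ (24 / 361 * ((k : ℝ) + 1 - a) ^ 3)) := by
        refine mul_le_mul h4 (h3.trans ?_) (Finset.prod_nonneg fun _ _ => Nat.cast_nonneg _)
          (by positivity)
        exact mul_le_mul_of_nonneg_left h2 (Nat.cast_nonneg _)
    _ = _ := by ring

theorem real1 {k a C c : ℝ} (hk : 30000 ≤ k) (hc0 : 0 ≤ c) (hc : 2000 * c ≤ k) (hC : C ≤ k)
    (ha0 : 0 ≤ a) (ha : a ≤ 9 / 10 * k) :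
    (c * (k + 1) ^ 2 + (k + 1 - a) * (k + 1) * (k / 2000)) +
      (C + (2 / 27 + 1 / 1000) * a ^ 3) + 24 / 361 * (k + 1 - a) ^ 3 ≤
      -(2 * k) + (2 / 27 * k ^ 3 - 3 * k ^ 2) := by
  have h1 : (2 / 27 + 1 / 1000) * a ^ 3 ≤ 24 / 361 * (k + 1) ^ 2 * a := by
    have : (2 / 27 + 1 / 1000) * a ^ 2 ≤ 24 / 361 * (k + 1) ^ 2 := by nlinarith
    nlinarith
  have h2 : 24 / 361 * (k + 1 - a) ^ 3 ≤ 24 / 361 * (k + 1) ^ 2 * (k + 1 - a) := by
    have h3 : 0 ≤ k + 1 - a := by linarith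
    have h4 : (k + 1 - a) ^ 2 ≤ (k + 1) ^ 2 := by nlinarith
    nlinarith
  have h3 : 24 / 361 * (k + 1) ^ 2 * a + 24 / 361 * (k + 1) ^ 2 * (k + 1 - a) =
      24 / 361 * (k + 1) ^ 3 := by ring
  have h5 : (k + 1 - a) * (k + 1) * (k / 2000) ≤ (k + 1) ^ 2 * (k / 2000) := by
    have : (k + 1 - a) * (k + 1) ≤ (k + 1) ^ 2 := by nlinarith
    exact mul_le_mul_of_nonneg_right this (by positivity)
  have h6 : c * (k + 1) ^ 2 ≤ k / 2000 * (k + 1) ^ 2 :=
    mul_le_mul_of_nonneg_right (by linarith) (by positivity)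
  have h7 : (k + 1) ^ 2 ≤ k ^ 2 + 3 * k := by nlinarith
  have h8 : (k + 1) ^ 3 ≤ k ^ 3 + 4 * k ^ 2 := by nlinarith
  have h9 : k / 2000 * (k + 1) ^ 2 ≤ k / 2000 * (k ^ 2 + 3 * k) :=
    mul_le_mul_of_nonneg_left h7 (by positivity)
  have h10 : 30000 * k ^ 2 ≤ k ^ 3 := by nlinarith [sq_nonneg k]
  have h11 : k ≤ k ^ 2 := by nlinarith
  nlinarith

theorem real2 {k a c : ℝ} (hk : 30000 ≤ k) (hc0 : 0 ≤ c) (ha : 9 / 10 * k ≤ a)
    (hd : a + 50 * (c + 1) ≤ k) :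
    (c * (k + 1) ^ 2 + (k + 1 - a) * (k + 1) * (k / 2000)) + 24 / 361 * (k + 1 - a) ^ 3 ≤
      -(2 * k) + (2 / 9 - 1 / 100) * a ^ 2 * (k - a) := by
  set d := k - a with hd'
  have hd50 : 50 * (c + 1) ≤ d := by linarith
  have hdk : d ≤ 1 / 10 * k := by linarith
  have ha2 : 81 / 100 * k ^ 2 ≤ a ^ 2 := by nlinarith
  have h1 : 17 / 100 * k ^ 2 * d ≤ (2 / 9 - 1 / 100) * a ^ 2 * d := by
    apply mul_le_mul_of_nonneg_right _ (by linarith)
    nlinarith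
  have e : k + 1 - a = d + 1 := by rw [hd']; ring
  have h2 : (d + 1) ^ 2 ≤ 11 / 1000 * k ^ 2 := by nlinarith
  have h3 : 24 / 361 * (k + 1 - a) ^ 3 ≤ 1 / 1000 * k ^ 2 * (d + 1) := by
    rw [e]
    have : 24 / 361 * (d + 1) ^ 2 ≤ 1 / 1000 * k ^ 2 := by nlinarith
    nlinarith
  have hk2 : (k + 1) ^ 2 ≤ 2 * k ^ 2 := by nlinarith
  have h4 : (k + 1 - a) * (k + 1) * (k / 2000) ≤ (d + 1) * (1 / 1000 * k ^ 2) := by
    rw [e, mul_assoc]
    apply mul_le_mul_of_nonneg_left _ (by linarith)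
    nlinarith
  have h5 : c * (k + 1) ^ 2 ≤ (d / 50) * (2 * k ^ 2) :=
    mul_le_mul (by linarith) hk2 (by positivity) (by linarith)
  have h6 : k ≤ k ^ 2 := by nlinarith
  have h7 : k ^ 2 * 50 ≤ k ^ 2 * d := mul_le_mul_of_nonneg_left (by linarith) (by positivity)
  nlinarith

end XFinal

open Final XFinal in
theorem keyG (S : ∀ (T : Type) [Group T], Prop) (C : ℕ) (hS : Adm S C) :
    ∃ k0 : ℕ, ∀ k : ℕ, k0 ≤ k → ∀ a b : ℕ, Odd b → 3 ≤ b → 2 ^ a * b < 2 ^ (k + 1) →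
      (xc (CF S) (2 ^ a * b) : ℝ) ≤ 2 ^ (-(2 * k : ℝ)) * gc (2 ^ k) := by
  obtain ⟨c, hbound⟩ := XFinal.bound S C hS
  obtain ⟨k1, h1⟩ := sims_upper (1 / 1000) (by norm_num)
  obtain ⟨k2, h2⟩ := ratio_iter (1 / 100) (by norm_num) (by norm_num)
  obtain ⟨k3, h3⟩ := bddG (2 ^ (50 * (c + 1)))
  set C' : ℕ := ∑ a ∈ Finset.range k1, gc (2 ^ a) with hC
  refine ⟨30000 + (2000 * c + C' + 2 * k2 + k3 + 500 * (c + 1)), fun k hk' a b hb hb3 hab => ?_⟩
  have hk3 : 30000 ≤ k := (Nat.le_add_right _ _).trans hk'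
  have hk : 2000 * c + C' + 2 * k2 + k3 + 500 * (c + 1) ≤ k := (Nat.le_add_left _ _).trans hk'
  clear hk'
  have hk2000 : (30000 : ℝ) ≤ k := by exact_mod_cast hk3
  have hkC : (C' : ℝ) ≤ k := by exact_mod_cast (by omega : C' ≤ k)
  have hc0 : (0 : ℝ) ≤ c := Nat.cast_nonneg _
  have hkc : 2000 * (c : ℝ) ≤ k := by
    have : ((2000 * c : ℕ) : ℝ) ≤ k := by exact_mod_cast (by omega : 2000 * c ≤ k)
    push_cast at this
    exact this
  have hak : a ≤ k := by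
    by_contra h
    push Not at h
    have h5 : 2 ^ (k + 1) ≤ 2 ^ a := Nat.pow_le_pow_right (by norm_num) h
    nlinarith [(by positivity : 0 < 2 ^ a)]
  have hg0 : (0 : ℝ) ≤ gc (2 ^ k) := Nat.cast_nonneg _
  have hsc := hbound a b k hb hab (by omega : a ≤ k + 1) hk3
  set Y : ℝ := (c : ℝ) * ((k : ℝ) + 1) ^ 2 +
        ((k : ℝ) + 1 - a) * ((k : ℝ) + 1) * ((k : ℝ) / 2000) with hY
  clear_value Y
  by_cases hA : (a : ℝ) ≤ 9 / 10 * k
  · -- small `a`
    have hga : (gc (2 ^ a) : ℝ) ≤ 2 ^ ((C' : ℝ) + (2 / 27 + 1 / 1000) * (a : ℝ) ^ 3) := by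
      by_cases ha1 : k1 ≤ a
      · refine (gc_le (h1 a ha1)).trans ?_
        apply Real.rpow_le_rpow_of_exponent_le (by norm_num)
        have : (0 : ℝ) ≤ C' := Nat.cast_nonneg _
        linarith
      · have h5 : gc (2 ^ a) ≤ C' :=
          Finset.single_le_sum (f := fun a => gc (2 ^ a)) (fun _ _ => Nat.zero_le _)
            (Finset.mem_range.2 (by omega))
        have h6 : (gc (2 ^ a) : ℝ) ≤ (2 : ℝ) ^ (C' : ℝ) := by
          rw [Real.rpow_natCast]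
          exact_mod_cast h5.trans Nat.lt_two_pow_self.le
        refine h6.trans ?_
        apply Real.rpow_le_rpow_of_exponent_le (by norm_num)
        have : (0 : ℝ) ≤ (2 / 27 + 1 / 1000) * (a : ℝ) ^ 3 := by positivity
        linarith
    calc (xc (CF S) (2 ^ a * b) : ℝ) ≤ 2 ^ Y * gc (2 ^ a) *
          2 ^ (24 / 361 * ((k : ℝ) + 1 - a) ^ 3) := hsc
      _ ≤ 2 ^ Y * 2 ^ ((C' : ℝ) + (2 / 27 + 1 / 1000) * (a : ℝ) ^ 3) *
          2 ^ (24 / 361 * ((k : ℝ) + 1 - a) ^ 3) := by gcongr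
      _ = 2 ^ (Y + ((C' : ℝ) + (2 / 27 + 1 / 1000) * (a : ℝ) ^ 3) +
          24 / 361 * ((k : ℝ) + 1 - a) ^ 3) := by
          rw [Real.rpow_add (x := 2) (by norm_num) (Y + ((C' : ℝ) +
            (2 / 27 + 1 / 1000) * (a : ℝ) ^ 3)), Real.rpow_add (x := 2) (by norm_num) Y]
      _ ≤ 2 ^ (-(2 * k : ℝ) + (2 / 27 * (k : ℝ) ^ 3 - 3 * (k : ℝ) ^ 2)) := by
          apply Real.rpow_le_rpow_of_exponent_le (by norm_num)
          rw [hY]
          exact XFinal.real1 hk2000 hc0 hkc hkC (Nat.cast_nonneg _) hA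
      _ = 2 ^ (-(2 * k : ℝ)) * 2 ^ (2 / 27 * (k : ℝ) ^ 3 - 3 * (k : ℝ) ^ 2) :=
          Real.rpow_add (by norm_num) _ _
      _ ≤ 2 ^ (-(2 * k : ℝ)) * gc (2 ^ k) := by
          refine mul_le_mul_of_nonneg_left (higman k) (by positivity)
  · push Not at hA
    by_cases hd : a + 50 * (c + 1) ≤ k
    · -- medium `a`
      have ha2 : k2 ≤ a := by
        have : (k2 : ℝ) ≤ a := by
          have h5 : (2 * k2 : ℝ) ≤ k := by exact_mod_cast (by omega : 2 * k2 ≤ k)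
          linarith
        exact_mod_cast this
      have h5 := h2 a k ha2 hak
      have hd' : (a : ℝ) + 50 * ((c : ℝ) + 1) ≤ k := by exact_mod_cast hd
      have hpos : (0 : ℝ) < 2 ^ ((2 / 9 - 1 / 100) * (a : ℝ) ^ 2 * ((k : ℝ) - a)) := by positivity
      have hga : (gc (2 ^ a) : ℝ) ≤
          2 ^ (-((2 / 9 - 1 / 100) * (a : ℝ) ^ 2 * ((k : ℝ) - a))) * gc (2 ^ k) := by
        rw [Real.rpow_neg (by norm_num), ← div_eq_inv_mul, le_div_iff₀ hpos, mul_comm]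
        exact h5
      calc (xc (CF S) (2 ^ a * b) : ℝ) ≤ 2 ^ Y * gc (2 ^ a) *
            2 ^ (24 / 361 * ((k : ℝ) + 1 - a) ^ 3) := hsc
        _ ≤ 2 ^ Y *
            (2 ^ (-((2 / 9 - 1 / 100) * (a : ℝ) ^ 2 * ((k : ℝ) - a))) * gc (2 ^ k)) *
            2 ^ (24 / 361 * ((k : ℝ) + 1 - a) ^ 3) := by gcongr
        _ = 2 ^ (Y + 24 / 361 * ((k : ℝ) + 1 - a) ^ 3 +
            -((2 / 9 - 1 / 100) * (a : ℝ) ^ 2 * ((k : ℝ) - a))) * gc (2 ^ k) := by
            rw [Real.rpow_add (by norm_num), Real.rpow_add (by norm_num)]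
            ring
        _ ≤ 2 ^ (-(2 * k : ℝ)) * gc (2 ^ k) := by
            refine mul_le_mul_of_nonneg_right ?_ hg0
            apply Real.rpow_le_rpow_of_exponent_le (by norm_num)
            have := XFinal.real2 hk2000 hc0 hA.le hd'
            rw [← hY] at this
            linarith
    · -- large `a`
      push Not at hd
      have hbD : b ≤ 2 ^ (50 * (c + 1)) := by
        have h5 : 2 ^ a * b < 2 ^ a * 2 ^ (50 * (c + 1)) := by
          refine hab.trans_le ?_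
          rw [← pow_add]
          exact Nat.pow_le_pow_right (by norm_num) (by omega)
        exact (Nat.lt_of_mul_lt_mul_left h5).le
      have h5 := h3 k (by omega) a b hb hb3 hbD (by omega) hab
      have h6 : (xc (CF S) (2 ^ a * b) : ℝ) ≤ gc (2 ^ a * b) := by
        exact_mod_cast xc_le_gc _
      refine (h6.trans h5).trans (mul_le_mul_of_nonneg_right ?_ hg0)
      apply Real.rpow_le_rpow_of_exponent_le (by norm_num)
      have h7 : (k : ℝ) * 40 ≤ (k : ℝ) * (k : ℝ) :=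
        mul_le_mul_of_nonneg_left (by linarith) (by positivity)
      have h8 : (k : ℝ) ^ 2 = (k : ℝ) * (k : ℝ) := pow_two _
      rw [h8]
      linarith

theorem mainG (S : ∀ (T : Type) [Group T], Prop) (C : ℕ) (hS : Adm S C) :
    Tendsto (fun n : ℕ =>
    (∑ k ∈ (Finset.range (n + 1)).filter (fun k => 2 ^ k ≤ n), (gc (2 ^ k) : ℝ)) /
      (∑ m ∈ Finset.Icc 1 n, (xc (CF S) m : ℝ))) atTop (𝓝 1) := by
  classical
  obtain ⟨k0, hkey⟩ := keyG S C hS
  set N : ℕ → ℝ := fun n =>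
    ∑ k ∈ (Finset.range (n + 1)).filter (fun k => 2 ^ k ≤ n), (gc (2 ^ k) : ℝ) with hN
  set D : ℕ → ℝ := fun n => ∑ m ∈ Finset.Icc 1 n, (xc (CF S) m : ℝ) with hD
  -- the powers of two
  have hpow : ∀ n : ℕ, ∑ m ∈ (Finset.Icc 1 n).filter (fun m => ∃ j, m = 2 ^ j), (xc (CF S) m : ℝ) = N n := by
    intro n
    have himg : (Finset.Icc 1 n).filter (fun m => ∃ j, m = 2 ^ j) =
        ((Finset.range (n + 1)).filter (fun k => 2 ^ k ≤ n)).image (fun k => 2 ^ k) := by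
      ext m
      simp only [Finset.mem_filter, Finset.mem_Icc, Finset.mem_image, Finset.mem_range]
      constructor
      · rintro ⟨⟨h1, h2⟩, j, rfl⟩
        refine ⟨j, ⟨?_, h2⟩, rfl⟩
        have := (Nat.lt_two_pow_self : j < 2 ^ j)
        omega
      · rintro ⟨j, ⟨h1, h2⟩, rfl⟩
        exact ⟨⟨Nat.one_le_two_pow, h2⟩, j, rfl⟩
    rw [himg, Finset.sum_image fun a _ b _ h => Nat.pow_right_injective le_rfl h]
    exact Finset.sum_congr rfl fun k _ => by rw [xc_two_pow]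
  have hsplit : ∀ n : ℕ, D n = N n +
      ∑ m ∈ (Finset.Icc 1 n).filter (fun m => ¬ ∃ j, m = 2 ^ j), (xc (CF S) m : ℝ) := by
    intro n
    rw [← hpow n, hD]
    exact (Finset.sum_filter_add_sum_filter_not _ _ _).symm
  have hNle : ∀ n : ℕ, N n ≤ D n := by
    intro n
    rw [hsplit]
    have : 0 ≤ ∑ m ∈ (Finset.Icc 1 n).filter (fun m => ¬ ∃ j, m = 2 ^ j), (xc (CF S) m : ℝ) :=
      Finset.sum_nonneg fun _ _ => Nat.cast_nonneg _
    linarith
  have hNpos : ∀ n : ℕ, 1 ≤ n → 0 < N n := by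
    intro n hn
    have h1 : (gc (2 ^ 0) : ℝ) ≤ N n := by
      refine Finset.single_le_sum (f := fun k => (gc (2 ^ k) : ℝ)) (fun _ _ => Nat.cast_nonneg _) ?_
      simp [hn]
    have h2 : (1 : ℝ) ≤ gc (2 ^ 0) := Final.one_le_gc (by norm_num)
    linarith
  have hlow : ∀ n : ℕ, 2 ^ k0 ≤ n → D n ≤ N n * (1 + 4 / n) := by
    intro n hn
    have hn0 : n ≠ 0 := by
      have : 0 < 2 ^ k0 := by positivity
      omega
    have hnpos : (0 : ℝ) < n := by exact_mod_cast Nat.pos_of_ne_zero hn0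
    set k := Nat.log 2 n with hk
    have hk1 : 2 ^ k ≤ n := Nat.pow_log_le_self 2 hn0
    have hk2 : n < 2 ^ (k + 1) := Nat.lt_pow_succ_log_self (by norm_num) n
    have hk0 : k0 ≤ k := (Nat.le_log_iff_pow_le (by norm_num) hn0).2 hn
    have hgN : (gc (2 ^ k) : ℝ) ≤ N n := by
      refine Finset.single_le_sum (f := fun k => (gc (2 ^ k) : ℝ)) (fun _ _ => Nat.cast_nonneg _) ?_
      rw [Finset.mem_filter, Finset.mem_range]
      refine ⟨?_, hk1⟩
      have := (Nat.lt_two_pow_self : k < 2 ^ k)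
      omega
    have hterm : ∀ m ∈ (Finset.Icc 1 n).filter (fun m => ¬ ∃ j, m = 2 ^ j),
        (xc (CF S) m : ℝ) ≤ 2 ^ (-(2 * k : ℝ)) * N n := by
      intro m hm
      obtain ⟨hm1, hm2⟩ := Finset.mem_filter.1 hm
      rw [Finset.mem_Icc] at hm1
      obtain ⟨a, b, hb, rfl⟩ := Nat.exists_eq_two_pow_mul_odd (show m ≠ 0 by omega)
      have hb3 : 3 ≤ b := by
        obtain ⟨c, rfl⟩ := hb
        rcases Nat.eq_zero_or_pos c with rfl | hc
        · exfalso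
          exact hm2 ⟨a, by simp⟩
        · omega
      refine (hkey k hk0 a b hb hb3 (by omega)).trans ?_
      exact mul_le_mul_of_nonneg_left hgN (by positivity)
    have hsum : ∑ m ∈ (Finset.Icc 1 n).filter (fun m => ¬ ∃ j, m = 2 ^ j), (xc (CF S) m : ℝ) ≤
        n * (2 ^ (-(2 * k : ℝ)) * N n) := by
      refine (Finset.sum_le_sum hterm).trans ?_
      rw [Finset.sum_const, nsmul_eq_mul]
      refine mul_le_mul_of_nonneg_right ?_ (mul_nonneg (by positivity)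
        (hNpos n (by omega)).le)
      have h5 : ((Finset.Icc 1 n).filter (fun m => ¬ ∃ j, m = 2 ^ j)).card ≤ n := by
        refine (Finset.card_filter_le _ _).trans ?_
        simp
      exact_mod_cast h5
    have h6 : (n : ℝ) * 2 ^ (-(2 * k : ℝ)) ≤ 4 / n := by
      rw [le_div_iff₀ hnpos]
      have h7 : (n : ℝ) ≤ 2 * 2 ^ (k : ℝ) := by
        rw [Real.rpow_natCast]
        have : (n : ℝ) ≤ ((2 ^ (k + 1) : ℕ) : ℝ) := by exact_mod_cast hk2.le
        rw [pow_succ] at this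
        push_cast at this
        linarith
      have h8 : (2 : ℝ) ^ (-(2 * k : ℝ)) * ((2 : ℝ) ^ (k : ℝ) * (2 : ℝ) ^ (k : ℝ)) = 1 := by
        rw [← Real.rpow_add (by norm_num), ← Real.rpow_add (by norm_num)]
        ring_nf
        simp
      have h9 : (n : ℝ) * n ≤ (2 * 2 ^ (k : ℝ)) * (2 * 2 ^ (k : ℝ)) :=
        mul_le_mul h7 h7 hnpos.le (by positivity)
      calc (n : ℝ) * 2 ^ (-(2 * k : ℝ)) * n = 2 ^ (-(2 * k : ℝ)) * ((n : ℝ) * n) := by ring
        _ ≤ 2 ^ (-(2 * k : ℝ)) * ((2 * 2 ^ (k : ℝ)) * (2 * 2 ^ (k : ℝ))) :=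
            mul_le_mul_of_nonneg_left h9 (by positivity)
        _ = 4 * (2 ^ (-(2 * k : ℝ)) * ((2 : ℝ) ^ (k : ℝ) * (2 : ℝ) ^ (k : ℝ))) := by ring
        _ = 4 := by rw [h8, mul_one]
    rw [hsplit]
    have hN0 := (hNpos n (by omega)).le
    nlinarith
  have hlim : Tendsto (fun n : ℕ => (1 + 4 / (n : ℝ))⁻¹) atTop (𝓝 1) := by
    have h1 : Tendsto (fun n : ℕ => 4 / (n : ℝ)) atTop (𝓝 0) := tendsto_const_div_atTop_nhds_zero_nat 4
    have h2 := (h1.const_add 1).inv₀ (by norm_num)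
    simpa using h2
  refine tendsto_of_tendsto_of_tendsto_of_le_of_le' hlim tendsto_const_nhds ?_ ?_
  · filter_upwards [Filter.eventually_ge_atTop (2 ^ k0)] with n hn
    have hn1 : 1 ≤ n := Nat.one_le_two_pow.trans hn
    have hNp := hNpos n hn1
    have hDp : 0 < D n := hNp.trans_le (hNle n)
    have hq : 0 < 1 + 4 / (n : ℝ) := by positivity
    change (1 + 4 / (n : ℝ))⁻¹ ≤ N n / D n
    rw [le_div_iff₀ hDp, inv_mul_le_iff₀ hq, mul_comm]
    exact hlow n hn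
  · filter_upwards [Filter.eventually_ge_atTop 1] with n hn
    have hDp : 0 < D n := (hNpos n hn).trans_le (hNle n)
    change N n / D n ≤ 1
    rw [div_le_one hDp]
    exact hNle n

end Pool.Agent.EnumG
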