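import Pool.Agent.Work.MP_9de0a1_al.Marked
import Pool.Agent.Work.MP_9de0a1_al.X.XDefs

/-!
# XStep : the two induction steps for marked groups with a general property `Pr`

HINTS. `stepA` is `marked_step` with `Group.IsSolvable` replaced by a quotient-closed property `Pr` and
`(n / v)^(7L)` by any bound `B0` (copy the proof).
`stepN`: `V` normal in `A.G`, `V ≃* U`, `U` with trivial centre. `W' i = V.comap (A.ι i)`; as `(A.ι i).range` is a
Sylow `p i`-subgroup, `|W' i| = v_i |W i|` with `v_i` the `p i`-part of `v` and `∏ index (W' i) = n / v`. The number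
of tuples `W'` is at most `∏ v_i^(2L) ≤ v^(2L)` (`marked_count_W`). Let `B` be the representative of
`A.G ⧸ V` (marked by `W'`). The homomorphism `j : A.G → B.G × MulAut U`,
`g ↦ (φ (mk g), e ∘ conj g ∘ e⁻¹)`, is injective (kernel in `V ∩ C(V) = Z(V) = 1`). With generators `β : Fin L → B.G`
of `B.G` fixed, the range of `j` is `E α = closure ({(1, conj u)} ∪ {(β t, α t)})` for some `α : Fin L → MulAut U`.
`A` is determined up to `Mk.Iso` by `α` and by the lifts `j ∘ A.ι i : S i → E α` of `B.ι i`; the kernel of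
`E α → B.G` has `v` elements, so there are at most `v^(clog |S i|)` lifts (`card_lifts`), in total at
most `v^(2L)` since `∏ |S i| ≤ 2^L`.
-/

open Subgroup

namespace Pool.Agent.EnumG

variable {I : Type} {S : I → Type} [∀ i, Group (S i)] {W : ∀ i, Subgroup (S i)}

attribute [local instance] Mk.grp

theorem stepA [Fintype I] [DecidableEq I] [∀ i, Finite (S i)]
    (Pr : ∀ (G : Type) [Group G], Prop)
    (hPr : ∀ (G : Type) [Group G] (V : Subgroup G) [V.Normal], Pr G → Pr (G ⧸ V))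
    (hW : ∀ i, (W i).Normal) (i : I)
    (L n v B0 : ℕ) (hn : n ≠ 0) (hnL : n ≤ 2 ^ L) (hv : 2 ≤ v)
    (hi : Nat.card (S i) ≤ 2 ^ L) (hI : Fintype.card I ≤ L)
    (IH : ∀ W' : Subgroup (S i), W'.Normal → W i ≤ W' → Nat.card W' = v * Nat.card (W i) →
      marked_Le (fun A : Mk S (Function.update W i W') => Nat.card A.G = n / v ∧ Pr A.G) B0) :
    marked_Le (fun A : Mk S W => Nat.card A.G = n ∧ Pr A.G ∧
      ∃ V : Subgroup A.G, marked_V i v A V) (v ^ (2 * L) * (B0 * (v ^ (2 * L) * v ^ (2 * L)))) := by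
  haveI := hW i
  have key : ∀ K : {K : Subgroup (S i) // W i ≤ K ∧ Nat.card K = v * Nat.card (W i)},
      marked_Le (fun A : Mk S W => Nat.card A.G = n ∧ Pr A.G ∧
        ∃ V : Subgroup A.G, marked_V i v A V ∧ V.comap (A.ι i) = K.1)
        (B0 * (v ^ (2 * L) * v ^ (2 * L))) := by
    rintro ⟨K, hK1, hK2⟩
    by_cases hex : ∃ A : Mk S W, Nat.card A.G = n ∧ Pr A.G ∧
        ∃ V : Subgroup A.G, marked_V i v A V ∧ V.comap (A.ι i) = K
    swap
    · exact marked_Le_empty fun A hA => hex ⟨A, hA⟩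
    obtain ⟨A0, hA0, -, V0, h1, h2⟩ := hex
    obtain ⟨hV0, hab0, hr0, -, -, hv0, -⟩ := h1
    haveI : Finite A0.G := Nat.finite_of_card_ne_zero (by rw [hA0]; exact hn)
    have hvn : v ∣ n := by
      rw [← hv0, ← hA0]
      exact Subgroup.card_subgroup_dvd_card V0
    have hnv : n / v ≠ 0 := by
      have := Nat.div_pos (Nat.le_of_dvd (Nat.pos_of_ne_zero hn) hvn) (by omega : 0 < v)
      omega
    have hKn : K.Normal := by
      rw [← h2]
      infer_instance
    obtain ⟨ε, hε⟩ := marked_eps A0 i V0 hr0 K h2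
    have hUc : ∀ a b : K ⧸ (W i).subgroupOf K, a * b = b * a := by
      intro a b
      apply ε.injective
      rw [map_mul, map_mul]
      exact Subtype.ext (hab0 _ (ε a).2 _ (ε b).2)
    have hUcard : Nat.card (K ⧸ (W i).subgroupOf K) = v := by
      rw [← hv0]
      exact Nat.card_congr ε.toEquiv
    haveI : Nontrivial (K ⧸ (W i).subgroupOf K) := by
      rw [← Finite.one_lt_card_iff_nontrivial, hUcard]
      omega
    have hUL : Nat.card (K ⧸ (W i).subgroupOf K) ≤ 2 ^ L := by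
      rw [hUcard]
      have h3 : v ≤ Nat.card K := by
        rw [hK2]
        exact Nat.le_mul_of_pos_right _ Nat.card_pos
      exact (h3.trans (Subgroup.card_le_card_group K)).trans hi
    obtain ⟨X, hX, Γ, hXc, hΓ⟩ := IH K hKn hK1 hK2
    have key2 : ∀ x : {x : X // Nat.card (Γ x).G = n / v},
        marked_Le (fun A : Mk S W => Nat.card A.G = n ∧ ∃ (V : Subgroup A.G) (_ : V.Normal),
          marked_V i v A V ∧ V.comap (A.ι i) = K ∧ ∃ φ : A.G ⧸ V ≃* (Γ x.1).G,
            ∀ k s, φ (QuotientGroup.mk (A.ι k s)) = (Γ x.1).ι k s)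
          (v ^ (2 * L) * v ^ (2 * L)) := by
      rintro ⟨x, hx⟩
      haveI : Finite (Γ x).G := Nat.finite_of_card_ne_zero (by rw [hx]; exact hnv)
      haveI : Finite (MulAut (K ⧸ (W i).subgroupOf K)) := DFunLike.finite _
      haveI : Finite ((Γ x).G →* MulAut (K ⧸ (W i).subgroupOf K)) := DFunLike.finite _
      have hcθ := marked_count_theta (Γ x).G (K ⧸ (W i).subgroupOf K) hUc L
        (by rw [hx]; exact (Nat.div_le_self _ _).trans hnL) hUL
      rw [hUcard] at hcθ
      refine marked_Le_mono (marked_Le_ex (D := {θ : (Γ x).G →* MulAut (K ⧸ (W i).subgroupOf K) //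
        IrrAct θ}) fun θ => marked_step3 i L n v hn hi hI K (Γ x) θ.1)
        (Nat.mul_le_mul_right _ hcθ) ?_
      rintro A ⟨hA, V, hV, h3, h4, φ, hφ⟩
      have h5 := h3
      obtain ⟨-, hab, hr, hc, hmin, -, -⟩ := h5
      obtain ⟨θ, hθ1, hθ2⟩ := marked_theta i K A (Γ x) V φ hab hr h4 hφ hc hmin
      exact ⟨⟨θ, hθ1⟩, hA, V, hV, φ, h3, hθ2⟩
    refine marked_Le_mono (marked_Le_ex key2) (Nat.mul_le_mul_right _
      ((Nat.card_le_card_of_injective _ Subtype.val_injective).trans hXc)) ?_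
    rintro A ⟨hA, hsolv, V, h3, h4⟩
    have h5 := h3
    obtain ⟨hVn, hab, hr, hc, hmin, hvV, hcop⟩ := h5
    haveI : Finite A.G := Nat.finite_of_card_ne_zero (by rw [hA]; exact hn)
    have hcardq : Nat.card (A.G ⧸ V) = n / v := by
      rw [← hA, ← hvV, Subgroup.card_eq_card_quotient_mul_card_subgroup V,
        Nat.mul_div_cancel _ Nat.card_pos]
    let A' : Mk S (Function.update W i K) :=
      { G := A.G ⧸ V
        grp := inferInstance
        ι := fun k => (QuotientGroup.mk' V).comp (A.ι k)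
        ker := fun k => (marked_quot_ker i A V hcop k).trans (by rw [h4]) }
    obtain ⟨x, hx⟩ := hΓ A' ⟨hcardq, hPr A.G V hsolv⟩
    obtain ⟨φ, hφ⟩ := hx
    refine ⟨⟨x, ?_⟩, hA, V, hVn, h3, h4, φ, hφ⟩
    rw [← hcardq]
    exact (Nat.card_congr φ.toEquiv).symm
  refine marked_Le_mono (marked_Le_ex key) (Nat.mul_le_mul_right _
    (marked_count_W (W i) v L hv hi)) ?_
  rintro A ⟨hA, hsolv, V, h3⟩
  have h5 := h3
  obtain ⟨hVn, hab, hr, hc, hmin, hvV, hcop⟩ := h5
  haveI : Finite A.G := Nat.finite_of_card_ne_zero (by rw [hA]; exact hn)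
  have hle : W i ≤ V.comap (A.ι i) := by
    intro s hs
    rw [← A.ker i, MonoidHom.mem_ker] at hs
    rw [Subgroup.mem_comap, hs]
    exact V.one_mem
  obtain ⟨ε, hε⟩ := marked_eps A i V hr _ rfl
  have hcardK : Nat.card (V.comap (A.ι i)) = v * Nat.card (W i) := by
    have h6 := Subgroup.card_eq_card_quotient_mul_card_subgroup ((W i).subgroupOf (V.comap (A.ι i)))
    rw [h6, Nat.card_congr ε.toEquiv, hvV, Nat.card_congr (Subgroup.subgroupOfEquivOfLe hle).toEquiv]
  exact ⟨⟨V.comap (A.ι i), hle, hcardK⟩, hA, hsolv, V, h3, rfl⟩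


section StepNAux

theorem xs_card_comap {G : Type} [Group G] [Finite G] {T : Type} [Group T] [Finite T] (f : T →* G)
    (V : Subgroup G) [V.Normal] {q : ℕ} (hq : q.Prime) (hT : IsPGroup q T)
    (hc : (f.range.index).Coprime q) :
    Nat.card (V.comap f) = q ^ (Nat.card V).factorization q * Nat.card f.ker := by
  haveI : Fact q.Prime := ⟨hq⟩
  have h1 : f.ker ≤ V.comap f := by
    intro s hs
    rw [MonoidHom.mem_ker] at hs
    rw [Subgroup.mem_comap, hs]
    exact V.one_mem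
  have h2 := Subgroup.relIndex_mul_relIndex ⊥ f.ker (V.comap f) bot_le h1
  rw [Subgroup.relIndex_bot_left, Subgroup.relIndex_bot_left, Subgroup.relIndex_ker,
    Subgroup.map_comap_eq] at h2
  rw [← h2, mul_comm]
  congr 1
  have hP : IsPGroup q f.range := hT.of_surjective f.rangeRestrict f.rangeRestrict_surjective
  have hPV : IsPGroup q (f.range ⊓ V : Subgroup G) := hP.to_le inf_le_left
  obtain ⟨t, ht⟩ := IsPGroup.iff_card.1 hPV
  -- `|V| = |P ∩ V| * [V : P ∩ V]`
  have h3 := Subgroup.relIndex_mul_relIndex ⊥ (f.range ⊓ V) V bot_le inf_le_right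
  rw [Subgroup.relIndex_bot_left, Subgroup.relIndex_bot_left, Subgroup.inf_relIndex_right] at h3
  have h4 : f.range.relIndex V = f.range.relIndex (f.range ⊔ V) := by
    have h5 := Subgroup.relIndex_mul_relIndex ⊥ f.range (f.range ⊔ V) bot_le le_sup_left
    have h6 := Subgroup.relIndex_mul_relIndex ⊥ V (f.range ⊔ V) bot_le le_sup_right
    have h7 := Subgroup.relIndex_mul_relIndex ⊥ (f.range ⊓ V) f.range bot_le inf_le_left
    rw [Subgroup.relIndex_bot_left, Subgroup.relIndex_bot_left] at h5 h6 h7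
    rw [Subgroup.relIndex_sup_right] at h6
    have h8 : (f.range ⊓ V).relIndex f.range = V.relIndex f.range := by
      rw [inf_comm, Subgroup.inf_relIndex_right]
    rw [h8] at h7
    have h9 : 0 < Nat.card (f.range ⊓ V : Subgroup G) := Nat.card_pos
    have h10 : 0 < V.relIndex f.range := Nat.pos_of_ne_zero (by
      rw [Subgroup.relIndex]; exact Subgroup.index_ne_zero_of_finite)
    apply Nat.eq_of_mul_eq_mul_left (Nat.mul_pos h9 h10)
    rw [h7, h5, ← h6, ← h3, ← h7]
    ring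
  have h5 : f.range.relIndex V ∣ f.range.index := by
    rw [h4]
    have h6 := Subgroup.relIndex_mul_index (H := f.range) (K := f.range ⊔ V) le_sup_left
    exact Dvd.intro _ h6
  have h6 : (f.range.relIndex V).Coprime q := Nat.Coprime.coprime_dvd_left h5 hc
  rw [ht] at h3 ⊢
  congr 1
  have h7 : f.range.relIndex V ≠ 0 := by
    rw [Subgroup.relIndex]; exact Subgroup.index_ne_zero_of_finite
  rw [← h3, Nat.factorization_mul (pow_ne_zero _ hq.ne_zero) h7, Finsupp.add_apply,
    Nat.Prime.factorization_pow hq, Finsupp.single_eq_same,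
    Nat.factorization_eq_zero_of_not_dvd, add_zero]
  intro h8
  exact hq.one_lt.ne' (Nat.eq_one_of_dvd_coprimes h6 h8 dvd_rfl)

theorem xs_prod_eq [Fintype I] (p : I → ℕ) (hinj : Function.Injective p)
    (v : ℕ) (hv : v ≠ 0) (h : ∀ q : ℕ, q.Prime → q ∣ v → ∃ i, p i = q) :
    ∏ i, p i ^ v.factorization (p i) = v := by
  classical
  have h1 : ∏ i, p i ^ v.factorization (p i) =
      ∏ q ∈ Finset.univ.image p, q ^ v.factorization q := by
    rw [Finset.prod_image fun a _ b _ hab => hinj hab]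
  rw [h1, ← Finset.prod_subset (s₁ := v.primeFactors)]
  · exact Nat.prod_factorization_pow_eq_self hv
  · intro q hq
    obtain ⟨i, hi⟩ := h q (Nat.prime_of_mem_primeFactors hq) (Nat.dvd_of_mem_primeFactors hq)
    exact Finset.mem_image.2 ⟨i, Finset.mem_univ i, hi⟩
  · intro q _ hq
    rw [← Nat.support_factorization, Finsupp.notMem_support_iff] at hq
    rw [hq, pow_zero]

theorem xs_count_K {G : Type} [Group G] [Finite G] (H : Subgroup G) (v L : ℕ) (hv : 1 ≤ v)
    (hL : Nat.card G ≤ 2 ^ L) :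
    Nat.card {K : Subgroup G // H ≤ K ∧ Nat.card K = v * Nat.card H} ≤ v ^ (2 * L) := by
  rcases Nat.lt_or_ge 1 v with h | h
  · exact marked_count_W H v L h hL
  · have hv1 : v = 1 := le_antisymm h hv
    subst hv1
    rw [one_pow, Finite.card_le_one_iff_subsingleton]
    constructor
    rintro ⟨K, hK1, hK2⟩ ⟨K', hK1', hK2'⟩
    apply Subtype.ext
    rw [one_mul] at hK2 hK2'
    show K = K'
    rw [← Subgroup.eq_of_le_of_card_ge hK1 hK2.le, ← Subgroup.eq_of_le_of_card_ge hK1' hK2'.le]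

variable {G G' B U : Type} [Group G] [Group G'] [Group B] [Group U]

/-- the injection of `G` into `B × Aut U` -/
def xs_j (V : Subgroup G) [V.Normal] (e : V ≃* U) (φ : G ⧸ V ≃* B) : G →* B × MulAut U :=
  MonoidHom.prod (φ.toMonoidHom.comp (QuotientGroup.mk' V))
    ((MulAut.congr e).toMonoidHom.comp (MulAut.conjNormal (H := V)))

/-- the group generated by the inner automorphisms and the pairs `(β t, α t)` -/
def xs_E {L : ℕ} (β : Fin L → B) (α : Fin L → MulAut U) : Subgroup (B × MulAut U) :=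
  closure (Set.range (fun u : U => ((1 : B), MulAut.conj u)) ∪ Set.range (fun t => (β t, α t)))

theorem xs_j_fst (V : Subgroup G) [V.Normal] (e : V ≃* U) (φ : G ⧸ V ≃* B) (g : G) :
    (xs_j V e φ g).1 = φ (QuotientGroup.mk g) := rfl

theorem xs_j_snd (V : Subgroup G) [V.Normal] (e : V ≃* U) (φ : G ⧸ V ≃* B) (g : G) (u : U) :
    (xs_j V e φ g).2 u = e (MulAut.conjNormal g (e.symm u)) := rfl

theorem xs_j_V (V : Subgroup G) [V.Normal] (e : V ≃* U) (φ : G ⧸ V ≃* B) (x : V) :
    xs_j V e φ x = (1, MulAut.conj (e x)) := by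
  refine Prod.ext ?_ ?_
  · rw [xs_j_fst, (QuotientGroup.eq_one_iff (x : G)).2 x.2, map_one]
  · apply MulEquiv.ext
    intro u
    rw [xs_j_snd, MulAut.conj_apply]
    have h : MulAut.conjNormal (x : G) (e.symm u) = x * e.symm u * x⁻¹ := by
      apply Subtype.ext
      rw [MulAut.conjNormal_apply]
      rfl
    rw [h, map_mul, map_mul, map_inv, MulEquiv.apply_symm_apply]

theorem xs_inj (V : Subgroup G) [V.Normal] (e : V ≃* U) (φ : G ⧸ V ≃* B) (hZ : center U = ⊥) :
    Function.Injective (xs_j V e φ) := by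
  rw [injective_iff_map_eq_one]
  intro g hg
  have h1 : φ (QuotientGroup.mk g) = 1 := by rw [← xs_j_fst V e φ g, hg]; rfl
  have h2 : (QuotientGroup.mk g : G ⧸ V) = 1 := by
    apply φ.injective
    rw [h1, map_one]
  have h3 : g ∈ V := (QuotientGroup.eq_one_iff g).1 h2
  have h4 := xs_j_V V e φ ⟨g, h3⟩
  rw [hg] at h4
  have h5 : MulAut.conj (e ⟨g, h3⟩) = 1 := (congrArg Prod.snd h4).symm
  have h6 : e ⟨g, h3⟩ ∈ center U := by
    rw [Subgroup.mem_center_iff]
    intro u
    have h7 : MulAut.conj (e ⟨g, h3⟩) u = u := by rw [h5]; rfl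
    rw [MulAut.conj_apply, mul_inv_eq_iff_eq_mul] at h7
    exact h7.symm
  rw [hZ, Subgroup.mem_bot] at h6
  have h7 : (⟨g, h3⟩ : V) = 1 := e.injective (by rw [h6, map_one])
  exact congrArg Subtype.val h7

theorem xs_range (V : Subgroup G) [V.Normal] (e : V ≃* U) (φ : G ⧸ V ≃* B) {L : ℕ}
    (β : Fin L → B) (hβ : closure (Set.range β) = ⊤) :
    ∃ α : Fin L → MulAut U, (xs_j V e φ).range = xs_E β α := by
  have h1 : ∀ t, ∃ g : G, φ (QuotientGroup.mk g) = β t := by
    intro t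
    obtain ⟨g, hg⟩ := QuotientGroup.mk_surjective (φ.symm (β t))
    exact ⟨g, by rw [hg, MulEquiv.apply_symm_apply]⟩
  choose g hg using h1
  refine ⟨fun t => (xs_j V e φ (g t)).2, le_antisymm ?_ ?_⟩
  · rintro _ ⟨x, rfl⟩
    have hmem : ∀ b : B, ∃ y : G, φ (QuotientGroup.mk y) = b ∧
        xs_j V e φ y ∈ xs_E β (fun t => (xs_j V e φ (g t)).2) := by
      intro b
      have hb : b ∈ closure (Set.range β) := by rw [hβ]; exact Subgroup.mem_top b
      induction hb using Subgroup.closure_induction with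
      | mem b hb =>
        obtain ⟨t, rfl⟩ := hb
        refine ⟨g t, hg t, Subgroup.subset_closure (Or.inr ⟨t, ?_⟩)⟩
        exact Prod.ext (hg t).symm rfl
      | one => exact ⟨1, by rw [QuotientGroup.mk_one, map_one], by rw [map_one]; exact one_mem _⟩
      | mul b c _ _ ihb ihc =>
        obtain ⟨y, hy1, hy2⟩ := ihb
        obtain ⟨z, hz1, hz2⟩ := ihc
        exact ⟨y * z, by rw [QuotientGroup.mk_mul, map_mul, hy1, hz1], by
          rw [map_mul]; exact mul_mem hy2 hz2⟩
      | inv b _ ihb =>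
        obtain ⟨y, hy1, hy2⟩ := ihb
        exact ⟨y⁻¹, by rw [QuotientGroup.mk_inv, map_inv, hy1], by
          rw [map_inv]; exact inv_mem hy2⟩
    obtain ⟨y, hy1, hy2⟩ := hmem (φ (QuotientGroup.mk x))
    have h2 : (QuotientGroup.mk y : G ⧸ V) = QuotientGroup.mk x := φ.injective hy1
    have h3 : y⁻¹ * x ∈ V := QuotientGroup.eq.1 h2
    have h4 : x = y * (⟨y⁻¹ * x, h3⟩ : V) := by simp
    rw [h4, map_mul, xs_j_V]
    exact mul_mem hy2 (Subgroup.subset_closure (Or.inl ⟨_, rfl⟩))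
  · rw [xs_E, Subgroup.closure_le]
    rintro _ (⟨u, rfl⟩ | ⟨t, rfl⟩)
    · refine ⟨e.symm u, ?_⟩
      rw [xs_j_V, MulEquiv.apply_symm_apply]
    · exact ⟨g t, Prod.ext (hg t) rfl⟩

theorem xs_iso (V : Subgroup G) [V.Normal] (e : V ≃* U) (φ : G ⧸ V ≃* B) (V' : Subgroup G')
    [V'.Normal] (e' : V' ≃* U) (φ' : G' ⧸ V' ≃* B) (hZ : center U = ⊥)
    (h : (xs_j V e φ).range = (xs_j V' e' φ').range) :
    ∃ f : G ≃* G', ∀ g, φ' (QuotientGroup.mk (f g)) = φ (QuotientGroup.mk g) := by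
  let f : G ≃* G' := (MonoidHom.ofInjective (xs_inj V e φ hZ)).trans
    ((MulEquiv.subgroupCongr h).trans (MonoidHom.ofInjective (xs_inj V' e' φ' hZ)).symm)
  have hf : ∀ g, xs_j V' e' φ' (f g) = xs_j V e φ g := by
    intro g
    have h1 : (MonoidHom.ofInjective (xs_inj V' e' φ' hZ)) (f g) =
        (MulEquiv.subgroupCongr h) ((MonoidHom.ofInjective (xs_inj V e φ hZ)) g) := by
      simp only [f, MulEquiv.trans_apply, MulEquiv.apply_symm_apply]
    exact congrArg Subtype.val h1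
  refine ⟨f, fun g => ?_⟩
  rw [← xs_j_fst V' e' φ', hf, xs_j_fst]

end StepNAux

theorem xs_sum_clog [Fintype I] (s : I → ℕ) (hs : ∀ i, s i ≠ 0) (L : ℕ)
    (hL : ∏ i, s i ≤ 2 ^ L) : ∑ i, Nat.clog 2 (s i) ≤ 2 * L := by
  have h1 : ∀ i, Nat.clog 2 (s i) ≤ 2 * Nat.log 2 (s i) := by
    intro i
    rcases Nat.lt_or_ge 1 (s i) with h | h
    · have h2 : 1 ≤ Nat.log 2 (s i) := Nat.log_pos (by norm_num) h
      have h3 : Nat.clog 2 (s i) ≤ Nat.log 2 (s i) + 1 := by
        apply Nat.clog_le_of_le_pow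
        exact (Nat.lt_pow_succ_log_self (by norm_num) _).le
      omega
    · have h2 : s i = 1 := by have := hs i; omega
      rw [h2]
      simp
  have h2 : ∑ i, Nat.log 2 (s i) ≤ L := by
    have h3 : 2 ^ (∑ i, Nat.log 2 (s i)) ≤ 2 ^ L := by
      rw [← Finset.prod_pow_eq_pow_sum]
      exact (Finset.prod_le_prod' fun i _ => Nat.pow_log_le_self 2 (hs i)).trans hL
    exact (Nat.pow_le_pow_iff_right (by norm_num)).1 h3
  calc ∑ i, Nat.clog 2 (s i) ≤ ∑ i, 2 * Nat.log 2 (s i) := Finset.sum_le_sum fun i _ => h1 i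
    _ = 2 * ∑ i, Nat.log 2 (s i) := by rw [Finset.mul_sum]
    _ ≤ 2 * L := Nat.mul_le_mul_left _ h2

theorem xs_count_marks [Fintype I] [∀ i, Finite (S i)] (A : Mk S W)
    [Finite A.G] (V : Subgroup A.G) [V.Normal] (L : ℕ) (hL : ∏ i, Nat.card (S i) ≤ 2 ^ L) :
    Nat.card (∀ k, {σ : S k →* A.G // ∀ s, (QuotientGroup.mk (σ s) : A.G ⧸ V) =
      QuotientGroup.mk (A.ι k s)}) ≤ Nat.card V ^ (2 * L) := by
  have hv : 1 ≤ Nat.card V := Nat.card_pos
  rw [Nat.card_pi]
  calc _ ≤ ∏ k, Nat.card V ^ Nat.clog 2 (Nat.card (S k)) := by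
        refine Finset.prod_le_prod' fun k _ => ?_
        exact card_lifts V ((QuotientGroup.mk' V).comp (A.ι k)) (Nat.le_pow_clog (by norm_num) _)
    _ = Nat.card V ^ ∑ k, Nat.clog 2 (Nat.card (S k)) := by rw [Finset.prod_pow_eq_pow_sum]
    _ ≤ Nat.card V ^ (2 * L) := Nat.pow_le_pow_right hv
        (xs_sum_clog (fun k => Nat.card (S k)) (fun k => Nat.card_pos.ne') L hL)

/-- the marked groups with given quotient and given image in `B × Aut U` -/
theorem xs_step3 [Fintype I] [∀ i, Finite (S i)] (L n v : ℕ) (hn : n ≠ 0)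
    (hL : ∏ i, Nat.card (S i) ≤ 2 ^ L) (U : Type) [Group U] [Finite U] (hU : Nat.card U = v)
    (hZ : center U = ⊥) {W' : ∀ i, Subgroup (S i)} (B : Mk S W') (E : Subgroup (B.G × MulAut U)) :
    marked_Le (fun A : Mk S W => Nat.card A.G = n ∧ ∃ (V : Subgroup A.G) (_ : V.Normal)
      (e : V ≃* U) (φ : A.G ⧸ V ≃* B.G), (∀ k s, φ (QuotientGroup.mk (A.ι k s)) = B.ι k s) ∧
        (xs_j V e φ).range = E) (v ^ (2 * L)) := by
  by_cases hex : ∃ A : Mk S W, Nat.card A.G = n ∧ ∃ (V : Subgroup A.G) (_ : V.Normal)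
      (e : V ≃* U) (φ : A.G ⧸ V ≃* B.G), (∀ k s, φ (QuotientGroup.mk (A.ι k s)) = B.ι k s) ∧
        (xs_j V e φ).range = E
  swap
  · exact marked_Le_empty fun A hA => hex ⟨A, hA⟩
  obtain ⟨A0, hA0, V0, hV0, e0, φ0, h1, h2⟩ := hex
  haveI : Finite A0.G := Nat.finite_of_card_ne_zero (by rw [hA0]; exact hn)
  haveI : ∀ k, Finite (S k →* A0.G) := fun k => DFunLike.finite _
  have hv0 : Nat.card V0 = v := by rw [← hU]; exact Nat.card_congr e0.toEquiv
  refine marked_Le_mono (marked_Le_rel (D := ∀ k, {σ : S k →* A0.G // ∀ s,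
    (QuotientGroup.mk (σ s) : A0.G ⧸ V0) = QuotientGroup.mk (A0.ι k s)})
    (fun A d => ∃ f : A.G ≃* A0.G, ∀ k s, f (A.ι k s) = (d k).1 s) ?_ ?_)
    ((xs_count_marks A0 V0 L hL).trans_eq (by rw [hv0])) fun A hA => hA
  · rintro A ⟨hA, V, hV, e, φ, h3, h4⟩
    obtain ⟨f, hf⟩ := xs_iso V e φ V0 e0 φ0 hZ (h4.trans h2.symm)
    have hf' : ∀ k s, (QuotientGroup.mk (f (A.ι k s)) : A0.G ⧸ V0) =
        QuotientGroup.mk (A0.ι k s) := by
      intro k s
      apply φ0.injective
      rw [hf, h3, h1]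
    show ∃ d : ∀ k, {σ : S k →* A0.G // ∀ s,
      (QuotientGroup.mk (σ s) : A0.G ⧸ V0) = QuotientGroup.mk (A0.ι k s)}, _
    exact ⟨fun k => ⟨f.toMonoidHom.comp (A.ι k), hf' k⟩, f, fun k s => rfl⟩
  · rintro A B d h4 h5
    exact marked_iso_of A0.G (fun k => (d k).1) h4 h5

theorem stepN [Fintype I] [∀ i, Finite (S i)] (p : I → ℕ) (hp : ∀ i, (p i).Prime)
    (hinj : Function.Injective p) (hS : ∀ i, IsPGroup (p i) (S i))
    (Pr : ∀ (G : Type) [Group G], Prop)
    (hPr : ∀ (G : Type) [Group G] (V : Subgroup G) [V.Normal], Pr G → Pr (G ⧸ V))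
    (hW : ∀ i, (W i).Normal) (L n v B0 : ℕ) (hn : n = ∏ i, (W i).index)
    (hL : ∏ i, Nat.card (S i) ≤ 2 ^ L) (U : Type) [Group U] [Finite U] (hU : Nat.card U = v)
    (hZ : center U = ⊥)
    (IH : ∀ W' : ∀ i, Subgroup (S i), (∀ i, (W' i).Normal) → n / v = ∏ i, (W' i).index →
      marked_Le (fun A : Mk S W' => Nat.card A.G = n / v ∧ Pr A.G) B0) :
    marked_Le (fun A : Mk S W => Nat.card A.G = n ∧ Pr A.G ∧
      ∃ V : Subgroup A.G, V.Normal ∧ Nonempty (V ≃* U))
      (v ^ (8 * L) * (B0 * Nat.card (MulAut U) ^ L)) := by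
  classical
  have hn0 : n ≠ 0 := by
    rw [hn]
    exact Finset.prod_ne_zero_iff.2 fun i _ => Subgroup.index_ne_zero_of_finite
  have hpos : ∀ i, 0 < Nat.card (S i) := fun i => Nat.card_pos
  have hnL : n ≤ 2 ^ L := by
    rw [hn]
    refine le_trans (Finset.prod_le_prod' fun i _ => ?_) hL
    exact Nat.le_of_dvd (hpos i) (W i).index_dvd_card
  have hi : ∀ i, Nat.card (S i) ≤ 2 ^ L := by
    intro i
    refine le_trans ?_ hL
    exact Finset.single_le_prod' (f := fun i => Nat.card (S i)) (fun k _ => hpos k) (Finset.mem_univ i)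
  have hv1 : 1 ≤ v := by rw [← hU]; exact Nat.card_pos
  have hidx : ∀ i, ∃ a, (W i).index = p i ^ a := by
    intro i
    haveI : Fact (p i).Prime := ⟨hp i⟩
    obtain ⟨b, hb⟩ := IsPGroup.iff_card.1 (hS i)
    obtain ⟨a, -, ha⟩ := (Nat.dvd_prime_pow (hp i)).1 ((W i).index_dvd_card.trans (dvd_of_eq hb))
    exact ⟨a, ha⟩
  choose a ha using hidx
  by_cases hvn : v ∣ n
  swap
  · refine marked_Le_empty ?_
    rintro A ⟨hA, -, V, -, ⟨e⟩⟩
    apply hvn
    rw [← hU, ← hA, ← Nat.card_congr e.toEquiv]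
    exact Subgroup.card_subgroup_dvd_card V
  have hnv : n / v ≠ 0 := by
    have := Nat.div_pos (Nat.le_of_dvd (Nat.pos_of_ne_zero hn0) hvn) (by omega : 0 < v)
    omega
  have hprod : ∏ i, p i ^ v.factorization (p i) = v := by
    refine xs_prod_eq p hinj v (by omega) ?_
    intro q hq hqv
    have h1 : q ∣ ∏ i, (W i).index := by
      rw [← hn]
      exact hqv.trans hvn
    obtain ⟨i, -, h2⟩ := (Prime.dvd_finsetProd_iff hq.prime _).1 h1
    rw [ha i] at h2
    exact ⟨i, ((Nat.prime_dvd_prime_iff_eq hq (hp i)).1 (hq.dvd_of_dvd_pow h2)).symm⟩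
  -- the cardinality of the inverse images
  have hcomap : ∀ A : Mk S W, Nat.card A.G = n → ∀ V : Subgroup A.G, V.Normal →
      Nat.card V = v → ∀ i, Nat.card (V.comap (A.ι i)) =
        p i ^ v.factorization (p i) * Nat.card (W i) := by
    intro A hA V hV hVv i
    haveI : Finite A.G := Nat.finite_of_card_ne_zero (by rw [hA]; exact hn0)
    have hrange : Nat.card (A.ι i).range = (W i).index := by
      rw [← Subgroup.index_ker, A.ker i]
    have hindex : (A.ι i).range.index = ∏ k ∈ Finset.univ.erase i, (W k).index := by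
      have h1 := Subgroup.card_mul_index (A.ι i).range
      rw [hrange, hA, hn, ← Finset.mul_prod_erase Finset.univ _ (Finset.mem_univ i)] at h1
      have h2 : 0 < (W i).index := Nat.pos_of_ne_zero (Subgroup.index_ne_zero_of_finite)
      exact Nat.eq_of_mul_eq_mul_left h2 h1
    have hc : ((A.ι i).range.index).Coprime (p i) := by
      rw [hindex]
      apply Nat.Coprime.prod_left
      intro k hk
      rw [ha k]
      exact Nat.Coprime.pow_left _ ((Nat.coprime_primes (hp k) (hp i)).2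
        fun h => Finset.ne_of_mem_erase hk (hinj h))
    have h3 := xs_card_comap (A.ι i) V (hp i) (hS i) hc
    rw [hVv] at h3
    rw [h3]
    congr 1
    rw [A.ker i]
  have key : ∀ d : (∀ i, {K : Subgroup (S i) // W i ≤ K ∧
      Nat.card K = p i ^ v.factorization (p i) * Nat.card (W i)}),
      marked_Le (fun A : Mk S W => Nat.card A.G = n ∧ Pr A.G ∧
        ∃ V : Subgroup A.G, V.Normal ∧ Nonempty (V ≃* U) ∧ ∀ i, V.comap (A.ι i) = (d i).1)
        (B0 * (Nat.card (MulAut U) ^ L * v ^ (2 * L))) := by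
    intro d
    by_cases hdN : ∀ i, ((d i).1).Normal
    swap
    · refine marked_Le_empty ?_
      rintro A ⟨hA, -, V, hV, -, h⟩
      apply hdN
      intro i
      rw [← h i]
      infer_instance
    have hdn : n / v = ∏ i, ((d i).1).index := by
      have h1 : ∀ i, (W i).index = p i ^ v.factorization (p i) * ((d i).1).index := by
        intro i
        have h3 := Subgroup.card_mul_index (W i)
        have h4 := Subgroup.card_mul_index (d i).1
        rw [← h4, (d i).2.2] at h3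
        have h5 : 0 < Nat.card (W i) := Nat.card_pos
        apply Nat.eq_of_mul_eq_mul_left h5
        rw [h3]
        ring
      have h2 : n = v * ∏ i, ((d i).1).index := by
        rw [hn, Finset.prod_congr rfl fun i _ => h1 i, Finset.prod_mul_distrib, hprod]
      conv_lhs => rw [h2]
      exact Nat.mul_div_cancel_left _ (by omega)
    obtain ⟨X, hX, Γ, hXc, hΓ⟩ := IH (fun i => (d i).1) hdN hdn
    have key2 : ∀ x : {x : X // Nat.card (Γ x).G = n / v},
        marked_Le (fun A : Mk S W => Nat.card A.G = n ∧ ∃ (V : Subgroup A.G) (_ : V.Normal),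
          Nonempty (V ≃* U) ∧ ∃ φ : A.G ⧸ V ≃* (Γ x.1).G,
            ∀ k s, φ (QuotientGroup.mk (A.ι k s)) = (Γ x.1).ι k s)
          (Nat.card (MulAut U) ^ L * v ^ (2 * L)) := by
      rintro ⟨x, hx⟩
      haveI : Finite (Γ x).G := Nat.finite_of_card_ne_zero (by rw [hx]; exact hnv)
      haveI : Finite (MulAut U) := DFunLike.finite _
      obtain ⟨β, hβ⟩ := exists_gens (G := (Γ x).G) (k := L)
        (by rw [hx]; exact (Nat.div_le_self _ _).trans hnL)
      refine marked_Le_mono (marked_Le_ex (D := Fin L → MulAut U) fun α =>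
        xs_step3 L n v hn0 hL U hU hZ (Γ x) (xs_E β α)) (by simp [Nat.card_fun]) ?_
      rintro A ⟨hA, V, hV, ⟨e⟩, φ, hφ⟩
      obtain ⟨α, hα⟩ := xs_range V e φ β hβ
      exact ⟨α, hA, V, hV, e, φ, hφ, hα⟩
    refine marked_Le_mono (marked_Le_ex key2) (Nat.mul_le_mul_right _
      ((Nat.card_le_card_of_injective _ Subtype.val_injective).trans hXc)) ?_
    rintro A ⟨hA, hpr, V, hVn, ⟨e⟩, h4⟩
    haveI : Finite A.G := Nat.finite_of_card_ne_zero (by rw [hA]; exact hn0)
    have hvV : Nat.card V = v := by rw [← hU]; exact Nat.card_congr e.toEquiv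
    have hcardq : Nat.card (A.G ⧸ V) = n / v := by
      rw [← hA, ← hvV, Subgroup.card_eq_card_quotient_mul_card_subgroup V,
        Nat.mul_div_cancel _ Nat.card_pos]
    let A' : Mk S (fun i => (d i).1) :=
      { G := A.G ⧸ V
        grp := inferInstance
        ι := fun k => (QuotientGroup.mk' V).comp (A.ι k)
        ker := fun k => by
          rw [← h4 k]
          ext s
          rw [MonoidHom.mem_ker, MonoidHom.comp_apply, QuotientGroup.mk'_apply,
            QuotientGroup.eq_one_iff, Subgroup.mem_comap] }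
    obtain ⟨x, hx⟩ := hΓ A' ⟨hcardq, hPr A.G V hpr⟩
    obtain ⟨φ, hφ⟩ := hx
    refine ⟨⟨x, ?_⟩, hA, V, hVn, ⟨e⟩, φ, hφ⟩
    rw [← hcardq]
    exact (Nat.card_congr φ.toEquiv).symm
  refine marked_Le_mono (marked_Le_ex key) ?_ ?_
  · have h1 : Nat.card (∀ i, {K : Subgroup (S i) // W i ≤ K ∧
        Nat.card K = p i ^ v.factorization (p i) * Nat.card (W i)}) ≤ v ^ (2 * L) := by
      rw [Nat.card_pi]
      calc _ ≤ ∏ i, (p i ^ v.factorization (p i)) ^ (2 * L) :=
            Finset.prod_le_prod' fun i _ => xs_count_K (W i) _ L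
              (Nat.one_le_pow _ _ (hp i).pos) (hi i)
        _ = v ^ (2 * L) := by rw [Finset.prod_pow, hprod]
    calc _ ≤ v ^ (2 * L) * (B0 * (Nat.card (MulAut U) ^ L * v ^ (2 * L))) :=
          Nat.mul_le_mul_right _ h1
      _ = v ^ (2 * L + 2 * L) * (B0 * Nat.card (MulAut U) ^ L) := by
          rw [pow_add]
          ring
      _ ≤ v ^ (8 * L) * (B0 * Nat.card (MulAut U) ^ L) :=
          Nat.mul_le_mul_right _ (Nat.pow_le_pow_right hv1 (by omega))
  · rintro A ⟨hA, hpr, V, hV, ⟨e⟩⟩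
    have hvV : Nat.card V = v := by rw [← hU]; exact Nat.card_congr e.toEquiv
    have hle : ∀ i, W i ≤ V.comap (A.ι i) := by
      intro i s hs
      rw [← A.ker i, MonoidHom.mem_ker] at hs
      rw [Subgroup.mem_comap, hs]
      exact V.one_mem
    exact ⟨fun i => ⟨V.comap (A.ι i), hle i, hcomap A hA V hV hvV i⟩, hA, hpr, V, hV, ⟨e⟩,
      fun i => rfl⟩

end Pool.Agent.EnumG
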